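import Mathlib

/-!
Exponential and logarithm for matrices that are strictly triangular with respect to a weight,
dilations, and invariance of Lebesgue measure in exponential coordinates.
-/

open scoped Matrix Matrix.Norms.Operator Topology
open NormedSpace Filter Set

set_option linter.unusedSectionVars false

noncomputable section

namespace Pool.Agent.P.MP_d483fb_an.Z.NE

variable {ι : Type} [Fintype ι] [DecidableEq ι]

/-- The number of indices of smaller weight. -/
def rk (w : ι → ℝ) (i : ι) : ℕ := (Finset.univ.filter fun l => w l < w i).card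

theorem rk_lt_iff {w : ι → ℝ} {i j : ι} : rk w j < rk w i ↔ w j < w i := by
  constructor
  · intro h
    by_contra hcon
    refine absurd h (not_lt.2 (Finset.card_le_card fun l hl => ?_))
    simp only [Finset.mem_filter, Finset.mem_univ, true_and] at hl ⊢
    exact hl.trans_le (not_lt.1 hcon)
  · intro h
    refine Finset.card_lt_card ⟨fun l hl => ?_, fun hs => ?_⟩
    · simp only [Finset.mem_filter, Finset.mem_univ, true_and] at hl ⊢
      exact hl.trans h
    · have := hs (Finset.mem_filter.2 ⟨Finset.mem_univ j, h⟩)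
      simp at this

theorem rk_lt_card (w : ι → ℝ) (i : ι) : rk w i < Fintype.card ι := by
  rw [← Finset.card_univ]
  refine Finset.card_lt_card ⟨Finset.subset_univ _, fun hs => ?_⟩
  have := hs (Finset.mem_univ i)
  simp at this

/-- The filtration by the number of levels that a matrix jumps. -/
def Fil (w : ι → ℝ) (k : ℕ) : Submodule ℝ (Matrix ι ι ℝ) where
  carrier := {X | ∀ i j, X i j ≠ 0 → rk w j + k ≤ rk w i}
  zero_mem' := by intro i j h; exact absurd rfl h
  add_mem' := by
    intro X Y hX hY i j h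
    by_cases h1 : X i j = 0
    · refine hY i j fun h2 => h ?_
      rw [Matrix.add_apply, h1, h2, add_zero]
    · exact hX i j h1
  smul_mem' := by
    intro c X hX i j h
    refine hX i j fun h1 => h ?_
    rw [Matrix.smul_apply, h1, smul_zero]

variable {w : ι → ℝ}

theorem mem_Fil {k : ℕ} {X : Matrix ι ι ℝ} :
    X ∈ Fil w k ↔ ∀ i j, X i j ≠ 0 → rk w j + k ≤ rk w i := Iff.rfl

theorem mem_Fil_one {X : Matrix ι ι ℝ} : X ∈ Fil w 1 ↔ ∀ i j, X i j ≠ 0 → w j < w i := by
  simp only [mem_Fil, Nat.succ_le_iff, rk_lt_iff]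

theorem Fil_anti {k l : ℕ} (h : k ≤ l) : Fil w l ≤ Fil w k :=
  fun _ hX i j hij => le_trans (by omega) (hX i j hij)

theorem Fil_mul {k l : ℕ} {X Y : Matrix ι ι ℝ} (hX : X ∈ Fil w k) (hY : Y ∈ Fil w l) :
    X * Y ∈ Fil w (k + l) := by
  intro i j hij
  rw [Matrix.mul_apply] at hij
  obtain ⟨m, -, hm⟩ := Finset.exists_ne_zero_of_sum_ne_zero hij
  have h1 := hX i m (left_ne_zero_of_mul hm)
  have h2 := hY m j (right_ne_zero_of_mul hm)
  omega

theorem one_mem_Fil : (1 : Matrix ι ι ℝ) ∈ Fil w 0 := by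
  intro i j hij
  obtain rfl : i = j := by
    by_contra hne
    exact hij (Matrix.one_apply_ne hne)
  simp

theorem Fil_pow {X : Matrix ι ι ℝ} (hX : X ∈ Fil w 1) (m : ℕ) : X ^ m ∈ Fil w m := by
  induction m with
  | zero => simpa using one_mem_Fil
  | succ m ih => rw [pow_succ]; exact Fil_mul ih hX

theorem Fil_card {X : Matrix ι ι ℝ} (hX : X ∈ Fil w (Fintype.card ι)) : X = 0 := by
  ext i j
  by_contra h
  have h1 := hX i j h
  have h2 := rk_lt_card w i
  omega

theorem pow_card {X : Matrix ι ι ℝ} (hX : X ∈ Fil w 1) : X ^ Fintype.card ι = 0 :=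
  Fil_card (Fil_pow hX _)

theorem exp_eq_sum {X : Matrix ι ι ℝ} (hX : X ∈ Fil w 1) :
    exp X = ∑ k ∈ Finset.range (Fintype.card ι + 1), ((k.factorial : ℝ)⁻¹) • X ^ k := by
  rw [exp_eq_tsum ℝ]
  refine tsum_eq_sum fun k hk => ?_
  have : Fintype.card ι ≤ k := by
    simp only [Finset.mem_range, not_lt] at hk
    omega
  rw [pow_eq_zero_of_le this (pow_card hX), smul_zero]

theorem one_sub_exp_mem {X : Matrix ι ι ℝ} (hX : X ∈ Fil w 1) : 1 - exp X ∈ Fil w 1 := by
  rw [exp_eq_sum hX, Finset.sum_range_succ']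
  simp only [Nat.factorial_zero, Nat.cast_one, inv_one, pow_zero, one_smul, sub_add_cancel_right]
  refine Submodule.neg_mem _ (Submodule.sum_mem _ fun k _ => Submodule.smul_mem _ _ ?_)
  exact Fil_anti (by omega) (Fil_pow hX _)

theorem one_sub_mul_mem {g h : Matrix ι ι ℝ} (hg : 1 - g ∈ Fil w 1) (hh : 1 - h ∈ Fil w 1) :
    1 - g * h ∈ Fil w 1 := by
  have : 1 - g * h = (1 - g) + (1 - h) - (1 - g) * (1 - h) := by noncomm_ring
  rw [this]
  exact Submodule.sub_mem _ (Submodule.add_mem _ hg hh) (Fil_anti (by omega) (Fil_mul hg hh))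

/-- The logarithm of a unipotent matrix. -/
def nlog (g : Matrix ι ι ℝ) : Matrix ι ι ℝ :=
  -∑ k ∈ Finset.range (Fintype.card ι), (((k : ℝ) + 1)⁻¹) • (1 - g) ^ (k + 1)

theorem nlog_one : nlog (1 : Matrix ι ι ℝ) = 0 := by simp [nlog]

theorem nlog_mem {g : Matrix ι ι ℝ} (hg : 1 - g ∈ Fil w 1) : nlog g ∈ Fil w 1 :=
  Submodule.neg_mem _ (Submodule.sum_mem _ fun k _ => Submodule.smul_mem _ _
    (Fil_anti (by omega) (Fil_pow hg _)))

theorem contDiff_nlog {n : WithTop ℕ∞} : ContDiff ℝ n (nlog : Matrix ι ι ℝ → Matrix ι ι ℝ) := by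
  unfold nlog
  refine ContDiff.neg (ContDiff.sum fun k _ => ContDiff.const_smul _ ?_)
  exact (contDiff_const.sub contDiff_id).pow _

theorem contDiff_exp {n : WithTop ℕ∞} : ContDiff ℝ n (exp : Matrix ι ι ℝ → Matrix ι ι ℝ) :=
  contDiff_iff_contDiffAt.2 fun X => (exp_analytic (𝕂 := ℝ) X).contDiffAt

theorem hasDerivAt_pow_exp (X : Matrix ι ι ℝ) (t : ℝ) (k : ℕ) :
    HasDerivAt (fun s : ℝ => (1 - exp (s • X)) ^ (k + 1))
      (-(((k : ℝ) + 1) • ((1 - exp (t • X)) ^ k * (exp (t • X) * X)))) t := by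
  have h0 : HasDerivAt (fun s : ℝ => 1 - exp (s • X)) (-(exp (t • X) * X)) t :=
    (hasDerivAt_exp_smul_const X t).const_sub 1
  have hc : Commute (exp (t • X) * X) (1 - exp (t • X)) := by
    have h1 : Commute X (exp (t • X)) := ((Commute.refl X).smul_right t).exp_right
    exact (Commute.one_right _).sub_right ((Commute.refl _).mul_left h1)
  induction k with
  | zero => simpa using h0
  | succ k ih =>
    have := ih.mul h0
    have he : (fun s : ℝ => (1 - exp (s • X)) ^ (k + 1 + 1)) =
        (fun s : ℝ => (1 - exp (s • X)) ^ (k + 1)) * fun s : ℝ => 1 - exp (s • X) := by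
      funext s
      simp only [Pi.mul_apply, pow_succ _ (k + 1)]
    rw [he]
    refine HasDerivAt.congr_deriv this ?_
    rw [neg_mul, smul_mul_assoc, mul_assoc, hc.eq, ← mul_assoc, ← pow_succ, mul_neg, ← neg_add]
    congr 1
    push_cast
    rw [add_smul ((k : ℝ) + 1), one_smul]

theorem nlog_exp {X : Matrix ι ι ℝ} (hX : X ∈ Fil w 1) : nlog (exp X) = X := by
  have hd : ∀ t : ℝ, HasDerivAt (fun s : ℝ => nlog (exp (s • X)) - s • X) 0 t := by
    intro t
    have h1 : HasDerivAt (fun s : ℝ => nlog (exp (s • X))) X t := by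
      have h2 := (HasDerivAt.fun_sum (u := Finset.range (Fintype.card ι)) fun k _ =>
        (hasDerivAt_pow_exp X t k).const_smul (((k : ℝ) + 1)⁻¹)).neg
      have h3 : -∑ k ∈ Finset.range (Fintype.card ι), ((k : ℝ) + 1)⁻¹ •
          -(((k : ℝ) + 1) • ((1 - exp (t • X)) ^ k * (exp (t • X) * X))) = X := by
        have h4 : ∀ k ∈ Finset.range (Fintype.card ι), ((k : ℝ) + 1)⁻¹ •
            -(((k : ℝ) + 1) • ((1 - exp (t • X)) ^ k * (exp (t • X) * X))) =
            -((1 - exp (t • X)) ^ k * (exp (t • X) * X)) := by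
          intro k _
          rw [smul_neg, inv_smul_smul₀ (by positivity)]
        rw [Finset.sum_congr rfl h4, Finset.sum_neg_distrib, neg_neg, ← Finset.sum_mul,
          ← mul_assoc]
        have h5 := geom_sum_mul_neg (1 - exp (t • X)) (Fintype.card ι)
        rw [sub_sub_cancel, pow_card (one_sub_exp_mem (Submodule.smul_mem _ t hX)),
          sub_zero] at h5
        rw [h5, one_mul]
      rw [h3] at h2
      exact h2
    have h6 : HasDerivAt (fun s : ℝ => s • X) X t :=
      HasDerivAt.congr_deriv ((hasDerivAt_id t).smul_const X) (one_smul _ _)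
    exact HasDerivAt.congr_deriv (h1.sub h6) (sub_self _)
  have h := is_const_of_deriv_eq_zero (fun t => (hd t).differentiableAt) (fun t => (hd t).deriv) 1 0
  simp only [one_smul, zero_smul, exp_zero, nlog_one, sub_zero] at h
  exact sub_eq_zero.1 h

theorem pow_sub_pow_mem {k : ℕ} {N N' : Matrix ι ι ℝ} (hN : N ∈ Fil w 1) (hN' : N' ∈ Fil w 1)
    (h : N - N' ∈ Fil w k) (m : ℕ) : N ^ (m + 1) - N' ^ (m + 1) ∈ Fil w (k + m) := by
  induction m with
  | zero => simpa using h
  | succ m ih =>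
    have : N ^ (m + 1 + 1) - N' ^ (m + 1 + 1) =
        N * (N ^ (m + 1) - N' ^ (m + 1)) + (N - N') * N' ^ (m + 1) := by
      rw [pow_succ' N (m + 1), pow_succ' N' (m + 1)]
      noncomm_ring
    rw [this]
    exact Submodule.add_mem _ (Fil_anti (by omega) (Fil_mul hN ih)) (Fil_mul h (Fil_pow hN' _))

theorem nlog_inj {g h : Matrix ι ι ℝ} (hg : 1 - g ∈ Fil w 1) (hh : 1 - h ∈ Fil w 1)
    (he : nlog g = nlog h) : g = h := by
  have key : ∀ k, (1 - g) - (1 - h) ∈ Fil w (k + 1) := by
    intro k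
    induction k with
    | zero => exact Submodule.sub_mem _ hg hh
    | succ k ih =>
      rcases Nat.eq_zero_or_pos (Fintype.card ι) with h0 | h0
      · have : IsEmpty ι := Fintype.card_eq_zero_iff.1 h0
        intro i
        exact isEmptyElim i
      obtain ⟨c, hc⟩ : ∃ c, Fintype.card ι = c + 1 := ⟨_, (Nat.succ_pred_eq_of_pos h0).symm⟩
      rw [nlog, nlog, neg_inj, hc, Finset.sum_range_succ', Finset.sum_range_succ'] at he
      simp only [Nat.cast_zero, zero_add, inv_one, pow_one, one_smul] at he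
      have h1 : (1 - g) - (1 - h) = -∑ m ∈ Finset.range c, (((m + 1 : ℕ) : ℝ) + 1)⁻¹ •
          ((1 - g) ^ (m + 1 + 1) - (1 - h) ^ (m + 1 + 1)) := by
        simp only [smul_sub, Finset.sum_sub_distrib]
        rw [neg_sub, sub_eq_sub_iff_add_eq_add, add_comm (1 - g), he]
      rw [h1]
      refine Submodule.neg_mem _ (Submodule.sum_mem _ fun m _ => Submodule.smul_mem _ _ ?_)
      exact Fil_anti (by omega) (pow_sub_pow_mem hg hh ih (m + 1))
  have := Fil_card (Fil_anti (Nat.le_succ _) (key (Fintype.card ι)))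
  rw [sub_sub_sub_cancel_left, sub_eq_zero] at this
  exact this.symm

theorem exp_nlog {g : Matrix ι ι ℝ} (hg : 1 - g ∈ Fil w 1) : exp (nlog g) = g :=
  nlog_inj (one_sub_exp_mem (nlog_mem hg)) hg (nlog_exp (nlog_mem hg))

/-- Conjugation by the diagonal matrix with entries `exp (t * w i)`. -/
def dl (w : ι → ℝ) (t : ℝ) : Matrix ι ι ℝ →ₐ[ℝ] Matrix ι ι ℝ where
  toFun X := Matrix.of fun i j => Real.exp (t * (w i - w j)) * X i j
  map_one' := by
    ext i j
    by_cases h : i = j
    · subst h; simp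
    · simp [Matrix.one_apply_ne h]
  map_mul' X Y := by
    ext i j
    simp only [Matrix.of_apply, Matrix.mul_apply, Finset.mul_sum]
    refine Finset.sum_congr rfl fun l _ => ?_
    have : Real.exp (t * (w i - w j)) = Real.exp (t * (w i - w l)) * Real.exp (t * (w l - w j)) := by
      rw [← Real.exp_add]
      congr 1
      ring
    rw [this]
    ring
  map_zero' := by ext i j; simp
  map_add' X Y := by ext i j; simp [mul_add]
  commutes' c := by
    ext i j
    by_cases h : i = j
    · subst h; simp [Matrix.algebraMap_matrix_apply]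
    · simp [Matrix.algebraMap_matrix_apply, h]

theorem dl_apply (t : ℝ) (X : Matrix ι ι ℝ) (i j : ι) :
    dl w t X i j = Real.exp (t * (w i - w j)) * X i j := rfl

theorem dl_eq (t : ℝ) (X : Matrix ι ι ℝ) : dl w t X =
    Matrix.diagonal (fun i => Real.exp (t * w i)) * X *
      Matrix.diagonal (fun i => Real.exp (-(t * w i))) := by
  ext i j
  rw [dl_apply, Matrix.mul_diagonal, Matrix.diagonal_mul, mul_right_comm, ← Real.exp_add]
  congr 2
  ring

theorem dl_zero (X : Matrix ι ι ℝ) : dl w 0 X = X := by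
  ext i j
  simp [dl_apply]

theorem dl_add (s t : ℝ) (X : Matrix ι ι ℝ) : dl w (s + t) X = dl w s (dl w t X) := by
  ext i j
  simp only [dl_apply, add_mul, Real.exp_add, mul_assoc]

theorem continuous_dl : Continuous fun p : ℝ × Matrix ι ι ℝ => dl w p.1 p.2 := by
  refine continuous_pi fun i => continuous_pi fun j => ?_
  simp only [dl_apply]
  fun_prop

theorem dl_mem_Fil {k : ℕ} (t : ℝ) {X : Matrix ι ι ℝ} (hX : X ∈ Fil w k) : dl w t X ∈ Fil w k :=
  fun i j h => hX i j (right_ne_zero_of_mul h)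

theorem dl_exp (t : ℝ) (X : Matrix ι ι ℝ) : dl w t (exp X) = exp (dl w t X) :=
  map_exp (dl w t) (continuous_dl.comp (Continuous.prodMk_right t)) X

theorem dl_nlog (t : ℝ) (g : Matrix ι ι ℝ) : dl w t (nlog g) = nlog (dl w t g) := by
  simp only [nlog, map_neg, map_sum, map_smul, map_pow, map_sub, map_one]

theorem tendsto_dl {X : Matrix ι ι ℝ} (hX : X ∈ Fil w 1) :
    Tendsto (fun t => dl w t X) atBot (𝓝 0) := by
  refine tendsto_pi_nhds.2 fun i => tendsto_pi_nhds.2 fun j => ?_
  simp only [dl_apply, Matrix.zero_apply]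
  by_cases h : X i j = 0
  · simp [h]
  · have h1 := mem_Fil_one.1 hX i j h
    have h2 : Tendsto (fun t : ℝ => t * (w i - w j)) atBot atBot :=
      tendsto_id.atBot_mul_const (sub_pos.2 h1)
    simpa using (Real.tendsto_exp_atBot.comp h2).mul_const (X i j)

end Pool.Agent.P.MP_d483fb_an.Z.NE
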