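import Pool.Agent.P.MP_d483fb_an.Z.HP.ExpHaar
import Pool.Agent.P.MP_d483fb_an.Z.Lie.Defs

/-!
Haar measure of Bowen balls.
-/

open scoped Matrix Matrix.Norms.Operator InnerProductSpace RealInnerProductSpace Topology ENNReal
open NormedSpace Filter Set MeasureTheory

set_option linter.unusedSectionVars false

noncomputable section

namespace Pool.Agent.P.MP_d483fb_an.Z

namespace NE

variable {ι : Type} [Fintype ι] [DecidableEq ι] {w : ι → ℝ}

theorem locallyCompact_sub (u : Submodule ℝ (Matrix ι ι ℝ)) : LocallyCompactSpace u :=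
  haveI : LocallyCompactSpace (Matrix ι ι ℝ) := inferInstanceAs (LocallyCompactSpace (ι → ι → ℝ))
  u.closed_of_finiteDimensional.locallyCompactSpace

theorem secondCountable_sub (u : Submodule ℝ (Matrix ι ι ℝ)) : SecondCountableTopology u :=
  haveI : SecondCountableTopology (Matrix ι ι ℝ) :=
    inferInstanceAs (SecondCountableTopology (ι → ι → ℝ))
  TopologicalSpace.Subtype.secondCountableTopology (u : Set (Matrix ι ι ℝ))

theorem sigmaCompact_sub (u : Submodule ℝ (Matrix ι ι ℝ)) : SigmaCompactSpace u :=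
  haveI := locallyCompact_sub u
  haveI := secondCountable_sub u
  inferInstance

theorem isCompact_norm_le (R : ℝ) : IsCompact {X : Matrix ι ι ℝ | ‖X‖ ≤ R} := by
  have := isCompact_closedBall (0 : Matrix ι ι ℝ) R
  rwa [Metric.closedBall, show {y : Matrix ι ι ℝ | dist y 0 ≤ R} = {X | ‖X‖ ≤ R} by simp] at this

theorem isCompact_preimage_val (u : Submodule ℝ (Matrix ι ι ℝ)) {Q : Set (Matrix ι ι ℝ)}
    (hQ : IsCompact Q) : IsCompact (Subtype.val ⁻¹' Q : Set u) :=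
  u.closed_of_finiteDimensional.isClosedEmbedding_subtypeVal.isCompact_preimage hQ

/-- The elements of `u` whose exponential has norm at most `R` form a compact set. -/
theorem NilSub.isCompact_exp_le {u : Submodule ℝ (Matrix ι ι ℝ)} (h : NilSub w u) (R : ℝ) :
    IsCompact {Z : u | ‖exp Z.1‖ ≤ R} := by
  have h1 := isCompact_preimage_val u
    ((isCompact_norm_le (ι := ι) R).image (contDiff_nlog (n := 0)).continuous)
  refine h1.of_isClosed_subset ?_ fun Z hZ => ⟨exp Z.1, hZ, nlog_exp (h.le Z.2)⟩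
  exact isClosed_le (((contDiff_exp (n := 0)).continuous.comp continuous_subtype_val).norm)
    continuous_const

end NE

open Pool.Agent.P.MP_d483fb_an.Z.NE

section Fib

variable {G : Type} [Group G] [TopologicalSpace G] {n : ℕ}

theorem ExpData.ρ_ex_inv' (D : ExpData G n) {Y : Mat n} (hY : Y ∈ D.g) :
    D.ρ (D.ex Y)⁻¹ = exp (-Y) := by
  have h2 : D.ρ (D.ex Y)⁻¹ * exp Y = 1 := by
    rw [← D.ρ_ex _ hY, ← map_mul, inv_mul_cancel, map_one]
  rw [← mul_one (D.ρ _), ← NilSub.exp_mul_neg Y, ← mul_assoc, h2, one_mul]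

theorem ExpData.fib_le (D : ExpData G n) {w : Fin n → ℝ} {u : Submodule ℝ (Mat n)}
    (h : NilSub w u) (hu : u ≤ D.g) [MeasurableSpace u] [BorelSpace u] (ν : Measure u)
    [ν.IsAddHaarMeasure] (R t : ℝ) (g : G) :
    ν {X : u | ‖dl w t (D.ρ ((D.ex X.1)⁻¹ * g))‖ ≤ R ∧ ‖dl w t (D.ρ ((D.ex X.1)⁻¹ * g)⁻¹)‖ ≤ R} ≤
      ENNReal.ofReal (Real.exp (-(t * h.ent))) * ν {Z : u | ‖exp Z.1‖ ≤ R * R} := by
  rcases eq_empty_or_nonempty {X : u | ‖dl w t (D.ρ ((D.ex X.1)⁻¹ * g))‖ ≤ R ∧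
    ‖dl w t (D.ρ ((D.ex X.1)⁻¹ * g)⁻¹)‖ ≤ R} with he | ⟨X0, hX0⟩
  · rw [he, measure_empty]
    exact zero_le
  rw [← h.measure_preimage_dlu ν, ← h.measure_preimage_star ν (-X0) (h.dlu t ⁻¹' _)]
  refine measure_mono fun X hX => ?_
  simp only [mem_preimage, mem_ofPred_eq, NilSub.dlu_val, ← dl_exp, NilSub.exp_star]
  have h3 : exp (-X0).1 * exp X.1 =
      D.ρ ((D.ex X0.1)⁻¹ * g) * D.ρ ((D.ex X.1)⁻¹ * g)⁻¹ := by
    rw [← map_mul, mul_inv_rev, inv_inv, mul_assoc, mul_inv_cancel_left, map_mul,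
      D.ρ_ex_inv' (hu X0.2), D.ρ_ex _ (hu X.2)]
    rfl
  rw [h3, map_mul]
  exact (norm_mul_le _ _).trans (mul_le_mul hX0.1 hX.2 (norm_nonneg _)
    ((norm_nonneg _).trans hX0.1))

end Fib

theorem div_bound {a b c e : ℝ≥0∞} {x : ℝ} (hb : b ≠ 0) (hb' : b ≠ ∞) (hc : c ≠ ∞)
    (he : e ≠ ∞) (h : a * b ≤ ENNReal.ofReal x * c * e) :
    a ≤ ENNReal.ofReal (((e * c / b).toReal + 1) * x) := by
  have hfin : e * c / b ≠ ∞ := ENNReal.div_ne_top (ENNReal.mul_ne_top he hc) hb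
  have h4 : a ≤ (e * c / b) * ENNReal.ofReal x := by
    refine ((ENNReal.le_div_iff_mul_le (Or.inl hb) (Or.inl hb')).2 h).trans_eq ?_
    simp only [div_eq_mul_inv]
    ring
  refine h4.trans ?_
  rw [ENNReal.ofReal_mul (by positivity)]
  refine mul_le_mul_left ?_ _
  exact (ENNReal.ofReal_toReal hfin).symm.le.trans
    (ENNReal.ofReal_le_ofReal (le_add_of_nonneg_right zero_le_one))

variable {G : Type} [Group G] [TopologicalSpace G] [IsTopologicalGroup G] [T2Space G]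
  [SecondCountableTopology G] [MeasurableSpace G] [BorelSpace G] {n k : ℕ}

/-- Haar measure of the elements of a compact set that stay bounded under the dilation `dl w t`. -/
theorem ExpData.bow_le (D : ExpData G n) {w : Fin n → ℝ} {u : Submodule ℝ (Mat n)}
    (h : NilSub w u) (hu : u ≤ D.g) (μ : Measure G) [μ.IsMulLeftInvariant]
    [IsFiniteMeasureOnCompacts μ] [SFinite μ] {Q : Set G} (hQ : IsCompact Q) (R : ℝ) :
    ∃ C : ℝ, 0 < C ∧ ∀ t : ℝ, μ {g ∈ Q | ‖dl w t (D.ρ g)‖ ≤ R ∧ ‖dl w t (D.ρ g⁻¹)‖ ≤ R} ≤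
      ENNReal.ofReal (C * Real.exp (-(t * h.ent))) := by
  let _ : MeasurableSpace u := borel u
  have : BorelSpace u := ⟨rfl⟩
  have := locallyCompact_sub u
  have := sigmaCompact_sub u
  set ν : Measure u := Measure.addHaar with hν
  obtain ⟨U, hU, hU0⟩ := exists_compact_mem_nhds (0 : u)
  have hex : Continuous fun X : u => D.ex X.1 :=
    D.ex_cont.comp_continuous continuous_subtype_val fun X => hu X.2
  set Q' : Set G := (fun p : u × G => D.ex p.1.1 * p.2) '' (U ×ˢ Q) with hQ'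
  have hQ'c : IsCompact Q' := (hU.prod hQ).image ((hex.comp continuous_fst).mul continuous_snd)
  set S0 : Set u := {Z : u | ‖exp Z.1‖ ≤ R * R} with hS0
  have hS0c : IsCompact S0 := h.isCompact_exp_le _
  have hUpos : ν U ≠ 0 := (Measure.measure_pos_of_mem_nhds ν hU0).ne'
  refine ⟨(μ Q' * ν S0 / ν U).toReal + 1, by positivity, fun t => ?_⟩
  set B : Set G := {g ∈ Q | ‖dl w t (D.ρ g)‖ ≤ R ∧ ‖dl w t (D.ρ g⁻¹)‖ ≤ R} with hB
  have hdl : Continuous fun X : Mat n => dl w t X := continuous_dl.comp (Continuous.prodMk_right t)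
  have hBc : IsClosed B := by
    refine hQ.isClosed.inter (IsClosed.inter ?_ ?_)
    · exact isClosed_le (hdl.comp D.cont).norm continuous_const
    · exact isClosed_le (hdl.comp (D.cont.comp continuous_inv)).norm continuous_const
  set S : Set (u × G) := {p | p.1 ∈ U ∧ (D.ex p.1.1)⁻¹ * p.2 ∈ B} with hS
  have hSm : MeasurableSet S := by
    refine IsClosed.measurableSet (IsClosed.inter (hU.isClosed.preimage continuous_fst) ?_)
    exact hBc.preimage ((hex.comp continuous_fst).inv.mul continuous_snd)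
  have h1 : (ν.prod μ) S = μ B * ν U := by
    rw [Measure.prod_apply hSm, ← lintegral_indicator_const hU.measurableSet]
    refine lintegral_congr fun X => ?_
    by_cases hX : X ∈ U
    · rw [indicator_of_mem hX, ← measure_preimage_mul μ (D.ex X.1)⁻¹ B]
      congr 1
      ext g
      simp [hS, hX]
    · rw [indicator_of_notMem hX]
      have : Prod.mk X ⁻¹' S = ∅ := by
        ext g
        simp [hS, hX]
      rw [this, measure_empty]
  have h2 : (ν.prod μ) S ≤ ENNReal.ofReal (Real.exp (-(t * h.ent))) * ν S0 * μ Q' := by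
    rw [Measure.prod_apply_symm hSm, ← lintegral_indicator_const hQ'c.measurableSet]
    refine lintegral_mono fun g => ?_
    rcases eq_empty_or_nonempty ((fun X => (X, g)) ⁻¹' S) with he | ⟨X0, hX0⟩
    · rw [he, measure_empty]
      exact zero_le
    have hg : g ∈ Q' := ⟨(X0, (D.ex X0.1)⁻¹ * g), ⟨hX0.1, hX0.2.1⟩, by simp⟩
    rw [indicator_of_mem hg]
    exact le_trans (measure_mono fun X hX => hX.2.2) (D.fib_le h hu ν R t g)
  rw [h1] at h2
  exact div_bound hUpos hU.measure_lt_top.ne hS0c.measure_lt_top.ne hQ'c.measure_lt_top.ne h2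

/-- Haar measure of a Bowen ball in exponential coordinates. -/
theorem ExpData.bow_ex_le (D : ExpData G n) {w : Fin n → ℝ} {u : Submodule ℝ (Mat n)}
    (h : NilSub w u) (hu : u ≤ D.g) (μ : Measure G) [μ.IsMulLeftInvariant]
    [IsFiniteMeasureOnCompacts μ] [SFinite μ] (r : ℝ) :
    ∃ C : ℝ, 0 < C ∧ ∀ t : ℝ, μ (D.ex '' {Y | Y ∈ D.g ∧ ‖Y‖ ≤ r ∧ ‖dl w t Y‖ ≤ r}) ≤
      ENNReal.ofReal (C * Real.exp (-(t * h.ent))) := by
  have hc : IsCompact {Y | Y ∈ D.g ∧ ‖Y‖ ≤ r} :=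
    (isCompact_norm_le r).inter_left D.g.closed_of_finiteDimensional
  have hQ : IsCompact (D.ex '' {Y | Y ∈ D.g ∧ ‖Y‖ ≤ r}) :=
    hc.image_of_continuousOn (D.ex_cont.mono fun Y hY => hY.1)
  obtain ⟨R, hR⟩ := ((isCompact_norm_le (ι := Fin n) r).image
    (contDiff_exp (n := 0)).continuous).isBounded.exists_norm_le
  obtain ⟨C, hC, hb⟩ := D.bow_le h hu μ hQ R
  refine ⟨C, hC, fun t => le_trans (measure_mono ?_) (hb t)⟩
  rintro _ ⟨Y, ⟨hY, h1, h2⟩, rfl⟩
  refine ⟨⟨Y, ⟨hY, h1⟩, rfl⟩, ?_, ?_⟩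
  · rw [D.ρ_ex _ hY, dl_exp]
    exact hR _ ⟨_, h2, rfl⟩
  · rw [D.ρ_ex_inv' hY, dl_exp]
    exact hR _ ⟨_, by simpa using h2, rfl⟩

namespace Std

omit [IsTopologicalGroup G] [T2Space G] [SecondCountableTopology G] [MeasurableSpace G]
  [BorelSpace G]

variable (D : Std G n k)

/-- The weight of the direction `s`. -/
def wOf (s : Euc k) : Fin n → ℝ := fun i => ⟪D.lam i, s⟫

theorem ρ_a_diag (s : Euc k) : D.ρ (D.a s) = Matrix.diagonal fun i => Real.exp ⟪D.lam i, s⟫ := by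
  rw [a, D.ρ_ex _ (D.dg_mem s), dg_apply, Matrix.exp_diagonal]
  congr 1
  funext i
  rw [Pi.coe_exp, Real.exp_eq_exp_ℝ]

theorem ρ_a_inv_diag (s : Euc k) :
    D.ρ (D.a s)⁻¹ = Matrix.diagonal fun i => Real.exp (-⟪D.lam i, s⟫) := by
  have h1 : D.ρ (D.a s)⁻¹ * D.ρ (D.a s) = 1 := by rw [← map_mul, inv_mul_cancel, map_one]
  have h2 : D.ρ (D.a s) * Matrix.diagonal (fun i => Real.exp (-⟪D.lam i, s⟫)) = 1 := by
    rw [ρ_a_diag, Matrix.diagonal_mul_diagonal, ← Matrix.diagonal_one]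
    congr 1
    funext i
    rw [← Real.exp_add, add_neg_cancel, Real.exp_zero]
  rw [← mul_one (D.ρ _), ← h2, ← mul_assoc, h1, one_mul]

theorem Ad_a_eq_dl (s : Euc k) (t : ℝ) (X : Mat n) :
    D.Ad (D.a (t • s)) X = dl (D.wOf s) t X := by
  rw [ExpData.Ad_apply, ρ_a_diag, ρ_a_inv_diag, dl_eq]
  simp only [inner_smul_right, wOf]

theorem ρ_conj_a (s : Euc k) (t : ℝ) (x : G) :
    D.ρ (D.a (t • s) * x * (D.a (t • s))⁻¹) = dl (D.wOf s) t (D.ρ x) := by
  rw [← Ad_a_eq_dl, ExpData.Ad_apply, map_mul, map_mul]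

theorem np_eq (s : Euc k) : D.np s = D.g ⊓ Fil (D.wOf s) 1 := by
  ext X
  simp only [np, grS, Submodule.mem_inf, mem_wtS, mem_Fil_one, mem_ofPred_eq, inner_sub_left,
    sub_pos, wOf]

theorem nhds_range_le : 𝓝[Set.range D.ρ] (1 : Mat n) ≤ Filter.map exp (𝓝[D.g] 0) := by
  rw [← D.opn, ← D.ex_nhds, Filter.map_map]
  refine (Filter.map_congr ?_).le
  filter_upwards [self_mem_nhdsWithin] with X hX using D.ρ_ex X hX

/-- A unipotent element of the image of the group has its logarithm in the Lie algebra. -/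
theorem nlog_mem_np (s : Euc k) {x : G} (hx : 1 - D.ρ x ∈ Fil (D.wOf s) 1) :
    nlog (D.ρ x) ∈ D.np s := by
  rw [np_eq]
  refine ⟨nlog_mem_of_nhds (S := Set.range D.ρ) ?_ ?_ D.nhds_range_le ⟨x, rfl⟩ hx, nlog_mem hx⟩
  · rintro t _ ⟨y, rfl⟩
    exact ⟨_, D.ρ_conj_a s t y⟩
  · intro t X hX
    rw [← Ad_a_eq_dl]
    exact D.Ad_mem _ hX

theorem nilSub_np (s : Euc k) : NilSub (D.wOf s) (D.np s) := by
  refine nilSub_of_nhds (S := MonoidHom.mrange D.ρ) (h := D.g) ?_ ?_ D.nhds_range_le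
    (fun X hX => ⟨_, D.ρ_ex X hX⟩) (D.np_eq s)
  · rintro t _ ⟨y, rfl⟩
    exact ⟨_, D.ρ_conj_a s t y⟩
  · intro t X hX
    rw [← Ad_a_eq_dl]
    exact D.Ad_mem _ hX

/-- The entropy of `a s`. -/
def hU (s : Euc k) : ℝ := (D.nilSub_np s).ent

end Std

theorem Std.bow_le (D : Std G n k) (s : Euc k) (μ : Measure G) [μ.IsMulLeftInvariant]
    [IsFiniteMeasureOnCompacts μ] [SFinite μ] {Q : Set G} (hQ : IsCompact Q) (R : ℝ) :
    ∃ C : ℝ, 0 < C ∧ ∀ t : ℝ, μ {g ∈ Q | ‖D.ρ (D.a (t • s) * g * (D.a (t • s))⁻¹)‖ ≤ R ∧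
      ‖D.ρ (D.a (t • s) * g⁻¹ * (D.a (t • s))⁻¹)‖ ≤ R} ≤
      ENNReal.ofReal (C * Real.exp (-(t * D.hU s))) := by
  simp only [Std.ρ_conj_a]
  exact D.toExpData.bow_le (D.nilSub_np s) inf_le_left μ hQ R

theorem Std.bow_ex_le (D : Std G n k) (s : Euc k) (μ : Measure G) [μ.IsMulLeftInvariant]
    [IsFiniteMeasureOnCompacts μ] [SFinite μ] (r : ℝ) :
    ∃ C : ℝ, 0 < C ∧ ∀ t : ℝ,
      μ (D.ex '' {Y | Y ∈ D.g ∧ ‖Y‖ ≤ r ∧ ‖D.Ad (D.a (t • s)) Y‖ ≤ r}) ≤
      ENNReal.ofReal (C * Real.exp (-(t * D.hU s))) := by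
  simp only [Std.Ad_a_eq_dl]
  exact D.toExpData.bow_ex_le (D.nilSub_np s) inf_le_left μ r

end Pool.Agent.P.MP_d483fb_an.Z
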