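import Pool.Agent.P.MP_d483fb_an.Z.HP.Bow

/-!
Measure of Bowen balls in a space with a locally free action and a finite invariant measure.
-/

open scoped Matrix Matrix.Norms.Operator InnerProductSpace RealInnerProductSpace Topology ENNReal
open NormedSpace Filter Set MeasureTheory

set_option linter.unusedSectionVars false

noncomputable section

namespace Pool.Agent.P.MP_d483fb_an.Z

open Pool.Agent.P.MP_d483fb_an.Z.NE

variable {G : Type} [Group G] [TopologicalSpace G] [IsTopologicalGroup G] {n k : ℕ}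
  {B : Type} [MulAction G B]

theorem card_move {Q' : Set G} (hQ' : IsCompact Q') {Q : Set B} {W : Set G} (hW : W ∈ 𝓝 (1 : G))
    (hfree : ∀ b ∈ Q, ∀ g ∈ W, g • b = b → g = 1) : ∃ M : ℕ, ∀ b ∈ Q, ∀ b2 : B,
      ∃ F : Finset G, F.card ≤ M ∧ ∀ x ∈ Q', x • b = b2 → x ∈ F := by
  classical
  obtain ⟨W1, hW1, hW1W⟩ := exists_nhds_split_inv hW
  obtain ⟨T, hT⟩ := compact_covered_by_mul_left_translates hQ' (V := W1⁻¹)
    ⟨1, mem_interior_iff_mem_nhds.2 (inv_mem_nhds_one G hW1)⟩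
  refine ⟨T.card, fun b hb b2 => ?_⟩
  have hch : ∀ y : G, ∃ x0 : G, ∀ x, y * x ∈ W1⁻¹ → x • b = b2 → x = x0 := by
    intro y
    by_cases h : ∃ x0, y * x0 ∈ W1⁻¹ ∧ x0 • b = b2
    · obtain ⟨x0, h1, h2⟩ := h
      refine ⟨x0, fun x h3 h4 => ?_⟩
      have h5 := hfree b hb _ (hW1W _ h1 _ h3) (by
        rw [div_eq_mul_inv, inv_inv, mul_inv_rev, mul_assoc, inv_mul_cancel_left, mul_smul, h4,
          ← h2, inv_smul_smul])
      rw [div_eq_mul_inv, inv_inv, mul_inv_rev, mul_assoc, inv_mul_cancel_left,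
        inv_mul_eq_one] at h5
      exact h5.symm
    · exact ⟨1, fun x h1 h2 => absurd ⟨x, h1, h2⟩ h⟩
  choose x0 hx0 using hch
  refine ⟨T.image x0, Finset.card_image_le, fun x hx hx' => ?_⟩
  obtain ⟨y, hy, h1⟩ := mem_iUnion₂.1 (hT hx)
  exact Finset.mem_image.2 ⟨y, hy, (hx0 y x h1 hx').symm⟩

variable [TopologicalSpace B] [T2Space B] [MeasurableSpace B] [BorelSpace B] [ContinuousSMul G B]

/-- Bowen balls, for a closed condition that bounds the dilated matrices. -/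
theorem ExpData.bowA_le (D : ExpData G n) {w : Fin n → ℝ} {u : Submodule ℝ (Mat n)}
    (h : NilSub w u) (hu : u ≤ D.g) (m : Measure B) [IsFiniteMeasure m]
    (hm : ∀ g : G, MeasurePreserving (fun b => g • b) m m) {Q : Set B} {W : Set G}
    (hW : W ∈ 𝓝 (1 : G)) (hfree : ∀ b ∈ Q, ∀ g ∈ W, g • b = b → g = 1) {U : Set G}
    (hU : IsCompact U) (R : ℝ) :
    ∃ C : ℝ, 0 < C ∧ ∀ t : ℝ, ∀ b ∈ Q, m {b2 | ∃ g ∈ U, b2 = g • b ∧
      ‖dl w t (D.ρ g)‖ ≤ R ∧ ‖dl w t (D.ρ g⁻¹)‖ ≤ R} ≤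
      ENNReal.ofReal (C * Real.exp (-(t * h.ent))) := by
  let _ : MeasurableSpace u := borel u
  have : BorelSpace u := ⟨rfl⟩
  have := locallyCompact_sub u
  have := sigmaCompact_sub u
  have := secondCountable_sub u
  set ν : Measure u := Measure.addHaar with hν
  obtain ⟨U0, hU0, hU00⟩ := exists_compact_mem_nhds (0 : u)
  have hex : Continuous fun X : u => D.ex X.1 :=
    D.ex_cont.comp_continuous continuous_subtype_val fun X => hu X.2
  set Q' : Set G := (fun p : u × G => D.ex p.1.1 * p.2) '' (U0 ×ˢ U) with hQ'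
  have hQ'c : IsCompact Q' := (hU0.prod hU).image ((hex.comp continuous_fst).mul continuous_snd)
  obtain ⟨M, hM⟩ := card_move hQ'c hW hfree
  set S0 : Set u := {Z : u | ‖exp Z.1‖ ≤ R * R} with hS0
  have hS0c : IsCompact S0 := h.isCompact_exp_le _
  have hUpos : ν U0 ≠ 0 := (Measure.measure_pos_of_mem_nhds ν hU00).ne'
  refine ⟨((M * m univ) * ν S0 / ν U0).toReal + 1, by positivity, fun t b hb => ?_⟩
  set E : Set G := {g ∈ U | ‖dl w t (D.ρ g)‖ ≤ R ∧ ‖dl w t (D.ρ g⁻¹)‖ ≤ R} with hE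
  have hdl : Continuous fun X : Mat n => dl w t X := continuous_dl.comp (Continuous.prodMk_right t)
  have hEc : IsCompact E := by
    refine hU.inter_right (IsClosed.inter ?_ ?_)
    · exact isClosed_le (hdl.comp D.cont).norm continuous_const
    · exact isClosed_le (hdl.comp (D.cont.comp continuous_inv)).norm continuous_const
  set A : Set B := (fun g : G => g • b) '' E with hA
  have hAc : IsClosed A := (hEc.image (continuous_id.smul continuous_const)).isClosed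
  have hAe : {b2 | ∃ g ∈ U, b2 = g • b ∧ ‖dl w t (D.ρ g)‖ ≤ R ∧ ‖dl w t (D.ρ g⁻¹)‖ ≤ R} = A := by
    ext b2
    constructor
    · rintro ⟨g, h1, h2, h3⟩
      exact ⟨g, ⟨h1, h3⟩, h2.symm⟩
    · rintro ⟨g, ⟨h1, h3⟩, h2⟩
      exact ⟨g, h1, h2.symm, h3⟩
  rw [hAe]
  set S : Set (u × B) := {p | p.1 ∈ U0 ∧ (D.ex p.1.1)⁻¹ • p.2 ∈ A} with hS
  have hSm : MeasurableSet S := by
    refine IsClosed.measurableSet (IsClosed.inter (hU0.isClosed.preimage continuous_fst) ?_)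
    exact hAc.preimage ((hex.comp continuous_fst).inv.smul continuous_snd)
  have h1 : (ν.prod m) S = m A * ν U0 := by
    rw [Measure.prod_apply hSm, ← lintegral_indicator_const hU0.measurableSet]
    refine lintegral_congr fun X => ?_
    by_cases hX : X ∈ U0
    · rw [indicator_of_mem hX,
        ← (hm (D.ex X.1)⁻¹).measure_preimage hAc.measurableSet.nullMeasurableSet]
      congr 1
      ext g
      simp [hS, hX]
    · rw [indicator_of_notMem hX]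
      have : Prod.mk X ⁻¹' S = ∅ := by
        ext g
        simp [hS, hX]
      rw [this, measure_empty]
  have h2 : (ν.prod m) S ≤ ENNReal.ofReal (Real.exp (-(t * h.ent))) * ν S0 * (M * m univ) := by
    rw [Measure.prod_apply_symm hSm, ← mul_assoc, ← lintegral_const]
    refine lintegral_mono fun b2 => ?_
    obtain ⟨F, hF, hF'⟩ := hM b hb b2
    have h3 : (fun X => (X, b2)) ⁻¹' S ⊆ ⋃ x ∈ F, {X : u |
        ‖dl w t (D.ρ ((D.ex X.1)⁻¹ * x))‖ ≤ R ∧ ‖dl w t (D.ρ ((D.ex X.1)⁻¹ * x)⁻¹)‖ ≤ R} := by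
      rintro X ⟨hX, g, hg, hg'⟩
      refine mem_biUnion (hF' (D.ex X.1 * g) ⟨(X, g), ⟨hX, hg.1⟩, rfl⟩ ?_) ?_
      · rw [mul_smul]
        exact (inv_smul_eq_iff.1 hg'.symm).symm
      · simp only [mem_ofPred_eq, inv_mul_cancel_left]
        exact hg.2
    refine (measure_mono h3).trans ((measure_biUnion_finset_le _ _).trans ?_)
    refine (Finset.sum_le_sum fun x _ => D.fib_le h hu ν R t x).trans ?_
    rw [Finset.sum_const, nsmul_eq_mul, mul_comm]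
    exact mul_le_mul_right (by exact_mod_cast hF) _
  rw [h1] at h2
  exact div_bound hUpos hU0.measure_lt_top.ne hS0c.measure_lt_top.ne
    (ENNReal.mul_ne_top (ENNReal.natCast_ne_top M) (measure_ne_top _ _)) h2

theorem ExpData.bowA_ex_le (D : ExpData G n) {w : Fin n → ℝ} {u : Submodule ℝ (Mat n)}
    (h : NilSub w u) (hu : u ≤ D.g) (m : Measure B) [IsFiniteMeasure m]
    (hm : ∀ g : G, MeasurePreserving (fun b => g • b) m m) {Q : Set B} {W : Set G}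
    (hW : W ∈ 𝓝 (1 : G)) (hfree : ∀ b ∈ Q, ∀ g ∈ W, g • b = b → g = 1) (r : ℝ) :
    ∃ C : ℝ, 0 < C ∧ ∀ t : ℝ, ∀ b ∈ Q, m {b2 | ∃ Y ∈ D.g, b2 = D.ex Y • b ∧
      ‖Y‖ ≤ r ∧ ‖dl w t Y‖ ≤ r} ≤ ENNReal.ofReal (C * Real.exp (-(t * h.ent))) := by
  have hc : IsCompact {Y | Y ∈ D.g ∧ ‖Y‖ ≤ r} :=
    (isCompact_norm_le r).inter_left D.g.closed_of_finiteDimensional
  have hQ : IsCompact (D.ex '' {Y | Y ∈ D.g ∧ ‖Y‖ ≤ r}) :=
    hc.image_of_continuousOn (D.ex_cont.mono fun Y hY => hY.1)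
  obtain ⟨R, hR⟩ := ((isCompact_norm_le (ι := Fin n) r).image
    (contDiff_exp (n := 0)).continuous).isBounded.exists_norm_le
  obtain ⟨C, hC, hb⟩ := D.bowA_le h hu m hm hW hfree hQ R
  refine ⟨C, hC, fun t b hb' => le_trans (measure_mono ?_) (hb t b hb')⟩
  rintro _ ⟨Y, hY, rfl, h1, h2⟩
  refine ⟨_, ⟨Y, ⟨hY, h1⟩, rfl⟩, rfl, ?_, ?_⟩
  · rw [D.ρ_ex _ hY, dl_exp]
    exact hR _ ⟨_, h2, rfl⟩
  · rw [D.ρ_ex_inv' hY, dl_exp]
    exact hR _ ⟨_, by simpa using h2, rfl⟩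

omit [IsTopologicalGroup G] in
theorem Std.Ad_a_pow (D : Std G n k) (s : Euc k) (N : ℕ) (X : Mat n) :
    D.Ad (D.a s ^ N) X = dl (D.wOf s) N X := by
  induction N with
  | zero => simp [ExpData.Ad_apply, dl_zero]
  | succ N ih =>
    have h1 := D.Ad_a_eq_dl s 1 (D.Ad (D.a s ^ N) X)
    rw [one_smul, ExpData.Ad_apply, ExpData.Ad_apply] at h1
    rw [Nat.cast_succ, add_comm (N : ℝ), dl_add, ← ih, pow_succ', ExpData.Ad_apply,
      ExpData.Ad_apply, ← h1, mul_inv_rev, map_mul, map_mul]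
    simp only [mul_assoc]

/-- Bowen balls of any radius. -/
theorem Std.bow_base_all (D : Std G n k) (s : Euc k) (m : Measure B) [IsFiniteMeasure m]
    (hm : ∀ g : G, MeasurePreserving (fun b => g • b) m m) {Q : Set B} {W : Set G}
    (hW : W ∈ 𝓝 (1 : G)) (hfree : ∀ b ∈ Q, ∀ g ∈ W, g • b = b → g = 1) (r : ℝ) :
    ∃ C : ℝ, 0 < C ∧ ∀ N : ℕ, ∀ b ∈ Q, m {b2 | ∃ Y ∈ D.g, b2 = D.ex Y • b ∧
      ‖Y‖ ≤ r ∧ ‖D.Ad (D.a s ^ N) Y‖ ≤ r} ≤
      ENNReal.ofReal (C * Real.exp (-(N * (D.nilSub_np s).ent))) := by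
  obtain ⟨C, hC, h⟩ := D.toExpData.bowA_ex_le (D.nilSub_np s) inf_le_left m hm hW hfree r
  refine ⟨C, hC, fun N b hb => ?_⟩
  simp only [Std.Ad_a_pow]
  exact h N b hb

theorem Std.bow_base (D : Std G n k) (s : Euc k) (m : Measure B) [IsFiniteMeasure m]
    (hm : ∀ g : G, MeasurePreserving (fun b => g • b) m m) {Q : Set B} {W : Set G}
    (hW : W ∈ 𝓝 (1 : G)) (hfree : ∀ b ∈ Q, ∀ g ∈ W, g • b = b → g = 1) :
    ∃ r : ℝ, 0 < r ∧ ∃ C : ℝ, 0 < C ∧ ∀ N : ℕ, ∀ b ∈ Q, m {b2 | ∃ Y ∈ D.g, b2 = D.ex Y • b ∧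
      ‖Y‖ ≤ r ∧ ‖D.Ad (D.a s ^ N) Y‖ ≤ r} ≤
      ENNReal.ofReal (C * Real.exp (-(N * (D.nilSub_np s).ent))) :=
  ⟨1, one_pos, D.bow_base_all s m hm hW hfree 1⟩

end Pool.Agent.P.MP_d483fb_an.Z
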