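import Pool.Agent.P.MP_d483fb_an.Z.HP.Bow
import Pool.Agent.P.MP_d483fb_an.Z.Su.Base

/-!
Measure of Bowen balls in the quotient by a lattice.
-/

open scoped Matrix Matrix.Norms.Operator InnerProductSpace RealInnerProductSpace Topology ENNReal
open NormedSpace Filter Set MeasureTheory

set_option linter.unusedSectionVars false

noncomputable section

namespace Pool.Agent.P.MP_d483fb_an.Z

open Pool.Agent.P.MP_d483fb_an.Z.NE

variable {G : Type} [Group G] [TopologicalSpace G] [IsTopologicalGroup G] [T2Space G]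
  [MeasurableSpace G] [BorelSpace G] {n k : ℕ}

/-- Uniform bound for the number of elements of a compact set that move `b` to `b2`. -/
theorem Lat.card_move (L : Lat G) {Q' : Set G} (hQ' : IsCompact Q') {Q : Set L.B}
    (hQ : IsCompact Q) : ∃ M : ℕ, ∀ b ∈ Q, ∀ b2 : L.B, ∃ F : Finset G, F.card ≤ M ∧
      ∀ x ∈ Q', x • b = b2 → x ∈ F := by
  classical
  obtain ⟨R, hR⟩ := (hQ'.image L.cont).bddAbove
  obtain ⟨H, hH⟩ := (hQ.image L.continuous_ht).bddAbove
  refine ⟨(L.fin (H + (R + R) + H)).toFinset.card, fun b hb b2 => ?_⟩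
  by_cases h0 : ∃ x ∈ Q', x • b = b2
  · obtain ⟨x0, hx0, hx0'⟩ := h0
    refine ⟨(L.fin (H + (R + R) + H)).toFinset.image fun γ : L.Γ =>
      x0 * L.sec b * γ * (L.sec b)⁻¹, Finset.card_image_le, fun x hx hx' => ?_⟩
    have h1 : (L.sec b)⁻¹ * (x0⁻¹ * x) * L.sec b ∈ L.Γ := by
      rw [← L.smul_o_eq, mul_smul, mul_smul, L.sec_smul_o, mul_smul, hx', ← hx0', inv_smul_smul,
        inv_smul_eq_iff, L.sec_smul_o]
    refine Finset.mem_image.2 ⟨⟨_, h1⟩, ?_, by group⟩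
    rw [Finite.mem_toFinset]
    have h2 := L.mul3 (L.sec b)⁻¹ (x0⁻¹ * x) (L.sec b)
    have h3 := L.mul x0⁻¹ x
    rw [L.inv] at h2 h3
    have h4 : L.len (L.sec b) ≤ H := by
      rw [L.len_sec]
      exact hH ⟨b, hb, rfl⟩
    have h5 : L.len x0 ≤ R := hR ⟨x0, hx0, rfl⟩
    have h6 : L.len x ≤ R := hR ⟨x, hx, rfl⟩
    show L.len _ ≤ _
    linarith
  · exact ⟨∅, by simp, fun x hx hx' => absurd ⟨x, hx, hx'⟩ h0⟩

/-- Bowen balls in the base, for a closed condition that bounds the dilated matrices. -/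
theorem ExpData.bowB_le (D : ExpData G n) {w : Fin n → ℝ} {u : Submodule ℝ (Mat n)}
    (h : NilSub w u) (hu : u ≤ D.g) (L : Lat G) (m : Measure L.B) [IsFiniteMeasure m]
    (hm : ∀ g : G, MeasurePreserving (g • ·) m m) {U : Set G} (hU : IsCompact U) (R : ℝ)
    {Q : Set L.B} (hQ : IsCompact Q) :
    ∃ C : ℝ, 0 < C ∧ ∀ t : ℝ, ∀ b ∈ Q, m {b2 | ∃ g ∈ U, b2 = g • b ∧
      ‖dl w t (D.ρ g)‖ ≤ R ∧ ‖dl w t (D.ρ g⁻¹)‖ ≤ R} ≤
      ENNReal.ofReal (C * Real.exp (-(t * h.ent))) := by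
  let _ : MeasurableSpace u := borel u
  have : BorelSpace u := ⟨rfl⟩
  have := locallyCompact_sub u
  have := sigmaCompact_sub u
  have := secondCountable_sub u
  set ν : Measure u := Measure.addHaar with hν
  obtain ⟨U0, hU0, hU00⟩ := exists_compact_mem_nhds (0 : u)
  have hex : Continuous fun X : u => D.ex X.1 :=
    D.ex_cont.comp_continuous continuous_subtype_val fun X => hu X.2
  set Q' : Set G := (fun p : u × G => D.ex p.1.1 * p.2) '' (U0 ×ˢ U) with hQ'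
  have hQ'c : IsCompact Q' := (hU0.prod hU).image ((hex.comp continuous_fst).mul continuous_snd)
  obtain ⟨M, hM⟩ := L.card_move hQ'c hQ
  set S0 : Set u := {Z : u | ‖exp Z.1‖ ≤ R * R} with hS0
  have hS0c : IsCompact S0 := h.isCompact_exp_le _
  have hUpos : ν U0 ≠ 0 := (Measure.measure_pos_of_mem_nhds ν hU00).ne'
  refine ⟨((M * m univ) * ν S0 / ν U0).toReal + 1, by positivity, fun t b hb => ?_⟩
  set E : Set G := {g ∈ U | ‖dl w t (D.ρ g)‖ ≤ R ∧ ‖dl w t (D.ρ g⁻¹)‖ ≤ R} with hE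
  have hdl : Continuous fun X : Mat n => dl w t X := continuous_dl.comp (Continuous.prodMk_right t)
  have hEc : IsCompact E := by
    refine hU.inter_right (IsClosed.inter ?_ ?_)
    · exact isClosed_le (hdl.comp D.cont).norm continuous_const
    · exact isClosed_le (hdl.comp (D.cont.comp continuous_inv)).norm continuous_const
  set B : Set L.B := (fun g : G => g • b) '' E with hB
  have hBc : IsClosed B := (hEc.image (continuous_id.smul continuous_const)).isClosed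
  have hBe : {b2 | ∃ g ∈ U, b2 = g • b ∧ ‖dl w t (D.ρ g)‖ ≤ R ∧ ‖dl w t (D.ρ g⁻¹)‖ ≤ R} = B := by
    ext b2
    constructor
    · rintro ⟨g, h1, h2, h3⟩
      exact ⟨g, ⟨h1, h3⟩, h2.symm⟩
    · rintro ⟨g, ⟨h1, h3⟩, h2⟩
      exact ⟨g, h1, h2.symm, h3⟩
  rw [hBe]
  set S : Set (u × L.B) := {p | p.1 ∈ U0 ∧ (D.ex p.1.1)⁻¹ • p.2 ∈ B} with hS
  have hSm : MeasurableSet S := by
    refine IsClosed.measurableSet (IsClosed.inter (hU0.isClosed.preimage continuous_fst) ?_)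
    exact hBc.preimage ((hex.comp continuous_fst).inv.smul continuous_snd)
  have h1 : (ν.prod m) S = m B * ν U0 := by
    rw [Measure.prod_apply hSm, ← lintegral_indicator_const hU0.measurableSet]
    refine lintegral_congr fun X => ?_
    by_cases hX : X ∈ U0
    · rw [indicator_of_mem hX,
        ← (hm (D.ex X.1)⁻¹).measure_preimage hBc.measurableSet.nullMeasurableSet]
      congr 1
      ext g
      simp [hS, hX]
    · rw [indicator_of_notMem hX]
      have : Prod.mk X ⁻¹' S = ∅ := by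
        ext g
        simp [hS, hX]
      rw [this, measure_empty]
  have h2 : (ν.prod m) S ≤ ENNReal.ofReal (Real.exp (-(t * h.ent))) * ν S0 * (M * m univ) := by
    rw [Measure.prod_apply_symm hSm, ← mul_assoc, ← lintegral_const]
    refine lintegral_mono fun b2 => ?_
    obtain ⟨F, hF, hF'⟩ := hM b hb b2
    have h3 : (fun X => (X, b2)) ⁻¹' S ⊆ ⋃ x ∈ F, {X : u |
        ‖dl w t (D.ρ ((D.ex X.1)⁻¹ * x))‖ ≤ R ∧ ‖dl w t (D.ρ ((D.ex X.1)⁻¹ * x)⁻¹)‖ ≤ R} := by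
      rintro X ⟨hX, g, hg, hg'⟩
      refine mem_biUnion (hF' (D.ex X.1 * g) ⟨(X, g), ⟨hX, hg.1⟩, rfl⟩ ?_) ?_
      · rw [mul_smul]
        exact (inv_smul_eq_iff.1 hg'.symm).symm
      · simp only [mem_ofPred_eq, inv_mul_cancel_left]
        exact hg.2
    refine (measure_mono h3).trans ((measure_biUnion_finset_le _ _).trans ?_)
    refine (Finset.sum_le_sum fun x _ => D.fib_le h hu ν R t x).trans ?_
    rw [Finset.sum_const, nsmul_eq_mul, mul_comm]
    exact mul_le_mul_right (by exact_mod_cast hF) _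
  rw [h1] at h2
  exact div_bound hUpos hU0.measure_lt_top.ne hS0c.measure_lt_top.ne
    (ENNReal.mul_ne_top (ENNReal.natCast_ne_top M) (measure_ne_top _ _)) h2

/-- Bowen balls in the base: any compact set `U`, any real time. -/
theorem Std.bowB_real (D : Std G n k) (s : Euc k) (L : Lat G) (m : Measure L.B)
    [IsFiniteMeasure m] (hm : ∀ g : G, MeasurePreserving (g • ·) m m) {U : Set G}
    (hU : IsCompact U) {Q : Set L.B} (hQ : IsCompact Q) :
    ∃ C : ℝ, 0 < C ∧ ∀ t : ℝ, ∀ b ∈ Q, m {b2 | ∃ g ∈ U, b2 = g • b ∧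
      D.a (t • s) * g * (D.a (t • s))⁻¹ ∈ U} ≤ ENNReal.ofReal (C * Real.exp (-(t * D.hU s))) := by
  obtain ⟨R, hR⟩ := ((hU.union hU.inv).image D.cont).isBounded.exists_norm_le
  obtain ⟨C, hC, hb⟩ := D.toExpData.bowB_le (D.nilSub_np s) inf_le_left L m hm hU R hQ
  refine ⟨C, hC, fun t b hb' => le_trans (measure_mono ?_) (hb t b hb')⟩
  rintro b2 ⟨g, h1, h2, h3⟩
  refine ⟨g, h1, h2, ?_, ?_⟩
  · rw [← D.ρ_conj_a]
    exact hR _ ⟨_, Or.inl h3, rfl⟩
  · rw [← D.ρ_conj_a]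
    refine hR _ ⟨_, Or.inr ?_, rfl⟩
    rw [Set.mem_inv]
    simpa [mul_assoc] using h3

/-- Bowen balls in the base: any compact set `U`, integer times. -/
theorem Std.bowB_nat (D : Std G n k) (s : Euc k) (L : Lat G) (m : Measure L.B)
    [IsFiniteMeasure m] (hm : ∀ g : G, MeasurePreserving (g • ·) m m) {U : Set G}
    (hU : IsCompact U) {Q : Set L.B} (hQ : IsCompact Q) :
    ∃ C : ℝ, 0 < C ∧ ∀ N : ℕ, ∀ b ∈ Q, m {b2 | ∃ g ∈ U, b2 = g • b ∧
      D.a (N • s) * g * (D.a (N • s))⁻¹ ∈ U} ≤ ENNReal.ofReal (C * Real.exp (-(N * D.hU s))) := by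
  obtain ⟨C, hC, hb⟩ := D.bowB_real s L m hm hU hQ
  refine ⟨C, hC, fun N b hb' => ?_⟩
  have := hb N b hb'
  rwa [Nat.cast_smul_eq_nsmul] at this

theorem Std.bowB (D : Std G n k) (s : Euc k) (L : Lat G) (m : Measure L.B)
    [IsFiniteMeasure m] (hm : ∀ g : G, MeasurePreserving (g • ·) m m) :
    ∃ U ∈ 𝓝 (1 : G), ∀ Q : Set L.B, IsCompact Q → ∃ C : ℝ, ∀ N : ℕ, ∀ b ∈ Q,
      m {b2 | ∃ g ∈ U, b2 = g • b ∧ D.a (N • s) * g * (D.a (N • s))⁻¹ ∈ U} ≤
        ENNReal.ofReal (C * Real.exp (-(N * (D.nilSub_np s).ent))) := by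
  have := L.locallyCompact
  obtain ⟨U, hU, hU1⟩ := exists_compact_mem_nhds (1 : G)
  refine ⟨U, hU1, fun Q hQ => ?_⟩
  obtain ⟨C, -, hb⟩ := D.bowB_nat s L m hm hU hQ
  exact ⟨C, hb⟩

end Pool.Agent.P.MP_d483fb_an.Z
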