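import Pool.Agent.P.MP_d483fb_an.Z.HP.Bow

/-!
Measurable partitions of a locally compact group into small cells of bounded multiplicity.
-/

open scoped Matrix Matrix.Norms.Operator Topology ENNReal Pointwise
open NormedSpace Filter Set MeasureTheory

set_option linter.unusedSectionVars false

noncomputable section

namespace Pool.Agent.P.MP_d483fb_an.Z

/-- Counting by measure: sets of measure at least `v` inside `S` with multiplicity at most `M`. -/
theorem count_le {X κ : Type} [MeasurableSpace X] (ν : Measure X) (I : Set κ) (A : κ → Set X)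
    (hA : ∀ c ∈ I, MeasurableSet (A c)) {v : ℝ≥0∞} (hv : ∀ c ∈ I, v ≤ ν (A c)) {S : Set X}
    (hS : MeasurableSet S) (hAS : ∀ c ∈ I, A c ⊆ S) {M : ℕ}
    (hM : ∀ x, {c ∈ I | x ∈ A c}.encard ≤ M) (T : Finset κ) (hT : (T : Set κ) ⊆ I) :
    T.card * v ≤ M * ν S := by
  classical
  calc (T.card : ℝ≥0∞) * v = ∑ _c ∈ T, v := by rw [Finset.sum_const, nsmul_eq_mul]
    _ ≤ ∑ c ∈ T, ∫⁻ x, (A c).indicator 1 x ∂ν := Finset.sum_le_sum fun c hc => by
        rw [lintegral_indicator_one (hA c (hT hc))]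
        exact hv c (hT hc)
    _ = ∫⁻ x, ∑ c ∈ T, (A c).indicator 1 x ∂ν :=
        (lintegral_finsetSum _ fun c hc => measurable_one.indicator (hA c (hT hc))).symm
    _ ≤ ∫⁻ x, S.indicator (fun _ => (M : ℝ≥0∞)) x ∂ν := by
        refine lintegral_mono fun x => ?_
        simp only [indicator_apply, Pi.one_apply, Finset.sum_boole]
        split_ifs with hx
        · have h1 : ((T.filter fun c => x ∈ A c : Finset κ) : Set κ) ⊆ {c ∈ I | x ∈ A c} := by
            intro c hc
            simp only [Finset.coe_filter, mem_ofPred_eq] at hc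
            exact ⟨hT hc.1, hc.2⟩
          have h2 := (encard_le_encard h1).trans (hM x)
          rw [encard_coe_eq_coe_finsetCard] at h2
          exact_mod_cast h2
        · have : T.filter (fun c => x ∈ A c) = ∅ :=
            Finset.filter_eq_empty_iff.2 fun c hc hxc => hx (hAS c (hT hc) hxc)
          simp [this]
    _ = M * ν S := lintegral_indicator_const hS _

theorem encard_le_of_finset {κ : Type} {I : Set κ} {C : ℕ}
    (h : ∀ T : Finset κ, (T : Set κ) ⊆ I → T.card ≤ C) : I.encard ≤ C := by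
  by_contra hcon
  obtain ⟨T, hT, hc⟩ := exists_subset_encard_eq (Order.add_one_le_of_lt (not_le.1 hcon))
  have hfin : T.Finite := finite_of_encard_eq_coe (k := C + 1) (by simpa using hc)
  have := h hfin.toFinset (by simpa using hT)
  rw [hfin.encard_eq_coe_toFinset_card] at hc
  have h2 : hfin.toFinset.card = C + 1 := by exact_mod_cast hc
  omega

theorem exists_cell_group {H : Type} [Group H] [TopologicalSpace H] [IsTopologicalGroup H]
    [T2Space H] [LocallyCompactSpace H] [SecondCountableTopology H] [MeasurableSpace H]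
    [BorelSpace H] {U : Set H} (hU : U ∈ 𝓝 (1 : H)) :
    ∃ cell : H → ℕ, Measurable cell ∧ (∀ x y, cell x = cell y → x⁻¹ * y ∈ U) ∧
      ∀ S : Set H, IsCompact S → ∃ C : ℕ, ∀ x, (cell '' ((x * ·) '' S)).encard ≤ C := by
  classical
  obtain ⟨W1, hW1, hW1U⟩ := exists_nhds_split_inv hU
  obtain ⟨W2, hW2, hW2s, hW2c⟩ := local_compact_nhds (inter_mem (inv_mem_nhds_one H hW1)
    (inv_mem_nhds_one H hW1))
  set W : Set H := W2 ∩ W2⁻¹ with hW
  have hWc : IsCompact W := hW2c.inter_right hW2c.inv.isClosed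
  have hWn : W ∈ 𝓝 (1 : H) := inter_mem hW2 (inv_mem_nhds_one H hW2)
  have hWs : ∀ x ∈ W, x⁻¹ ∈ W := fun x hx => ⟨hx.2, by simpa using hx.1⟩
  have hWU : ∀ x ∈ W, ∀ y ∈ W, x⁻¹ * y ∈ U := fun x hx y hy => by
    have := hW1U x⁻¹ (hW2s hx.1).1 y⁻¹ (hW2s hy.1).1
    simpa using this
  obtain ⟨V1, hV1, hV1W⟩ := exists_nhds_split_inv hWn
  obtain ⟨V, hVs, hVo, hV⟩ := mem_nhds_iff.1 (inter_mem hV1 hWn)
  obtain ⟨P, hP⟩ := zorn_subset {P : Set H | P.Pairwise fun p q => p⁻¹ * q ∉ W}
    fun c hc hch => ⟨⋃₀ c, fun p ⟨s, hs, hp⟩ q ⟨s', hs', hq⟩ hne => by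
      rcases hch.total hs hs' with h | h
      · exact hc hs' (h hp) hq hne
      · exact hc hs hp (h hq) hne, fun s hs => subset_sUnion_of_mem hs⟩
  have hcov : ∀ x, ∃ p ∈ P, p⁻¹ * x ∈ W := by
    intro x
    by_contra hcon
    push Not at hcon
    have h1 : (insert x P).Pairwise fun p q => p⁻¹ * q ∉ W := by
      refine hP.prop.insert fun p hp _ => ⟨fun h => hcon p hp ?_, hcon p hp⟩
      simpa using hWs _ h
    have h2 : x ∈ P := hP.le_of_ge h1 (subset_insert x P) (mem_insert x P)
    exact hcon x h2 (by simpa using mem_of_mem_nhds hWn)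
  have hdis : ∀ p ∈ P, ∀ q ∈ P, ∀ z, p⁻¹ * z ∈ V → q⁻¹ * z ∈ V → p = q := by
    intro p hp q hq z h1 h2
    by_contra hne
    refine hP.prop hp hq hne ?_
    have := hV1W _ (hVs h1).1 _ (hVs h2).1
    simpa [div_eq_mul_inv, mul_assoc] using this
  have hopen : ∀ p : H, IsOpen {z | p⁻¹ * z ∈ V} := fun p =>
    hVo.preimage (continuous_const.mul continuous_id)
  have hcount : P.Countable := by
    refine Set.PairwiseDisjoint.countable_of_isOpen (s := fun p => {z | p⁻¹ * z ∈ V}) ?_
      (fun p _ => hopen p) fun p _ => ⟨p, by simpa using hV⟩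
    intro p hp q hq hne
    exact Set.disjoint_left.2 fun z h1 h2 => hne (hdis p hp q hq z h1 h2)
  obtain ⟨q, hq⟩ := hcount.exists_eq_range (by obtain ⟨p, hp, -⟩ := hcov 1; exact ⟨p, hp⟩)
  have hex : ∀ x, ∃ j, (q j)⁻¹ * x ∈ W := by
    intro x
    obtain ⟨p, hp, h⟩ := hcov x
    rw [hq] at hp
    obtain ⟨j, rfl⟩ := hp
    exact ⟨j, h⟩
  have hqP : ∀ j, q j ∈ P := fun j => hq ▸ mem_range_self j
  refine ⟨fun x => Nat.find (hex x), measurable_find hex fun j =>
    (hWc.isClosed.preimage (continuous_const.mul continuous_id)).measurableSet, ?_, ?_⟩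
  · intro x y hxy
    have h1 := Nat.find_spec (hex x)
    have h2 := Nat.find_spec (hex y)
    have hxy' : Nat.find (hex x) = Nat.find (hex y) := hxy
    rw [← hxy'] at h2
    simpa [mul_assoc] using hWU _ h1 _ h2
  · intro S hS
    set μ : Measure H := Measure.haar with hμ
    have hS' : IsCompact (S * W * W) := (hS.mul hWc).mul hWc
    have hV0 : μ V ≠ 0 := (hVo.measure_pos μ ⟨1, hV⟩).ne'
    have hVt : μ V ≠ ∞ := ((measure_mono fun z hz => (hVs hz).2).trans_lt
      (hWc.measure_lt_top (μ := μ))).ne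
    obtain ⟨C, hC⟩ := ENNReal.exists_nat_gt (ENNReal.div_ne_top (hS'.measure_lt_top (μ := μ)).ne hV0)
    refine ⟨C, fun x => encard_le_of_finset fun T hT => ?_⟩
    have h1 := count_le μ ((fun y => Nat.find (hex y)) '' ((x * ·) '' S))
      (fun j => {z | (q j)⁻¹ * z ∈ V}) (fun j _ => (hopen _).measurableSet) (v := μ V)
      (fun j _ => (measure_preimage_mul μ _ V).ge) (S := {z | x⁻¹ * z ∈ S * W * W})
      (hS'.isClosed.preimage (continuous_const.mul continuous_id)).measurableSet ?_ (M := 1) ?_ T hT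
    · have h2 : μ {z | x⁻¹ * z ∈ S * W * W} = μ (S * W * W) := measure_preimage_mul μ _ _
      rw [h2, Nat.cast_one, one_mul, ← ENNReal.le_div_iff_mul_le (Or.inl hV0) (Or.inl hVt)] at h1
      exact_mod_cast (h1.trans hC.le)
    · rintro _ ⟨_, ⟨y, hy, rfl⟩, rfl⟩ z hz
      have h3 := mul_mem_mul (mul_mem_mul hy (hWs _ (Nat.find_spec (hex (x * y))))) (hVs hz).2
      simpa [mul_assoc] using h3
    · intro z
      refine encard_le_one_iff.2 ?_
      rintro _ _ ⟨⟨y, -, rfl⟩, h1⟩ ⟨⟨y', -, rfl⟩, h2⟩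
      have h3 := hdis _ (hqP _) _ (hqP _) z h1 h2
      refine le_antisymm (Nat.find_min' _ ?_) (Nat.find_min' _ ?_)
      · rw [← h3]
        exact Nat.find_spec (hex y)
      · rw [h3]
        exact Nat.find_spec (hex y')

namespace NE.NilSub

variable {ι : Type} [Fintype ι] [DecidableEq ι] {w : ι → ℝ} {u : Submodule ℝ (Matrix ι ι ℝ)}
  (h : NilSub w u)

/-- The group `u` with the law `star`. -/
def Gp (_h : NilSub w u) : Type := u

instance : Group h.Gp where
  mul := h.star
  one := (0 : u)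
  inv := fun X : u => -X
  mul_assoc := h.star_assoc
  one_mul := h.zero_star
  mul_one := h.star_zero
  inv_mul_cancel := h.neg_star_self

instance : TopologicalSpace h.Gp := inferInstanceAs (TopologicalSpace u)

instance : IsTopologicalGroup h.Gp where
  continuous_mul := h.continuous_star
  continuous_inv := continuous_neg (G := u)

theorem bounded_subset_compact {S : Set u} (hS : Bornology.IsBounded S) :
    ∃ S' : Set u, IsCompact S' ∧ S ⊆ S' :=
  ⟨_, hS.isCompact_closure, subset_closure⟩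

/-- Small cells of bounded multiplicity. -/
theorem exists_cell [MeasurableSpace u] [BorelSpace u] {δ : ℝ} (hδ : 0 < δ) :
    ∃ cell : u → ℕ, Measurable cell ∧ (∀ X Y, cell X = cell Y → ‖h.star (-X) Y‖ ≤ δ) ∧
      ∀ S : Set u, Bornology.IsBounded S → ∃ C : ℕ, ∀ X, (cell '' (h.star X '' S)).encard ≤ C := by
  let _ : MeasurableSpace h.Gp := inferInstanceAs (MeasurableSpace u)
  have : BorelSpace h.Gp := inferInstanceAs (BorelSpace u)
  have : T2Space h.Gp := inferInstanceAs (T2Space u)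
  have : LocallyCompactSpace h.Gp := locallyCompact_sub u
  have : SecondCountableTopology h.Gp := secondCountable_sub u
  have hU : {X : u | ‖X‖ ≤ δ} ∈ 𝓝 (0 : u) := by
    have := Metric.closedBall_mem_nhds (0 : u) hδ
    rwa [Metric.closedBall, show {y : u | dist y 0 ≤ δ} = {X | ‖X‖ ≤ δ} by simp] at this
  have hU' : {X : h.Gp | ‖(show u from X)‖ ≤ δ} ∈ 𝓝 (1 : h.Gp) := hU
  obtain ⟨cell, h1, h2, h3⟩ := exists_cell_group hU'
  refine ⟨cell, h1, h2, fun S hS => ?_⟩
  obtain ⟨S', hS', hSS'⟩ := bounded_subset_compact hS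
  obtain ⟨C, hC⟩ := h3 S' hS'
  exact ⟨C, fun X => (encard_le_encard (image_mono (image_mono hSS'))).trans (hC X)⟩

end NE.NilSub

end Pool.Agent.P.MP_d483fb_an.Z
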