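import Mathlib

/-!
Sublevel estimates for functions that are polynomial of bounded degree along lines.
-/

open MeasureTheory Set Metric Polynomial
open scoped ENNReal Pointwise

noncomputable section

namespace Pool.Agent.P.MP_d483fb_an.Z

theorem sub_prod_lower (s δ : ℝ) (hs : s ∈ Icc (1 : ℝ) 2) (hδ : 0 < δ) (hδ1 : δ ≤ 1)
    (m : Multiset ℂ) (hm : ∀ z ∈ m, δ ≤ |s - z.re|) :
    (δ / 4) ^ m.card * ‖(m.map fun z => (0 : ℂ) - z).prod‖ ≤
      ‖(m.map fun z => (s : ℂ) - z).prod‖ := by
  induction m using Multiset.induction_on with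
  | empty => simp
  | cons z m ih =>
    have ih' := ih fun w hw => hm w (Multiset.mem_cons_of_mem hw)
    have hz := hm z (Multiset.mem_cons_self z m)
    simp only [Multiset.map_cons, Multiset.prod_cons, Multiset.card_cons, norm_mul, pow_succ]
    have h1 : δ / 4 * ‖(0 : ℂ) - z‖ ≤ ‖(s : ℂ) - z‖ := by
      have h2 : δ ≤ ‖(s : ℂ) - z‖ := by
        refine hz.trans ?_
        have := Complex.abs_re_le_norm ((s : ℂ) - z)
        simpa using this
      have h3 : ‖(0 : ℂ) - z‖ ≤ ‖(s : ℂ) - z‖ + 2 := by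
        have h4 : (0 : ℂ) - z = ((s : ℂ) - z) - s := by ring
        have h5 : ‖(s : ℂ)‖ ≤ 2 := by
          rw [Complex.norm_real, Real.norm_eq_abs, abs_le]
          constructor <;> linarith [hs.1, hs.2]
        rw [h4]
        exact (norm_sub_le _ _).trans (by linarith)
      nlinarith [norm_nonneg ((0 : ℂ) - z), norm_nonneg ((s : ℂ) - z)]
    calc (δ / 4) ^ m.card * (δ / 4) * (‖(0 : ℂ) - z‖ * ‖(m.map fun z => (0 : ℂ) - z).prod‖)
        = (δ / 4 * ‖(0 : ℂ) - z‖) * ((δ / 4) ^ m.card * ‖(m.map fun z => (0 : ℂ) - z).prod‖) := by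
          ring
      _ ≤ _ := mul_le_mul h1 ih' (by positivity) (norm_nonneg _)

/-- One variable: the set where a polynomial is small compared to its value at zero. -/
theorem sub_one_dim (d : ℕ) (p : ℝ[X]) (hp : p.natDegree ≤ d) (δ : ℝ) (hδ : 0 < δ) (hδ1 : δ ≤ 1) :
    volume {s ∈ Icc (1 : ℝ) 2 | |p.eval s| < |p.eval 0| * (δ / 4) ^ d} ≤
      ENNReal.ofReal (2 * d * δ) := by
  classical
  set q : ℂ[X] := p.map (algebraMap ℝ ℂ) with hq
  have hsp : q.Splits := IsAlgClosed.splits q
  have hev : ∀ s : ℝ, ‖q.eval (s : ℂ)‖ = |p.eval s| := by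
    intro s
    have : q.eval (s : ℂ) = ((p.eval s : ℝ) : ℂ) := by
      rw [hq, Polynomial.eval_map_algebraMap]
      exact (Polynomial.aeval_algebraMap_apply ℂ s p).trans (by simp)
    rw [this, Complex.norm_real, Real.norm_eq_abs]
  have hcard : q.roots.card ≤ d := by
    refine (card_roots' q).trans ?_
    exact natDegree_map_le.trans hp
  have hsub : {s ∈ Icc (1 : ℝ) 2 | |p.eval s| < |p.eval 0| * (δ / 4) ^ d} ⊆
      ⋃ z ∈ q.roots.toFinset, ball z.re δ := by
    rintro s ⟨hs, hlt⟩
    by_contra hcon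
    simp only [mem_iUnion, Multiset.mem_toFinset, mem_ball, not_exists, not_lt] at hcon
    have h1 := sub_prod_lower s δ hs hδ hδ1 q.roots fun z hz => by
      simpa [Real.dist_eq] using hcon z hz
    have h2 : ∀ w : ℂ, ‖q.eval w‖ = ‖q.leadingCoeff‖ * ‖(q.roots.map fun z => w - z).prod‖ := by
      intro w
      rw [hsp.eval_eq_prod_roots, norm_mul]
    have h3 := hev s
    have h4 := hev 0
    rw [h2] at h3 h4
    have h5 : (δ / 4) ^ d ≤ (δ / 4) ^ q.roots.card :=
      pow_le_pow_of_le_one (by positivity) (by linarith) hcard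
    rw [← h3, ← h4] at hlt
    simp only [Complex.ofReal_zero] at hlt
    have h6 := mul_le_mul_of_nonneg_left h1 (norm_nonneg q.leadingCoeff)
    have h7 : 0 ≤ ‖q.leadingCoeff‖ * ‖(q.roots.map fun z => (0 : ℂ) - z).prod‖ := by positivity
    nlinarith [mul_le_mul_of_nonneg_left h5 h7]
  refine (measure_mono hsub).trans ((measure_biUnion_finset_le _ _).trans ?_)
  simp only [Real.volume_ball, Finset.sum_const, nsmul_eq_mul]
  rw [← ENNReal.ofReal_natCast, ← ENNReal.ofReal_mul (by positivity)]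
  refine ENNReal.ofReal_le_ofReal ?_
  have : (q.roots.toFinset.card : ℝ) ≤ d := by
    exact_mod_cast (Multiset.toFinset_card_le _).trans hcard
  nlinarith

variable {V : Type} [NormedAddCommGroup V] [NormedSpace ℝ V] [FiniteDimensional ℝ V]
  [MeasurableSpace V] [BorelSpace V]

/-- Sublevel estimate around a point `x0`, uniform in the function. -/
theorem sublevel_ball (μ : Measure V) [μ.IsAddHaarMeasure] (d : ℕ) (f : V → ℝ) (hf : Measurable f)
    (x0 : V) (hpoly : ∀ v, ∃ p : ℝ[X], p.natDegree ≤ d ∧ ∀ s : ℝ, f (x0 + s • v) = p.eval s)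
    (R δ : ℝ) (hδ : 0 < δ) (hδ1 : δ ≤ 1) :
    μ {x ∈ ball x0 R | |f x| < |f x0| * (δ / 4) ^ d} ≤
      2 ^ Module.finrank ℝ V * μ (ball x0 R) * ENNReal.ofReal (2 * d * δ) := by
  set t := |f x0| * (δ / 4) ^ d with ht
  set E : Set V := {x | |f x| < t} with hE
  have hEm : MeasurableSet E := measurableSet_lt (by fun_prop) measurable_const
  set S : Set (ℝ × V) := {z | z.1 ∈ Icc (1 : ℝ) 2 ∧ z.2 ∈ ball (0 : V) R ∧ x0 + z.1 • z.2 ∈ E}
    with hS
  have hSm : MeasurableSet S := by
    refine (measurable_fst measurableSet_Icc).inter ((measurable_snd measurableSet_ball).inter ?_)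
    exact (by fun_prop : Measurable fun z : ℝ × V => x0 + z.1 • z.2) hEm
  have hball : μ (ball (0 : V) R) = μ (ball x0 R) := (μ.addHaar_ball_center x0 R).symm
  have h1 : (volume.prod μ) S ≤ μ (ball x0 R) * ENNReal.ofReal (2 * d * δ) := by
    rw [Measure.prod_apply_symm hSm, ← hball, mul_comm, ← lintegral_indicator_const
      measurableSet_ball]
    refine lintegral_mono fun v => ?_
    by_cases hv : v ∈ ball (0 : V) R
    · rw [indicator_of_mem hv]
      obtain ⟨p, hp, hev⟩ := hpoly v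
      refine le_trans (measure_mono ?_) (sub_one_dim d p hp δ hδ hδ1)
      rintro s ⟨hs, -, h⟩
      refine ⟨hs, ?_⟩
      have h0 := hev 0
      simp only [zero_smul, add_zero] at h0
      rw [← hev, ← h0]
      exact h
    · rw [indicator_of_notMem hv]
      have : (fun s : ℝ => (s, v)) ⁻¹' S = ∅ := by
        ext s
        simp only [mem_preimage, mem_empty_iff_false, iff_false]
        exact fun h => hv h.2.1
      rw [this, measure_empty]
  have h2 : μ {x ∈ ball x0 R | |f x| < t} ≤ 2 ^ Module.finrank ℝ V * (volume.prod μ) S := by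
    rw [Measure.prod_apply hSm, ← lintegral_const_mul _ (measurable_measure_prodMk_left hSm)]
    have h3 : μ {x ∈ ball x0 R | |f x| < t} =
        ∫⁻ s, (Icc (1 : ℝ) 2).indicator (fun _ => μ {x ∈ ball x0 R | |f x| < t}) s := by
      rw [lintegral_indicator_const measurableSet_Icc]
      norm_num
    rw [h3]
    refine lintegral_mono fun s => ?_
    by_cases hs : s ∈ Icc (1 : ℝ) 2
    · rw [indicator_of_mem hs]
      have hs0 : 0 < s := by linarith [hs.1]
      have h4 : {x ∈ ball x0 R | |f x| < t} ⊆ x0 +ᵥ (s • (Prod.mk s ⁻¹' S)) := by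
        rintro x ⟨hx, hx'⟩
        refine ⟨x - x0, ⟨s⁻¹ • (x - x0), ⟨hs, ?_, ?_⟩, ?_⟩, by simp⟩
        · rw [mem_ball_iff_norm] at hx
          rw [mem_ball_zero_iff, norm_smul, norm_inv, Real.norm_eq_abs, abs_of_pos hs0]
          have : s⁻¹ ≤ 1 := inv_le_one_of_one_le₀ hs.1
          nlinarith [norm_nonneg (x - x0), inv_pos.2 hs0]
        · simp only [smul_inv_smul₀ hs0.ne', add_sub_cancel]
          exact hx'
        · simp only [smul_inv_smul₀ hs0.ne']
      refine (measure_mono h4).trans ?_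
      rw [measure_vadd, Measure.addHaar_smul]
      refine mul_le_mul_left ?_ _
      rw [abs_of_pos (pow_pos hs0 _)]
      have : (2 : ℝ≥0∞) ^ Module.finrank ℝ V = ENNReal.ofReal (2 ^ Module.finrank ℝ V) := by
        rw [ENNReal.ofReal_pow (by norm_num)]
        norm_num
      rw [this]
      exact ENNReal.ofReal_le_ofReal (pow_le_pow_left₀ hs0.le hs.2 _)
    · rw [indicator_of_notMem hs]
      exact zero_le
  rw [mul_assoc]
  exact h2.trans (mul_le_mul_right h1 _)

/-- Sublevel estimate: a function that is a polynomial of degree at most `d` on the lines through a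
point where it does not vanish. -/
theorem sublevel (μ : Measure V) [μ.IsAddHaarMeasure] (d : ℕ) (f : V → ℝ) (hf : Measurable f)
    (x0 : V) (h0 : f x0 ≠ 0)
    (hpoly : ∀ v, ∃ p : ℝ[X], p.natDegree ≤ d ∧ ∀ s : ℝ, f (x0 + s • v) = p.eval s)
    {B : Set V} (hB : Bornology.IsBounded B) :
    ∃ C : ℝ, 0 < C ∧ ∀ t : ℝ, 0 < t →
      μ {x ∈ B | |f x| ≤ t} ≤ ENNReal.ofReal (C * t ^ (1 / ((d : ℝ) + 1))) := by
  obtain ⟨R, hR⟩ := hB.subset_ball x0
  have hc : 0 < |f x0| := abs_pos.2 h0
  have hfin : μ (ball x0 R) ≠ ∞ := measure_ball_lt_top.ne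
  set m := (μ (ball x0 R)).toReal with hm
  have hm0 : 0 ≤ m := ENNReal.toReal_nonneg
  set e : ℝ := 1 / ((d : ℝ) + 1) with he
  have hepos : 0 < e := by positivity
  set A : ℝ := 8 * (|f x0|⁻¹) ^ e with hA
  have hApos : 0 < A := by positivity
  refine ⟨(2 ^ Module.finrank ℝ V * (2 * d) + 1) * (m + 1) * A, by positivity, fun t ht => ?_⟩
  have hte : 0 < t ^ e := by positivity
  by_cases hδ1 : A * t ^ e ≤ 1
  · have h1' := sublevel_ball μ d f hf x0 hpoly R _ (mul_pos hApos hte) hδ1
    have h2 : t < |f x0| * (A * t ^ e / 4) ^ d := by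
      have h3 : (A * t ^ e / 8) ^ (d + 1) = |f x0|⁻¹ * t := by
        have : A * t ^ e / 8 = (|f x0|⁻¹ * t) ^ e := by
          rw [Real.mul_rpow (by positivity) ht.le, hA]
          ring
        rw [this, ← Real.rpow_natCast, ← Real.rpow_mul (by positivity), he]
        push_cast
        rw [one_div_mul_cancel (by positivity), Real.rpow_one]
      have h4 : (A * t ^ e / 8) ^ (d + 1) < (A * t ^ e / 4) ^ d := by
        rw [pow_succ]
        have h5 : (A * t ^ e / 8) ^ d ≤ (A * t ^ e / 4) ^ d :=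
          pow_le_pow_left₀ (by positivity) (by nlinarith [mul_pos hApos hte]) _
        have h6 : 0 < (A * t ^ e / 8) ^ d := by positivity
        nlinarith
      rw [h3] at h4
      have := mul_lt_mul_of_pos_left h4 hc
      rwa [← mul_assoc, mul_inv_cancel₀ hc.ne', one_mul] at this
    refine le_trans (measure_mono ?_) (h1'.trans ?_)
    · rintro x ⟨hx, hx'⟩
      exact ⟨hR hx, hx'.trans_lt h2⟩
    · have : (2 : ℝ≥0∞) ^ Module.finrank ℝ V = ENNReal.ofReal (2 ^ Module.finrank ℝ V) := by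
        rw [ENNReal.ofReal_pow (by norm_num)]
        norm_num
      rw [this, ← ENNReal.ofReal_toReal hfin, ← hm, ← ENNReal.ofReal_mul (by positivity),
        ← ENNReal.ofReal_mul (by positivity)]
      refine ENNReal.ofReal_le_ofReal ?_
      have h7 : 0 ≤ (2 : ℝ) ^ Module.finrank ℝ V * (2 * d) := by positivity
      nlinarith [mul_pos hApos hte, mul_nonneg h7 (mul_pos hApos hte).le,
        mul_nonneg hm0 (mul_pos hApos hte).le]
  · refine le_trans (measure_mono fun x hx => hR hx.1) ?_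
    rw [← ENNReal.ofReal_toReal hfin, ← hm]
    refine ENNReal.ofReal_le_ofReal ?_
    have h7 : 0 ≤ (2 : ℝ) ^ Module.finrank ℝ V * (2 * d) := by positivity
    have h8 : 1 ≤ A * t ^ e := (not_le.1 hδ1).le
    nlinarith [mul_nonneg h7 (mul_pos hApos hte).le, mul_nonneg (mul_nonneg h7 hm0)
      (mul_pos hApos hte).le, mul_nonneg hm0 (sub_nonneg.2 h8)]

end Pool.Agent.P.MP_d483fb_an.Z
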