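import Pool.Agent.P.MP_d483fb_an.Z.HP.Cell
import Pool.Agent.P.MP_d483fb_an.Z.HP.Sublevel

/-!
Counting the cells that meet an algebraic hypersurface.
-/

open scoped Matrix Matrix.Norms.Operator Topology ENNReal
open NormedSpace Filter Set MeasureTheory

set_option linter.unusedSectionVars false

noncomputable section

namespace Pool.Agent.P.MP_d483fb_an.Z.NE

variable {ι : Type} [Fintype ι] [DecidableEq ι] {w : ι → ℝ}

theorem totalDegree_aeval_le {σ τ : Type} (F : MvPolynomial σ ℝ) (f : σ → MvPolynomial τ ℝ)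
    {n : ℕ} (hf : ∀ i, (f i).totalDegree ≤ n) :
    (MvPolynomial.aeval f F).totalDegree ≤ F.totalDegree * n := by
  rw [MvPolynomial.aeval_def, MvPolynomial.eval₂]
  refine (MvPolynomial.totalDegree_finsetSum _ _).trans (Finset.sup_le fun d hd => ?_)
  refine (MvPolynomial.totalDegree_mul _ _).trans ?_
  rw [MvPolynomial.algebraMap_eq, MvPolynomial.totalDegree_C, zero_add]
  refine (MvPolynomial.totalDegree_finsetProd _ _).trans ?_
  have : ∑ i ∈ d.support, (d i) * n ≤ F.totalDegree * n := by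
    rw [← Finset.sum_mul]
    exact mul_le_mul' (MvPolynomial.le_totalDegree hd) le_rfl
  refine (Finset.sum_le_sum fun i _ => ?_).trans this
  exact (MvPolynomial.totalDegree_pow _ _).trans (mul_le_mul' le_rfl (hf i))

/-- Translates of a polynomial in the matrix entries. -/
theorem exists_translate (F : MvPolynomial (ι × ι) ℝ) (A B : Matrix ι ι ℝ) :
    ∃ F2 : MvPolynomial (ι × ι) ℝ, F2.totalDegree ≤ F.totalDegree ∧ ∀ M : Matrix ι ι ℝ,
      MvPolynomial.eval (fun p => M p.1 p.2) F2 =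
        MvPolynomial.eval (fun p => (A * M * B) p.1 p.2) F := by
  refine ⟨MvPolynomial.aeval (fun p : ι × ι => ∑ l, ∑ k,
    (A p.1 k * B l p.2) • (MvPolynomial.X (k, l) : MvPolynomial (ι × ι) ℝ)) F, ?_, fun M => ?_⟩
  · refine (totalDegree_aeval_le F _ (n := 1) fun p => ?_).trans_eq (mul_one _)
    refine (MvPolynomial.totalDegree_finsetSum _ _).trans (Finset.sup_le fun l _ => ?_)
    refine (MvPolynomial.totalDegree_finsetSum _ _).trans (Finset.sup_le fun k _ => ?_)
    exact (MvPolynomial.totalDegree_smul_le _ _).trans (MvPolynomial.totalDegree_X _).le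
  · rw [MvPolynomial.map_aeval]
    have h1 : (MvPolynomial.eval fun p : ι × ι => M p.1 p.2).comp
        (algebraMap ℝ (MvPolynomial (ι × ι) ℝ)) = RingHom.id ℝ := by
      ext
      simp
    have h2 : (fun p : ι × ι => MvPolynomial.eval (fun p : ι × ι => M p.1 p.2) (∑ l, ∑ k,
        (A p.1 k * B l p.2) • (MvPolynomial.X (k, l) : MvPolynomial (ι × ι) ℝ))) =
        fun p => (A * M * B) p.1 p.2 := by
      funext p
      simp only [map_sum, MvPolynomial.smul_eval, MvPolynomial.eval_X, Matrix.mul_apply,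
        Finset.sum_mul]
      exact Finset.sum_congr rfl fun l _ => Finset.sum_congr rfl fun k _ => by ring
    rw [h1, h2]
    rfl

theorem norm_mono {X Y : Matrix ι ι ℝ} (h : ∀ i j, |Y i j| ≤ |X i j|) : ‖Y‖ ≤ ‖X‖ := by
  have : ‖Y‖₊ ≤ ‖X‖₊ := by
    rw [Matrix.linfty_opNNNorm_def, Matrix.linfty_opNNNorm_def]
    exact Finset.sup_mono_fun fun i _ => Finset.sum_le_sum fun j _ => h i j
  exact this

theorem exists_gap (w : ι → ℝ) : ∃ κ : ℝ, 0 < κ ∧ ∀ i j, w j < w i → κ ≤ w i - w j := by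
  have h : ∀ᶠ κ in 𝓝[>] (0 : ℝ), ∀ p : ι × ι, w p.2 < w p.1 → κ ≤ w p.1 - w p.2 := by
    refine eventually_all.2 fun p => ?_
    by_cases hp : w p.2 < w p.1
    · filter_upwards [mem_nhdsWithin_of_mem_nhds (Iic_mem_nhds (sub_pos.2 hp))] with κ hκ _ using hκ
    · exact Eventually.of_forall fun κ h => absurd h hp
  obtain ⟨κ, h1, h2⟩ := (h.and self_mem_nhdsWithin).exists
  exact ⟨κ, h2, fun i j => h1 (i, j)⟩

theorem norm_dl_le (w : ι → ℝ) : ∃ κ : ℝ, 0 < κ ∧ ∀ t, 0 ≤ t → ∀ X ∈ Fil w 1,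
    ‖dl w (-t) X‖ ≤ Real.exp (-κ * t) * ‖X‖ := by
  obtain ⟨κ, hκ, h⟩ := exists_gap w
  refine ⟨κ, hκ, fun t ht X hX => ?_⟩
  rw [← abs_of_pos (Real.exp_pos (-κ * t)), ← Real.norm_eq_abs, ← norm_smul]
  refine norm_mono fun i j => ?_
  by_cases h0 : X i j = 0
  · simp [dl_apply, h0]
  · rw [dl_apply, Matrix.smul_apply, smul_eq_mul, abs_mul, abs_mul, abs_of_pos (Real.exp_pos _),
      abs_of_pos (Real.exp_pos _)]
    refine mul_le_mul_of_nonneg_right (Real.exp_le_exp.2 ?_) (abs_nonneg _)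
    nlinarith [h i j (mem_Fil_one.1 hX i j h0)]

theorem contDiff_eval {n : WithTop ℕ∞} (F : MvPolynomial (ι × ι) ℝ) :
    ContDiff ℝ n fun M : Matrix ι ι ℝ => MvPolynomial.eval (fun p => M p.1 p.2) F := by
  induction F using MvPolynomial.induction_on with
  | C a => simpa using contDiff_const
  | add p q hp hq => simpa using hp.add hq
  | mul_X p i hp =>
    simp only [map_mul, MvPolynomial.eval_X]
    exact hp.mul (LinearMap.toContinuousLinearMap (Matrix.entryLinearMap ℝ ℝ i.1 i.2)).contDiff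

theorem exists_poly_pow (X V : Matrix ι ι ℝ) (k : ℕ) : ∀ i j, ∃ p : Polynomial ℝ,
    p.natDegree ≤ k ∧ ∀ s : ℝ, ((X + s • V) ^ k) i j = p.eval s := by
  induction k with
  | zero => exact fun i j => ⟨Polynomial.C ((1 : Matrix ι ι ℝ) i j), by simp, by simp⟩
  | succ k ih =>
    choose P hP hP' using ih
    intro i j
    refine ⟨∑ l, P i l * (Polynomial.C (X l j) + Polynomial.C (V l j) * Polynomial.X),
      Polynomial.natDegree_sum_le_of_forall_le _ _ fun l _ => ?_, fun s => ?_⟩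
    · refine Polynomial.natDegree_mul_le.trans (add_le_add (hP i l) ?_)
      rw [add_comm]
      exact Polynomial.natDegree_linear_le
    · simp [pow_succ, Matrix.mul_apply, hP', Polynomial.eval_finsetSum, mul_comm s]

theorem exists_poly_exp {X V : Matrix ι ι ℝ} (hX : X ∈ Fil w 1) (hV : V ∈ Fil w 1) (i j : ι) :
    ∃ p : Polynomial ℝ, p.natDegree ≤ Fintype.card ι ∧
      ∀ s : ℝ, exp (X + s • V) i j = p.eval s := by
  choose P hP hP' using fun k => exists_poly_pow X V k i j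
  refine ⟨∑ k ∈ Finset.range (Fintype.card ι + 1), ((k.factorial : ℝ)⁻¹) • P k,
    Polynomial.natDegree_sum_le_of_forall_le _ _ fun k hk => ?_, fun s => ?_⟩
  · exact (Polynomial.natDegree_smul_le _ _).trans ((hP k).trans
      (Nat.lt_succ_iff.1 (Finset.mem_range.1 hk)))
  · rw [exp_eq_sum (Submodule.add_mem _ hX (Submodule.smul_mem _ s hV))]
    simp [Matrix.sum_apply, hP', Polynomial.eval_finsetSum]

theorem exists_poly_eval {X V : Matrix ι ι ℝ} (hX : X ∈ Fil w 1) (hV : V ∈ Fil w 1)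
    (F : MvPolynomial (ι × ι) ℝ) {d : ℕ} (hF : F.totalDegree ≤ d) :
    ∃ p : Polynomial ℝ, p.natDegree ≤ d * Fintype.card ι ∧
      ∀ s : ℝ, MvPolynomial.eval (fun p => exp (X + s • V) p.1 p.2) F = p.eval s := by
  choose P hP hP' using fun p : ι × ι => exists_poly_exp hX hV p.1 p.2
  refine ⟨MvPolynomial.aeval P F, MvPolynomial.aeval_natDegree_le F hF P hP, fun s => ?_⟩
  rw [MvPolynomial.aeval_def, MvPolynomial.polynomial_eval_eval₂, MvPolynomial.eval,
    MvPolynomial.coe_eval₂Hom]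
  congr 1
  · ext
    simp
  · funext p
    exact hP' p s

namespace NilSub

variable {u : Submodule ℝ (Matrix ι ι ℝ)} (h : NilSub w u)

theorem norm_dlu_le : ∃ κ : ℝ, 0 < κ ∧ ∀ t, 0 ≤ t → ∀ X : u,
    ‖h.dlu (-t) X‖ ≤ Real.exp (-κ * t) * ‖X‖ := by
  obtain ⟨κ, hκ, h1⟩ := norm_dl_le w
  exact ⟨κ, hκ, fun t ht X => h1 t ht X.1 (h.le X.2)⟩

include h in
/-- Sublevel sets of a polynomial in exponential coordinates. -/
theorem sublevel_exp [MeasurableSpace u] [BorelSpace u] (ν : Measure u) [ν.IsAddHaarMeasure]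
    (F : MvPolynomial (ι × ι) ℝ) {d : ℕ} (hF : F.totalDegree ≤ d)
    (h0 : ∃ X0 : u, MvPolynomial.eval (fun p => exp X0.1 p.1 p.2) F ≠ 0) {B : Set u}
    (hB : Bornology.IsBounded B) : ∃ C : ℝ, 0 < C ∧ ∀ t : ℝ, 0 < t →
      ν {X ∈ B | |MvPolynomial.eval (fun p => exp X.1 p.1 p.2) F| ≤ t} ≤
        ENNReal.ofReal (C * t ^ (1 / (((d * Fintype.card ι : ℕ) : ℝ) + 1))) := by
  obtain ⟨X0, hX0⟩ := h0
  have hc : Continuous fun X : u => MvPolynomial.eval (fun p => exp X.1 p.1 p.2) F :=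
    (contDiff_eval (n := 0) F).continuous.comp
      ((contDiff_exp (n := 0)).continuous.comp continuous_subtype_val)
  exact @sublevel u _ _ _ _ ‹_› ν ‹_› (d * Fintype.card ι) _ hc.measurable X0 hX0
    (fun V => exists_poly_eval (h.le X0.2) (h.le V.2) F hF) B hB

/-- The number of cells that meet the dilated zero set of a polynomial. -/
theorem cell_count {κ : Type} (cell : u → κ)
    (hc : ∃ M : ℕ, ∀ X, (cell '' (h.star X '' {Y | ‖Y‖ ≤ 1})).encard ≤ M) (d : ℕ) :
    ∃ kap : ℝ, 0 < kap ∧ ∀ F : MvPolynomial (ι × ι) ℝ, F.totalDegree ≤ d →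
      (∃ X0 : u, MvPolynomial.eval (fun p => exp X0.1 p.1 p.2) F ≠ 0) →
      ∀ W : Set u, Bornology.IsBounded W → ∃ C : ℝ, 0 < C ∧ ∀ t : ℝ, 0 ≤ t → ∃ T : Finset κ,
        (T.card : ℝ) ≤ C * Real.exp (t * (h.ent - kap)) ∧ ∀ X ∈ W,
          MvPolynomial.eval (fun p => exp X.1 p.1 p.2) F = 0 → cell (h.dlu t X) ∈ T := by
  let _ : MeasurableSpace u := borel u
  have : BorelSpace u := ⟨rfl⟩
  have := locallyCompact_sub u
  set ν : Measure u := Measure.addHaar with hν
  obtain ⟨M, hM⟩ := hc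
  obtain ⟨κ0, hκ0, hdl⟩ := h.norm_dlu_le
  set e : ℝ := 1 / (((d * Fintype.card ι : ℕ) : ℝ) + 1) with he
  have hepos : 0 < e := by positivity
  refine ⟨κ0 * e, by positivity, fun F hF h0 W hW => ?_⟩
  obtain ⟨R, hR⟩ := hW.exists_norm_le
  set ev : Matrix ι ι ℝ → ℝ := fun M => MvPolynomial.eval (fun p => M p.1 p.2) F with hev
  have hf : ContDiff ℝ 1 fun p : Matrix ι ι ℝ × Matrix ι ι ℝ => ev (exp p.1 * exp p.2) :=
    (contDiff_eval F).comp ((contDiff_exp.comp contDiff_fst).mul (contDiff_exp.comp contDiff_snd))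
  obtain ⟨L, hL⟩ := hf.contDiffOn.exists_lipschitzOnWith one_ne_zero
    ((convex_closedBall (0 : Matrix ι ι ℝ) R).prod (convex_closedBall (0 : Matrix ι ι ℝ) 1))
    ((isCompact_closedBall _ _).prod (isCompact_closedBall _ _))
  set B1 : Set u := {Y | ‖Y‖ ≤ 1} with hB1
  have hB1c : IsCompact B1 := isCompact_preimage_val u (isCompact_norm_le 1)
  have hB1n : B1 ∈ 𝓝 (0 : u) := by
    have := Metric.closedBall_mem_nhds (0 : u) one_pos
    rwa [Metric.closedBall, show {y : u | dist y 0 ≤ 1} = {X | ‖X‖ ≤ 1} by simp] at this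
  have hB0 : ν B1 ≠ 0 := (Measure.measure_pos_of_mem_nhds ν hB1n).ne'
  have hBt : ν B1 ≠ ∞ := hB1c.measure_lt_top.ne
  set W' : Set u := (fun p : u × u => h.star p.1 p.2) '' ({X | ‖X‖ ≤ R} ×ˢ B1) with hW'
  have hW'c : IsCompact W' :=
    ((isCompact_preimage_val u (isCompact_norm_le R)).prod hB1c).image h.continuous_star
  obtain ⟨C4, hC4, hsub⟩ := h.sublevel_exp ν F hF h0 hW'c.isBounded
  have hb : 0 < (ν B1).toReal := ENNReal.toReal_pos hB0 hBt
  refine ⟨(M + 1) * (C4 * (L + 1) ^ e) / (ν B1).toReal, by positivity, fun t ht => ?_⟩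
  set τ : ℝ := (L + 1) * Real.exp (-κ0 * t) with hτ
  have hτ0 : 0 < τ := by positivity
  set I : Set κ := (fun X => cell (h.dlu t X)) '' {X ∈ W | ev (exp X.1) = 0} with hI
  have hch : ∀ c : κ, ∃ X : u, c ∈ I → (X ∈ W ∧ ev (exp X.1) = 0) ∧ cell (h.dlu t X) = c := by
    intro c
    by_cases hcI : c ∈ I
    · obtain ⟨X, hX⟩ := hcI
      exact ⟨X, fun _ => hX⟩
    · exact ⟨0, fun h' => absurd h' hcI⟩
  choose Xc hXc using hch
  have hcomp : ∀ X : u, IsCompact (h.star X '' (h.dlu (-t) '' B1)) := fun X =>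
    (hB1c.image (h.dlu (-t)).continuous).image (h.continuous_star_left X)
  have hcont : Continuous fun X : u => ev (exp X.1) :=
    (contDiff_eval (n := 0) F).continuous.comp
      ((contDiff_exp (n := 0)).continuous.comp continuous_subtype_val)
  have key : ∀ T : Finset κ, (T : Set κ) ⊆ I → (T.card : ℝ) ≤
      (M + 1) * (C4 * (L + 1) ^ e) / (ν B1).toReal * Real.exp (t * (h.ent - κ0 * e)) := by
    intro T hT
    have h1 := count_le ν I (fun c => h.star (Xc c) '' (h.dlu (-t) '' B1))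
      (fun c _ => (hcomp _).measurableSet) (v := ENNReal.ofReal (Real.exp (-t * h.ent)) * ν B1)
      (fun c _ => by rw [measure_image_star, measure_image_dlu])
      (S := {X ∈ W' | |ev (exp X.1)| ≤ τ})
      (hW'c.measurableSet.inter (isClosed_le hcont.abs continuous_const).measurableSet)
      ?_ (M := M) ?_ T hT
    · have h2 := h1.trans (mul_le_mul_right (hsub τ hτ0) _)
      rw [← ENNReal.ofReal_toReal hBt, ← ENNReal.ofReal_natCast, ← ENNReal.ofReal_natCast,
        ← ENNReal.ofReal_mul (by positivity), ← ENNReal.ofReal_mul (by positivity),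
        ← ENNReal.ofReal_mul (by positivity), ENNReal.ofReal_le_ofReal_iff (by positivity),
        ← he] at h2
      have h3 : τ ^ e = (L + 1) ^ e * Real.exp (-κ0 * t * e) := by
        rw [hτ, Real.mul_rpow (by positivity) (by positivity), ← Real.exp_mul]
      have h4 : Real.exp (t * (h.ent - κ0 * e)) * Real.exp (-t * h.ent) =
          Real.exp (-κ0 * t * e) := by
        rw [← Real.exp_add]
        congr 1
        ring
      rw [h3, ← h4] at h2
      rw [div_mul_eq_mul_div, le_div_iff₀ hb]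
      refine le_of_mul_le_mul_right ?_ (Real.exp_pos (-t * h.ent))
      have h5 : 0 < C4 * ((L + 1) ^ e *
          (Real.exp (t * (h.ent - κ0 * e)) * Real.exp (-t * h.ent))) := by positivity
      nlinarith
    · rintro c hc' _ ⟨_, ⟨Y, hY, rfl⟩, rfl⟩
      have h6 : ‖h.dlu (-t) Y‖ ≤ Real.exp (-κ0 * t) :=
        (hdl t ht Y).trans (mul_le_of_le_one_right (Real.exp_pos _).le hY)
      have h7 : ‖h.dlu (-t) Y‖ ≤ 1 := h6.trans (Real.exp_le_one_iff.2 (by nlinarith))
      have h8 := hR _ (hXc c hc').1.1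
      refine ⟨⟨(Xc c, h.dlu (-t) Y), ⟨h8, h7⟩, rfl⟩, ?_⟩
      have h9 := hL.dist_le_mul ((Xc c).1, (h.dlu (-t) Y).1)
        ⟨mem_closedBall_zero_iff.2 h8, mem_closedBall_zero_iff.2 h7⟩ ((Xc c).1, 0)
        ⟨mem_closedBall_zero_iff.2 h8, Metric.mem_closedBall_self zero_le_one⟩
      rw [dist_prod_same_left, dist_zero_right, exp_zero, mul_one, (hXc c hc').1.2,
        Real.dist_eq, sub_zero] at h9
      rw [exp_star]
      refine h9.trans ?_
      have h10 : ‖(h.dlu (-t) Y).1‖ ≤ Real.exp (-κ0 * t) := h6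
      nlinarith [Real.exp_pos (-κ0 * t), L.2, norm_nonneg (h.dlu (-t) Y).1]
    · intro X
      refine le_trans (encard_le_encard ?_) (hM (h.dlu t X))
      rintro c ⟨hc', _, ⟨Y, hY, rfl⟩, rfl⟩
      refine ⟨h.dlu t (Xc c), ⟨-Y, by simpa [hB1] using hY, ?_⟩, (hXc c hc').2⟩
      rw [dlu_star, ← dlu_add, add_neg_cancel, dlu_zero, star_assoc, star_neg_self, star_zero]
  have hfin : I.Finite := by
    obtain ⟨N, hN⟩ := exists_nat_ge ((M + 1) * (C4 * (L + 1) ^ e) / (ν B1).toReal *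
      Real.exp (t * (h.ent - κ0 * e)))
    refine finite_of_encard_le_coe (k := N) (encard_le_of_finset fun T hT => ?_)
    exact_mod_cast (key T hT).trans hN
  refine ⟨hfin.toFinset, key _ (by simp), fun X hX h0' => ?_⟩
  rw [Finite.mem_toFinset]
  exact ⟨X, ⟨hX, h0'⟩, rfl⟩

end NilSub

end Pool.Agent.P.MP_d483fb_an.Z.NE
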