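import Pool.Agent.P.MP_d483fb_an.Z.HP.Count
import Pool.Agent.P.MP_d483fb_an.Z.LSB.LeafLS

/-!
From plaques to whole leaves.
-/

open scoped Matrix Matrix.Norms.Operator InnerProductSpace RealInnerProductSpace Topology ENNReal
open MeasureTheory ProbabilityTheory NormedSpace Filter Set

set_option linter.unusedSectionVars false

noncomputable section

namespace Pool.Agent.P.MP_d483fb_an.Z

open Pool.Agent.P.MP_d483fb_an.Z.NE

namespace Pre

variable {X : Type} [MeasurableSpace X] {μ : Measure X} {ι : Type} [Fintype ι] [DecidableEq ι]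
  {S : Pre X μ ι} {Z : Type} {K : Set X} {lab : X → Z} {r : ℝ}

/-- A leaf contains countably many plaques. -/
theorem plaque_cover (hr : 0 < r)
    (hK : ∀ y ∈ K, ∀ y' ∈ K, S.R y y' → S.N y y' ≤ r → lab y = lab y') (x : X) {A : Set X}
    (hA : A ⊆ K) : ∃ C : Set X, C.Countable ∧ (∀ z ∈ C, z ∈ A ∧ S.R x z) ∧
      ∀ y ∈ A, S.R x y → ∃ z ∈ C, lab y = lab z := by
  obtain ⟨C, hC, hc, he⟩ := TopologicalSpace.isOpen_biUnion_countable {z | z ∈ A ∧ S.R x z}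
    (fun z => {M : Matrix ι ι ℝ | S.w.N (S.l z x * ((S.n x z)⁻¹ * M) * S.l x z) < r})
    fun z _ => isOpen_lt (S.w.continuous_N.comp (by fun_prop)) continuous_const
  refine ⟨C, hc, hC, fun y hy hxy => ?_⟩
  have h1 : S.n x y ∈ ⋃ z ∈ {z | z ∈ A ∧ S.R x z},
      {M : Matrix ι ι ℝ | S.w.N (S.l z x * ((S.n x z)⁻¹ * M) * S.l x z) < r} := by
    refine mem_biUnion (x := y) ⟨hy, hxy⟩ ?_
    have h2 := S.R_refl y (R_mem_right hxy)
    rw [mem_ofPred_eq, ← n_eq_conj hxy h2]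
    exact (N_self (R_mem_right hxy)).trans_lt hr
  rw [← he] at h1
  obtain ⟨z, hz, h3⟩ := mem_iUnion₂.1 h1
  have h4 := S.R_trans z x y (S.R_symm x z (hC hz).2) hxy
  rw [mem_ofPred_eq, ← n_eq_conj (hC hz).2 h4] at h3
  exact ⟨z, hz, (hK z (hA (hC hz).1) y (hA hy) h4 h3.le).symm⟩

theorem Leafwise.null_of_plaques (o : S.Leafwise univ) (hr : 0 < r)
    (hK : ∀ y ∈ K, ∀ y' ∈ K, S.R y y' → S.N y y' ≤ r → lab y = lab y') {x : X} (hx : x ∈ o.X1)
    {A E : Set X} (hA : A ⊆ K) (hA1 : A ⊆ o.X1)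
    (h : ∀ z ∈ A, S.R x z → o.om z {y | y ∈ K ∧ lab y = lab z ∧ y ∈ E} = 0) :
    o.om x (A ∩ E) = 0 := by
  obtain ⟨C, hc, h1, h2⟩ := plaque_cover hr hK x hA
  have h3 : o.om x (⋃ z ∈ C, {y | y ∈ K ∧ lab y = lab z ∧ y ∈ E}) = 0 := by
    refine (measure_biUnion_null_iff hc).2 fun z hz => ?_
    rw [(o.lw.prop x hx z (hA1 (h1 z hz).1) (RJ_univ.2 (h1 z hz).2)).2.2, Measure.smul_apply,
      h z (h1 z hz).1 (h1 z hz).2, smul_zero]
  refine le_antisymm ((measure_mono_ae ?_).trans h3.le) zero_le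
  filter_upwards [o.lw.carried x hx] with y hy hy'
  obtain ⟨z, hz, he⟩ := h2 y hy'.1 hy.2.1
  exact mem_biUnion hz ⟨hA hy'.1, he, hy'.2⟩

variable [MeasurableSpace Z] [StandardBorelSpace Z]

/-- Almost every plaque has positive leafwise measure. -/
theorem Leafwise.ae_plaque_pos (o : S.Leafwise univ) (hr : 0 < r) (hKm : MeasurableSet K)
    (hl : Measurable lab)
    (hK : ∀ y ∈ K, ∀ y' ∈ K, S.R y y' → S.N y y' ≤ r → lab y = lab y') :
    ∀ᵐ x ∂μ, x ∈ K → o.om x {y | y ∈ K ∧ lab y = lab x} ≠ 0 := by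
  have := o.lw.sfin
  have hm : Measurable fun x => o.om x {y | y ∈ K ∧ lab y = lab x} :=
    Kernel.measurable_kernel_prodMk_left (κ := o.om)
      (t := {p : X × X | p.2 ∈ K ∧ lab p.2 = lab p.1}) ((measurable_snd hKm).inter
        (measurableSet_eq_fun (hl.comp measurable_snd) (hl.comp measurable_fst)))
  set Z0 : Set X := K ∩ o.X1 ∩ {x | o.om x {y | y ∈ K ∧ lab y = lab x} = 0} with hZ0
  have hZ0m : MeasurableSet Z0 := (hKm.inter o.lw.meas).inter (hm (measurableSet_singleton 0))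
  have h1 : ∀ᵐ y ∂μ, y ∉ Z0 := by
    refine o.lw.ae_of_ae_ae S.measurable_N hZ0m.compl ?_
    filter_upwards [o.lw.conull] with x hx
    have h2 := o.null_of_plaques hr hK hx (A := Z0) (E := univ) (fun _ h => h.1.1)
      (fun _ h => h.1.2) fun z hz _ => by simpa using hz.2
    rw [inter_univ] at h2
    exact compl_mem_ae_iff.2 h2
  filter_upwards [h1, o.lw.conull] with x hx hx1 hxK h0 using hx ⟨⟨hxK, hx1⟩, h0⟩

variable [StandardBorelSpace X] [Nonempty X] [IsProbabilityMeasure μ]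

/-- The conditional measures of a flow box are the restrictions of the leafwise measures. -/
theorem Leafwise.condDistrib_plaque (o : S.Leafwise univ) (hr : 0 < r) (hKm : MeasurableSet K)
    (hl : Measurable lab) {r1 : ℝ}
    (hK1 : ∀ y ∈ K, ∀ y' ∈ K, lab y = lab y' → S.R y y' ∧ S.N y y' ≤ r1)
    (hK : ∀ y ∈ K, ∀ y' ∈ K, S.R y y' → S.N y y' ≤ r → lab y = lab y') :
    ∀ᵐ x ∂μ[|K], o.om x {y | y ∈ K ∧ lab y = lab x} ≠ ∞ ∧
      condDistrib id lab μ[|K] (lab x) = (o.om x)[|{y | y ∈ K ∧ lab y = lab x}] := by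
  have h0 : ∀ x ∈ o.X1, x ∈ K → o.om x {y | y ∈ K ∧ lab y = lab x} ≠ ∞ := fun x hx hxK =>
    ne_top_of_le_ne_top (o.lw.fin x hx (r1 + 1)) (measure_mono fun y hy =>
      (hK1 x hxK y hy.1 hy.2.symm).2.trans_lt (lt_add_one r1))
  have h1 := o.lw.condDistrib_eq hKm hl
    (S := o.X1 ∩ {x | x ∈ K → o.om x {y | y ∈ K ∧ lab y = lab x} ≠ 0})
    (o.lw.conull.and (o.ae_plaque_pos hr hKm hl hK)) (fun x hx hxK => ⟨hx.2 hxK, h0 x hx.1 hxK⟩)
    (fun x _ y _ hx hy he => RJ_univ.2 (hK1 x hx y hy he).1) μ[|K] (c := (μ K)⁻¹) rfl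
  filter_upwards [h1, ae_cond_mem hKm, cond_absolutelyContinuous o.lw.conull] with x h2 h3 h4
    using ⟨h0 x h4 h3, h2⟩

end Pre

variable {G : Type} [Group G] [TopologicalSpace G] {n k : ℕ} {D : Std G n k} {B : Type}
  [TopologicalSpace B] [MeasurableSpace B] [MulAction G B] {X : Type} [MetricSpace X]
  [MeasurableSpace X] [MulAction G X] {μ : Measure X} {κ : Type} [Fintype κ] [DecidableEq κ]

theorem blk_mul' {a b : Matrix (Fin n ⊕ κ) (Fin n ⊕ κ) ℝ} (hb : b.toBlocks₂₁ = 0) :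
    (a * b).toBlocks₁₁ = a.toBlocks₁₁ * b.toBlocks₁₁ := by
  ext i j
  have h : ∀ m, b (.inr m) (.inl j) = 0 := fun m => congrFun (congrFun hb m) j
  simp [Matrix.toBlocks₁₁, Matrix.mul_apply, h]

theorem Std.undo_dl (D : Std G n k) (s : Euc k) (t : ℝ) (M : Mat n) :
    D.ρ (D.a ((-t) • s)) * dl (D.wOf s) t M * D.ρ (D.a (t • s)) = M := by
  ext i j
  rw [D.ρ_a_diag, D.ρ_a_diag, Matrix.mul_diagonal, Matrix.diagonal_mul, dl_apply, ← mul_assoc,
    mul_right_comm, ← Real.exp_add, ← Real.exp_add]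
  simp only [inner_smul_right, Std.wOf]
  ring_nf
  simp

theorem GeoPre.blk_back (S : GeoPre D B X μ κ) {x y : X} (h : S.R x y) (i : ℤ) :
    (S.T x y).toBlocks₁₁ = D.ρ (D.a ((-(i : ℝ)) • S.Ha)) *
      (S.T (S.toPre.a i x) (S.toPre.a i y)).toBlocks₁₁ * D.ρ (D.a ((i : ℝ) • S.Ha)) := by
  have h1 := Pre.R_a h i
  have h2 := S.T_f (-((i : ℝ), 0)) _ _ h1
  have hy := Pre.R_mem_right h
  have hx := Pre.R_mem_left h1
  rw [Pre.L_inv (Pre.R_mem_right h1), neg_neg] at h2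
  simp only [Pre.a, Pre.f_neg_f] at h2 h1 hx ⊢
  rw [h2, blk_mul' (S.Gen_blk _ (S.L_mem _ y hy)).2.1,
    blk_mul' (S.Gen_blk _ (S.T_mem _ _ h1)).2.1, S.L_blk _ y hy, S.L_blk _ _ hx]
  simp

/-- The vanishing on plaques implies the vanishing on leaves. -/
theorem GeoPre.hasHP_of_plaque [StandardBorelSpace X] [Nonempty X] [IsProbabilityMeasure μ]
    (S : GeoPre D B X μ κ)
    (h : ∀ d : ℕ, ∃ (K : Set X) (lab : X → ℕ → ℝ), MeasurableSet K ∧ μ K ≠ 0 ∧ Measurable lab ∧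
      (∀ y ∈ K, ∀ y' ∈ K, lab y = lab y' → S.R y y' ∧ S.toPre.N y y' ≤ 1) ∧
      (∀ y ∈ K, ∀ y' ∈ K, S.R y y' → S.toPre.N y y' ≤ 1 → lab y = lab y') ∧
      ∀ᵐ x ∂μ[|K], ∀ F : MvPolynomial (Fin n × Fin n) ℝ, F.totalDegree ≤ d →
        (∃ Y ∈ D.np S.Ha, MvPolynomial.eval (fun p => exp Y p.1 p.2) F ≠ 0) →
        condDistrib id lab μ[|K] (lab x) {y | y ∈ K ∧ lab y = lab x ∧
          MvPolynomial.eval (fun p => (S.T x y).toBlocks₁₁ p.1 p.2) F = 0} = 0) : S.HasHP := by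
  intro o
  have hs := D.nilSub_np S.Ha
  suffices H : ∀ d : ℕ, ∀ᵐ x ∂μ, ∀ F : MvPolynomial (Fin n × Fin n) ℝ, F.totalDegree ≤ d →
      (∃ Y ∈ D.np S.Ha, MvPolynomial.eval (fun p => exp Y p.1 p.2) F ≠ 0) →
      o.om x {y | MvPolynomial.eval (fun p => (S.T x y).toBlocks₁₁ p.1 p.2) F = 0} = 0 by
    filter_upwards [ae_all_iff.2 H] with x hx F using hx _ F le_rfl
  intro d
  obtain ⟨K, lab, hKm, hK0, hl, hK1, hK, hae⟩ := h d
  have h1 : ∀ᵐ x ∂μ, x ∈ K → ∀ F : MvPolynomial (Fin n × Fin n) ℝ, F.totalDegree ≤ d →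
      (∃ Y ∈ D.np S.Ha, MvPolynomial.eval (fun p => exp Y p.1 p.2) F ≠ 0) →
      o.om x {y | y ∈ K ∧ lab y = lab x ∧
        MvPolynomial.eval (fun p => (S.T x y).toBlocks₁₁ p.1 p.2) F = 0} = 0 := by
    rw [← ae_restrict_iff' hKm, ← Measure.ae_ennreal_smul_measure_iff (c := (μ K)⁻¹)
      (ENNReal.inv_ne_zero.2 (measure_ne_top _ _))]
    filter_upwards [hae, o.condDistrib_plaque one_pos hKm hl hK1 hK] with x h2 h3 F hF hF0
    have h4 := h2 F hF hF0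
    have hcm : MeasurableSet {y | y ∈ K ∧ lab y = lab x} :=
      hKm.inter (hl (measurableSet_singleton _))
    rw [h3.2, cond_apply hcm, mul_eq_zero] at h4
    refine measure_mono_null (fun y hy => ?_) (h4.resolve_left (ENNReal.inv_ne_zero.2 h3.1))
    exact ⟨⟨hy.1, hy.2.1⟩, hy⟩
  obtain ⟨N, hN, hNm, hN0⟩ := exists_measurable_superset_of_null (ae_iff.1 h1)
  set K' : Set X := (K ∩ o.X1) \ N with hK'
  have hK'm : MeasurableSet K' := (hKm.inter o.lw.meas).diff hNm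
  have hK'0 : μ K' ≠ 0 := by
    refine fun h0 => hK0 (le_antisymm ((measure_mono_ae ?_).trans h0.le) zero_le)
    filter_upwards [o.lw.conull, compl_mem_ae_iff.2 hN0] with x h2 h3 h4 using ⟨⟨h4, h2⟩, h3⟩
  have h5 : ∀ x ∈ o.X1, ∀ F : MvPolynomial (Fin n × Fin n) ℝ, F.totalDegree ≤ d →
      (∃ Y ∈ D.np S.Ha, MvPolynomial.eval (fun p => exp Y p.1 p.2) F ≠ 0) →
      o.om x (K' ∩ {y | MvPolynomial.eval (fun p => (S.T x y).toBlocks₁₁ p.1 p.2) F = 0}) = 0 := by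
    rintro x hx F hF ⟨Y, hY, hY0⟩
    refine o.null_of_plaques one_pos hK hx (fun _ h => h.1.1) (fun _ h => h.1.2) fun z hz hxz => ?_
    obtain ⟨Y0, hY0m, hY0e, -⟩ := S.P0 x z hxz
    obtain ⟨F2, hF2, hF2e⟩ := exists_translate F (exp (-Y0)) 1
    have h6 := (not_not.1 fun h' => hz.2 (hN h')) hz.1.1 F2 (hF2.trans hF)
      ⟨_, (hs.star ⟨Y0, hY0m⟩ ⟨Y, hY⟩).2, by
        rwa [hF2e, hs.exp_star, mul_one, ← mul_assoc, NilSub.exp_neg_mul, one_mul]⟩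
    refine measure_mono_null (fun y hy => ?_) h6
    refine ⟨hy.1, hy.2.1, ?_⟩
    have h7 := (hK1 z hz.1.1 y hy.1 hy.2.1.symm).1
    rw [hF2e, mul_one, ← hY0e, ← blk_mul' (S.Gen_blk _ (S.T_mem _ _ h7)).2.1,
      S.T_mul x z y hxz h7]
    exact hy.2.2
  filter_upwards [o.lw.conull, o.lw.ae_ae (ae_frequently_of_ergodic S.toPre.ergodic_aE hK'm hK'0)]
    with x hx hv F hF ⟨Y, hY, hY0⟩
  have h8 : ∀ i : ℕ, o.om x {y | S.R x y ∧ S.toPre.a i y ∈ K' ∧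
      MvPolynomial.eval (fun p => (S.T x y).toBlocks₁₁ p.1 p.2) F = 0} = 0 := by
    intro i
    obtain ⟨F3, hF3, hF3e⟩ := exists_translate F (D.ρ (D.a ((-((i : ℤ) : ℝ)) • S.Ha)))
      (D.ρ (D.a (((i : ℤ) : ℝ) • S.Ha)))
    have h9 := h5 _ (o.a_mem i hx) F3 (hF3.trans hF)
      ⟨_, hs.dl_mem ((i : ℤ) : ℝ) Y hY, by rwa [hF3e, ← dl_exp, D.undo_dl]⟩
    obtain ⟨c, hc0, -, hc⟩ := o.equiv_a i hx
    rw [hc, Measure.smul_apply, smul_eq_mul, mul_eq_zero] at h9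
    have h10 := (Measure.le_map_apply (S.toPre.measurable_a i).aemeasurable _).trans
      (h9.resolve_left hc0).le
    refine measure_mono_null (fun y hy => ?_) (le_antisymm h10 zero_le)
    refine ⟨hy.2.1, ?_⟩
    rw [mem_ofPred_eq, hF3e, ← S.blk_back hy.1]
    exact hy.2.2
  refine le_antisymm ((measure_mono_ae ?_).trans (measure_iUnion_null h8).le) zero_le
  filter_upwards [hv, o.lw.carried x hx] with y hy hy' hy0
  obtain ⟨i, hi⟩ := hy.exists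
  rw [Pre.aE_iterate] at hi
  exact mem_iUnion.2 ⟨i, hy'.2.1, hi, hy0⟩

end Pool.Agent.P.MP_d483fb_an.Z
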