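import Pool.Agent.P.MP_d483fb_an.Z.Ent.E11

/-!
The information theoretic part of the full entropy argument.
-/

open MeasureTheory ProbabilityTheory Set Filter Topology
open scoped ENNReal

noncomputable section

namespace Pool.Agent.P.MP_d483fb_an.Z.HP

open Pool.Agent.P.MP_d483fb_an.Z.Ent

/-- A relation defined by a decreasing family of closed conditions with a compact set of
witnesses. -/
theorem lusinRel_seq {Z V : Type*} [TopologicalSpace Z] [TopologicalSpace V] {Q0 : Set V}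
    (hQ0 : IsCompact Q0) {A : ℕ → Set ((Z × Z) × V)}
    (hA : ∀ k, IsClosed (A k ∩ univ ×ˢ Q0))
    (h : ∀ z z' : Z, ∀ v ∈ Q0, (∀ k, ((z, z'), v) ∈ A k) → z = z') :
    LusinRel fun δ z z' => ∃ v ∈ Q0, ∀ k : ℕ, k * δ ≤ 1 → ((z, z'), v) ∈ A k := by
  refine ⟨fun δ δ' _ h1 z z' ⟨v, hv, h2⟩ => ⟨v, hv, fun k hk => h2 k ?_⟩, fun Q Q' hQ hQ' hd => ?_⟩
  · exact (mul_le_mul_of_nonneg_left h1 (Nat.cast_nonneg k)).trans hk
  have hc : IsCompact ((Q ×ˢ Q') ×ˢ Q0) := (hQ.prod hQ').prod hQ0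
  obtain ⟨s, hs⟩ := hc.elim_finite_subfamily_closed _ hA (by
    rw [eq_empty_iff_forall_notMem]
    rintro ⟨⟨z, z'⟩, v⟩ ⟨⟨⟨h1, h2⟩, h3⟩, h4⟩
    have := h z z' v h3 fun k => (mem_iInter.1 h4 k).1
    exact Set.disjoint_left.1 hd h1 (this ▸ h2))
  refine ⟨1 / ((s.sup id : ℕ) + 1), by positivity, fun z hz z' hz' ⟨v, hv, h2⟩ => ?_⟩
  refine eq_empty_iff_forall_notMem.1 hs ((z, z'), v) ⟨⟨⟨hz, hz'⟩, hv⟩, ?_⟩
  refine mem_iInter₂.2 fun k hk => ⟨h2 k ?_, trivial, hv⟩
  have h3 : (k : ℝ) ≤ (s.sup id : ℕ) := by exact_mod_cast Finset.le_sup (f := id) hk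
  rw [mul_one_div, div_le_one (by positivity)]
  linarith

variable {Ω Y Z B D : Type*} [MeasurableSpace Ω] [StandardBorelSpace Ω] [Nonempty Ω]
  [MeasurableSpace Y] [StandardBorelSpace Y] [MeasurableSpace B] [StandardBorelSpace B]
  [MeasurableSpace D] [Countable D] [MeasurableSingletonClass D]
  {μ : Measure Ω} [IsProbabilityMeasure μ]

/-- A digit that confines the base point to a small set has a large entropy. -/
theorem H0_ge {f : Ω → D} (hf : Measurable f) (hH : FinEnt μ f) {π : Ω → B} (hπ : Measurable π)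
    (E : D → Set B) (hE : ∀ᵐ x ∂μ, π x ∈ E (f x)) {u : D → ℝ} (hu : ∀ i, 0 < u i)
    (hm : ∀ i, μ.map π (E i) ≤ ENNReal.ofReal (u i))
    (hi : Integrable (fun x => Real.log (u (f x))) μ) :
    Hc μ f π - ∫ x, Real.log (u (f x)) ∂μ ≤ H0 μ f := by
  classical
  set p : D → ℝ := fun i => μ.real {y | f y = i} with hp
  have hp0 : ∀ i, 0 ≤ p i := fun i => measureReal_nonneg
  set E' : D → Set B := fun i => toMeasurable (μ.map π) (E i) with hE'
  have hE'm : ∀ i, MeasurableSet (E' i) := fun i => measurableSet_toMeasurable _ _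
  set q : B → D → ℝ≥0∞ := fun b i => (E' i).indicator (fun _ => ENNReal.ofReal (p i / u i)) b
    with hq
  have hqm : ∀ i, Measurable fun b => q b i := fun i => measurable_const.indicator (hE'm i)
  have hfm : ∀ i, MeasurableSet (f ⁻¹' {i}) := fun i => hf (measurableSet_singleton i)
  have hΦ : Measurable fun z : B × Ω => q z.1 (f z.2) / condDistrib id π μ z.1 (f ⁻¹' {f z.2}) :=
    ((measurable_from_prod_countable_left (f := fun z : B × D => q z.1 z.2) hqm).comp
      (measurable_fst.prodMk (hf.comp measurable_snd))).div (cd_measurable _ hf)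
  have h1 : ∫⁻ x, q (π x) (f x) / cp μ π x {y | f y = f x} ∂μ ≤ 1 := by
    refine (cd_lintegral (μ := μ) hπ hΦ).trans_le ?_
    have h2 : ∀ x, ∫⁻ w, q (π x) (f w) / condDistrib id π μ (π x) (f ⁻¹' {f w})
        ∂condDistrib id π μ (π x) ≤ ∑' i, q (π x) i := fun x => by
      rw [lintegral_digit _ hf fun i => q (π x) i / condDistrib id π μ (π x) (f ⁻¹' {i})]
      exact ENNReal.tsum_le_tsum fun i => by
        rw [mul_comm]
        exact ENNReal.mul_div_le
    refine (lintegral_mono h2).trans ?_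
    rw [lintegral_tsum (f := fun i x => q (π x) i) fun i => ((hqm i).comp hπ).aemeasurable]
    have h3 : ∀ i, ∫⁻ x, q (π x) i ∂μ ≤ μ (f ⁻¹' {i}) := fun i => by
      rw [← lintegral_map (hqm i) hπ, hq, lintegral_indicator_const (hE'm i), hE',
        measure_toMeasurable]
      refine (mul_le_mul_right (hm i) _).trans_eq ?_
      rw [← ENNReal.ofReal_mul (div_nonneg (hp0 i) (hu i).le), div_mul_cancel₀ _ (hu i).ne', hp]
      exact ofReal_measureReal
    refine (ENNReal.tsum_le_tsum h3).trans_eq ?_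
    rw [← measure_iUnion (f := fun i => f ⁻¹' {i}) (fun i j hij => Set.disjoint_left.2 fun x h1 h2 =>
      hij ((mem_singleton_iff.1 h1).symm.trans h2)) hfm, ← measure_univ (μ := μ)]
    congr 1
    exact eq_univ_of_forall fun x => mem_iUnion.2 ⟨f x, rfl⟩
  have hpp : ∀ᵐ x ∂μ, 0 < p (f x) := by
    filter_upwards [Pc_pos (μ := μ) hf (measurable_const (a := ())),
      cp_unit (μ := μ)] with x h2 h3
    rwa [Pc, h3] at h2
  set r : Ω → ℝ := fun x => p (f x) / u (f x) / Pc μ f π x with hr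
  have hrm : Measurable r := (((measurable_of_countable p).comp hf).div
    ((measurable_of_countable u).comp hf)).div (measurable_Pc hf hπ)
  have hr0 : ∀ x, 0 ≤ r x := fun x => div_nonneg (div_nonneg (hp0 _) (hu _).le) (Pc_nonneg x)
  have h4 : ∫⁻ x, ENNReal.ofReal (r x) ∂μ ≤ 1 := by
    refine le_trans (lintegral_congr_ae ?_).le h1
    filter_upwards [hE, Pc_pos (μ := μ) hf hπ] with x h2 h3
    rw [hr, hq]
    simp only
    rw [indicator_of_mem (subset_toMeasurable _ _ h2), ENNReal.ofReal_div_of_pos h3, Pc,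
      ofReal_measureReal]
  have hri : Integrable r μ :=
    ⟨hrm.aestronglyMeasurable, by
      rw [hasFiniteIntegral_iff_ofReal (Eventually.of_forall hr0)]
      exact h4.trans_lt ENNReal.one_lt_top⟩
  have h5 : ∫ x, r x ∂μ ≤ 1 := by
    rw [integral_eq_lintegral_of_nonneg_ae (Eventually.of_forall hr0) hrm.aestronglyMeasurable]
    exact ENNReal.toReal_le_of_le_ofReal zero_le_one (by simpa using h4)
  have hI := hH.integrable hf hπ
  have h6 : ∫ x, (Ic μ f π x - Real.log (u (f x)) - I0 μ f x) ∂μ ≤ ∫ x, (r x - 1) ∂μ := by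
    refine integral_mono_ae ((hI.sub hi).sub hH) (hri.sub (integrable_const _)) ?_
    filter_upwards [hpp, Pc_pos (μ := μ) hf hπ] with x h2 h3
    have h7 := Real.log_le_sub_one_of_pos (div_pos (div_pos h2 (hu (f x))) h3)
    rw [Real.log_div (div_pos h2 (hu _)).ne' h3.ne', Real.log_div h2.ne' (hu _).ne'] at h7
    simp only [Ic, I0]
    linarith
  rw [integral_sub (f := fun x => Ic μ f π x - Real.log (u (f x))) (hI.sub hi) hH,
    integral_sub hI hi, integral_sub hri (integrable_const _)] at h6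
  simp only [integral_const, probReal_univ, smul_eq_mul, mul_one] at h6
  unfold Hc H0
  linarith

/-- The entropy gap between the plaques and the fibres. -/
theorem gap [TopologicalSpace Z] [PolishSpace Z] [MeasurableSpace Z] [BorelSpace Z]
    {T : Ω → Ω} {d : Ω → D} (hT : Ergodic T μ) (hd : Measurable d) (hH : FinEnt μ d)
    {F : Ω → Z} (hF : Measurable F) {π : Ω → B} (hπ : Measurable π)
    (iS : Incr μ T (pr2 F π) d) {Rel : ℝ → Z → Z → Prop} (hR : LusinRel Rel)
    {Q : ℕ → Ω → ℕ} (hQ : ∀ n, Measurable (Q n)) {c1 c2 C C' : ℝ}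
    (hQc : ∀ n x, (Q n x : ℝ) + 1 ≤ Real.exp (C + n * c1))
    (hN : Near μ T d F Rel Q fun _ => univ)
    (hB : ∀ n, 0 < n → ∃ (E : (Fin n → D) → Set B) (u : (Fin n → D) → ℝ),
      (∀ᵐ x ∂μ, π x ∈ E (names T d n x)) ∧ (∀ i, 0 < u i) ∧
      (∀ i, μ.map π (E i) ≤ ENNReal.ofReal (u i)) ∧
      Integrable (fun x => Real.log (u (names T d n x))) μ ∧
      ∫ x, Real.log (u (names T d n x)) ∂μ ≤ C' - n * c2) :
    c2 - c1 ≤ Hc μ d F - Hc μ d (pr2 F π) := by
  have hmp := hT.toMeasurePreserving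
  refine le_of_forall_pos_le_add fun ε hε => ?_
  have h1 := names_upper hT hd hH hF hR hQ (fun _ => MeasurableSet.univ)
    (fun n => Sat.univ _) hN (half_pos hε)
  have h2 : ∀ᶠ n : ℕ in atTop, C + C' ≤ n * (ε / 2) :=
    (tendsto_natCast_atTop_atTop.atTop_mul_const (half_pos hε)).eventually_ge_atTop _
  obtain ⟨n, h3, h4, h5⟩ := (h1.and (h2.and (eventually_gt_atTop 0))).exists
  obtain ⟨E, u, hE, hu, hm, hi, hb⟩ := hB n h5
  have hn := measurable_names hmp.measurable hd n
  have hHn := (hH.names hmp hd n).1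
  have h6 := H0_ge hn hHn hπ E hE hu hm hi
  have h7 := (Hc_finer hn (hF.prodMk hπ) hπ (Det.snd F π) (hHn.integrable hn hπ)).2
  rw [iS.Hc_names hmp hH hd (hF.prodMk hπ)] at h7
  obtain ⟨h8, h9⟩ := finEnt_of_finset (μ := μ) (hQ n) (Finset.range ⌊Real.exp (C + n * c1)⌋₊)
    (Eventually.of_forall fun x => by
      rw [Finset.mem_range, ← Nat.succ_le_iff]
      exact Nat.le_floor (by exact_mod_cast hQc n x))
  have h10 : H0 μ (Q n) ≤ C + n * c1 := by
    refine h9.trans ?_
    rw [Finset.card_range]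
    have h11 : (1 : ℝ) ≤ Real.exp (C + n * c1) :=
      le_trans (by simp) (hQc n (Classical.arbitrary Ω))
    have h12 : (0 : ℝ) < ⌊Real.exp (C + n * c1)⌋₊ := by exact_mod_cast Nat.floor_pos.2 h11
    rw [Real.log_le_iff_le_exp h12]
    exact Nat.floor_le (Real.exp_pos _).le
  obtain ⟨h13, h14⟩ := h8.pair hHn (hQ n) hn
  have h15 := (h13.of_det ((hQ n).prodMk hn) hn (Det.snd _ _)).2
  simp only [Measure.restrict_univ, probReal_univ, one_mul] at h3
  have h16 : Hc μ (names T d n) (Q n) ≤ n * (Hc μ d F + ε / 2) := h3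
  have h17 : (0 : ℝ) < n := by exact_mod_cast h5
  refine le_of_mul_le_mul_left ?_ h17
  nlinarith

/-- Sets that meet few values of the digits `sig n` are null for the conditional measures. -/
theorem thin [MeasurableSpace Z] [StandardBorelSpace Z] {F : Ω → Y} (hF : Measurable F)
    {lab : Ω → Z} (hl : Measurable lab) (hd : Det μ F lab) {sig : ℕ → Ω → ℕ}
    (hs : ∀ n, Measurable (sig n)) {c c' : ℝ} (hc : c < c')
    (h : Tendsto (fun n : ℕ => μ.real {x | Ic μ (sig n) F x < n * c'}) atTop (𝓝 0)) :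
    ∀ᵐ x ∂μ, ∀ A : Set Ω, MeasurableSet A →
      (∃ C : ℝ, ∀ n : ℕ, ∃ s : Finset ℕ, (s.card : ℝ) ≤ C * Real.exp (n * c) ∧
        ∀ y ∈ A, lab y = lab x → sig n y ∈ s) → cp μ lab x A = 0 := by
  set G : ℕ → Set Ω := fun n => {x | Ic μ (sig n) F x < n * c'} with hG
  have hGm : ∀ n, MeasurableSet (G n) := fun n =>
    measurableSet_lt (measurable_Ic (hs n) hF) measurable_const
  have hcp : ∀ n, Measurable fun x => cp μ F x (G n) := fun n =>
    (Measure.measurable_coe (hGm n)).comp (measurable_cp hF)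
  have h1 : ∀ᵐ x ∂μ, liminf (fun n => cp μ F x (G n)) atTop = 0 := by
    refine (lintegral_eq_zero_iff (Measurable.liminf hcp)).1 (le_antisymm ?_ zero_le)
    refine (lintegral_liminf_le hcp).trans_eq (Tendsto.liminf_eq ?_)
    have h2 : ∀ n, ∫⁻ x, cp μ F x (G n) ∂μ = ENNReal.ofReal (μ.real (G n)) := fun n => by
      have := setLIntegral_cp (μ := μ) hF MeasurableSet.univ (hGm n)
      simpa [ofReal_measureReal] using this
    simp only [h2]
    simpa using ENNReal.tendsto_ofReal h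
  have h3 : ∀ᵐ x ∂μ, ∀ A : Set Ω,
      (∃ C : ℝ, ∀ n : ℕ, ∃ s : Finset ℕ, (s.card : ℝ) ≤ C * Real.exp (n * c) ∧
        ∀ y ∈ A, lab y = lab x → sig n y ∈ s) → cp μ F x A = 0 := by
    filter_upwards [h1, cp_atom (μ := μ) hF, hd.ae_cp hF,
      ae_cp hF (ae_all_iff.2 fun n => exp_neg_Ic (μ := μ) (hs n) hF)] with x h4 h5 h6 h7 A ⟨C, hC⟩
    have h8 : ∀ n : ℕ, cp μ F x A ≤
        cp μ F x (G n) + ENNReal.ofReal (C * Real.exp (n * (c - c'))) := fun n => by
      obtain ⟨s, h9, h10⟩ := hC n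
      have h11 : A ≤ᵐ[cp μ F x] (G n ∪ ⋃ i ∈ s, {y | sig n y = i ∧
          (cp μ F x).real {y | sig n y = i} ≤ Real.exp (-(n * c'))} : Set Ω) := by
        filter_upwards [h5, h6, h7] with y h12 h13 h14 hy
        by_cases h15 : y ∈ G n
        · exact Or.inl h15
        · refine Or.inr (mem_iUnion₂.2 ⟨sig n y, h10 y hy h13, rfl, ?_⟩)
          have h16 := h14 n
          rw [Pc, cp_eq_of_eq h12] at h16
          rw [← h16]
          exact Real.exp_le_exp.2 (neg_le_neg (not_lt.1 h15))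
      refine (measure_mono_ae h11).trans ((measure_union_le _ _).trans (add_le_add le_rfl ?_))
      refine (measure_biUnion_finset_le _ _).trans ?_
      refine (Finset.sum_le_card_nsmul _ _ (ENNReal.ofReal (Real.exp (-(n * c'))))
        fun i _ => ?_).trans ?_
      · by_cases h15 : (cp μ F x).real {y | sig n y = i} ≤ Real.exp (-(n * c'))
        · refine (measure_mono fun y hy => (hy.1 : y ∈ {y | sig n y = i})).trans ?_
          rw [← ofReal_measureReal]
          exact ENNReal.ofReal_le_ofReal h15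
        · simp [h15]
      · rw [nsmul_eq_mul, ← ENNReal.ofReal_natCast, ← ENNReal.ofReal_mul (Nat.cast_nonneg _)]
        refine ENNReal.ofReal_le_ofReal ?_
        rw [mul_sub, sub_eq_add_neg, Real.exp_add, ← mul_assoc]
        exact mul_le_mul_of_nonneg_right h9 (Real.exp_pos _).le
    have h9 : Tendsto (fun n : ℕ => ENNReal.ofReal (C * Real.exp (n * (c - c')))) atTop (𝓝 0) := by
      have := (Real.tendsto_exp_atBot.comp
        (tendsto_natCast_atTop_atTop.atTop_mul_const_of_neg (sub_neg.2 hc))).const_mul C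
      simpa using ENNReal.tendsto_ofReal this
    refine le_antisymm (ENNReal.le_of_forall_pos_le_add fun e he _ => ?_) zero_le
    have he2 : (0 : ℝ≥0∞) < e / 2 := ENNReal.half_pos (by exact_mod_cast he.ne')
    obtain ⟨n, h10, h11⟩ := ((frequently_lt_of_liminf_lt (h := h4.trans_lt he2)).and_eventually
      (h9.eventually (gt_mem_nhds he2))).exists
    rw [zero_add, ← ENNReal.add_halves e]
    exact (h8 n).trans (add_le_add h10.le h11.le)
  filter_upwards [cp_tower hl hF hd, ae_cp hl h3, cp_atom (μ := μ) hl] with x h4 h5 h6 A hA hC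
  rw [← h4, Measure.bind_apply hA (measurable_cp hF).aemeasurable]
  refine lintegral_eq_zero_of_ae_eq_zero ?_
  filter_upwards [h5, h6] with y h7 h8
  exact h7 A (h8 ▸ hC)

end Pool.Agent.P.MP_d483fb_an.Z.HP
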