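import Pool.Agent.P.MP_d483fb_an.Z.HP.Plq1
import Pool.Agent.P.MP_d483fb_an.Z.HP.Info

/-!
Thin sets are null for the conditional measures on the plaques.
-/

open MeasureTheory ProbabilityTheory Set Filter Topology
open scoped ENNReal

set_option linter.unusedSectionVars false

noncomputable section

namespace Pool.Agent.P.MP_d483fb_an.Z.HP

open Pool.Agent.P.MP_d483fb_an.Z.Ent

namespace Plq

variable {X B : Type} [MetricSpace X] [MeasurableSpace X] [MetricSpace B] [MeasurableSpace B]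
  {μ : Measure X} (P : Plq X B μ)

/-- The closed conditions that define the relation on the labels. -/
def AF (k : ℕ) : Set ((((ℕ → ℝ) × (ℕ → ℕ × ℕ)) × ((ℕ → ℝ) × (ℕ → ℕ × ℕ))) × (X × X)) :=
  {p | P.lab p.2.1 = p.1.1.1 ∧ P.lab p.2.2 = p.1.2.1 ∧ ∀ i ≤ k,
    dist (P.b^[i] p.2.1) (P.b^[i] p.2.2) ≤ P.A * Real.exp (-P.kap * i) ∧ p.1.1.2 i = p.1.2.2 i}

theorem continuous_b (i : ℕ) : Continuous P.b^[i] :=
  (LipschitzWith.of_dist_le_mul (K := ⟨Real.exp P.Lp, (Real.exp_pos _).le⟩) P.lip_b).continuous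
    |>.iterate i

theorem isClosed_AF (k : ℕ) : IsClosed (P.AF k ∩ univ ×ˢ (P.K ×ˢ P.K)) := by
  set S : Set ((((ℕ → ℝ) × (ℕ → ℕ × ℕ)) × ((ℕ → ℝ) × (ℕ → ℕ × ℕ))) × (X × X)) :=
    univ ×ˢ (P.K ×ˢ P.K) with hS
  have hc : IsClosed S := isClosed_univ.prod (P.cpt.isClosed.prod P.cpt.isClosed)
  have h1 : IsClosed {p ∈ S | P.lab p.2.1 = p.1.1.1} :=
    hc.isClosed_eq (P.cont_lab.comp continuous_snd.fst.continuousOn fun p hp => hp.2.1)
      continuous_fst.fst.fst.continuousOn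
  have h2 : IsClosed {p ∈ S | P.lab p.2.2 = p.1.2.1} :=
    hc.isClosed_eq (P.cont_lab.comp continuous_snd.snd.continuousOn fun p hp => hp.2.2)
      continuous_fst.snd.fst.continuousOn
  have h3 : IsClosed {p : (((ℕ → ℝ) × (ℕ → ℕ × ℕ)) × ((ℕ → ℝ) × (ℕ → ℕ × ℕ))) × (X × X) |
      ∀ i ≤ k, dist (P.b^[i] p.2.1) (P.b^[i] p.2.2) ≤ P.A * Real.exp (-P.kap * i) ∧
        p.1.1.2 i = p.1.2.2 i} := by
    simp only [ofPred_forall]
    refine isClosed_iInter fun i => isClosed_iInter fun _ => IsClosed.inter ?_ ?_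
    · exact isClosed_le (((P.continuous_b i).comp continuous_snd.fst).dist
        ((P.continuous_b i).comp continuous_snd.snd)) continuous_const
    · exact isClosed_eq ((continuous_apply i).comp continuous_fst.fst.snd)
        ((continuous_apply i).comp continuous_fst.snd.snd)
  convert h1.inter (h2.inter h3) using 1
  ext p
  simp only [AF, mem_inter_iff, mem_ofPred_eq]
  tauto

theorem lusin_F : LusinRel fun δ z z' => ∃ v ∈ P.K ×ˢ P.K, ∀ k : ℕ, k * δ ≤ 1 →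
    ((z, z'), v) ∈ P.AF k := by
  refine lusinRel_seq (P.cpt.prod P.cpt) P.isClosed_AF fun z z' v hv h => ?_
  refine Prod.ext ?_ (funext fun i => ((h i).2.2 i le_rfl).2)
  rw [← (h 0).1, ← (h 0).2.1]
  exact P.sh2 _ hv.1 _ hv.2 fun i => ((h i).2.2 i le_rfl).1

theorem lusin_S {Z : Type} [TopologicalSpace Z] [T2Space Z] :
    LusinRel fun δ (z z' : Z × B) => ∃ v ∈ (univ : Set Unit), ∀ k : ℕ, k * δ ≤ 1 →
      ((z, z'), v) ∈ {p : ((Z × B) × (Z × B)) × Unit |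
        p.1.1.1 = p.1.2.1 ∧ k * dist p.1.1.2 p.1.2.2 ≤ 1} := by
  refine lusinRel_seq isCompact_univ (fun k => ?_) fun z z' v _ h => ?_
  · refine IsClosed.inter (IsClosed.inter ?_ ?_) (isClosed_univ.prod isClosed_univ)
    · exact isClosed_eq continuous_fst.fst.fst continuous_fst.snd.fst
    · exact isClosed_le (continuous_const.mul (continuous_fst.fst.snd.dist continuous_fst.snd.snd))
        continuous_const
  · refine Prod.ext (h 0).1 ?_
    by_contra hne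
    obtain ⟨k, hk⟩ := exists_nat_gt (1 / dist z.2 z'.2)
    rw [div_lt_iff₀ (dist_pos.2 hne)] at hk
    exact absurd (h k).2 (not_le.2 hk)

variable [BorelSpace X] [IsProbabilityMeasure μ]

theorem scale_Q (n : ℕ) : 0 ≤ 3 * P.eps * P.th * n := by
  have := P.eps_pos
  have := P.one_le_th
  positivity

/-- The partition of `K` at a subexponential scale. -/
def Q (n : ℕ) : X → ℕ := (P.cov _ (P.scale_Q n)).choose

theorem real_diff_le {G E : Set X} {η : ℝ} (hE : P.ν.real E ≤ η)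
    (h : ∀ᵐ x ∂P.ν, x ∉ E → x ∈ G) : P.ν.real (univ \ G) ≤ η := by
  refine le_trans (ENNReal.toReal_mono (measure_ne_top _ _) (measure_mono_ae ?_)) hE
  filter_upwards [h] with x hx h1
  by_contra h2
  exact h1.2 (hx h2)

theorem near_F : Near P.ν P.T P.d P.F (fun δ z z' => ∃ v ∈ P.K ×ˢ P.K, ∀ k : ℕ, k * δ ≤ 1 →
    ((z, z'), v) ∈ P.AF k) P.Q fun _ => univ := by
  intro δ hδ η hη
  obtain ⟨I, hI⟩ := exists_nat_ge (1 / δ)
  have hth : 0 < P.th := one_pos.trans_le P.one_le_th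
  have hA : 0 < P.A := one_pos.trans_le P.one_le_A
  have h1 := (P.tendsto_tn (c := 2 * P.th) (by linarith)).eventually (gt_mem_nhds hη)
  have h2 : ∀ᶠ n : ℕ in atTop, Real.log P.A + P.kap * I ≤ n * (P.eps * P.th) :=
    (tendsto_natCast_atTop_atTop.atTop_mul_const (mul_pos P.eps_pos hth)).eventually_ge_atTop _
  refine ⟨I + 1, ?_⟩
  filter_upwards [h1, h2] with n h3 h4 k hk hkn
  refine ⟨{y | P.Good y} ∩ {y | (P.tn n y : ℝ) ≤ 2 * P.th * n}, P.meas_Good.inter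
    (measurableSet_le (measurable_from_nat.comp (P.meas_tn n)) measurable_const),
    P.real_diff_le h3.le ?_, ?_⟩
  · filter_upwards [P.ae_Good] with x hx h5
    exact ⟨hx, not_lt.1 h5⟩
  rintro y ⟨⟨hy, ht⟩, -⟩ y' ⟨⟨hy', -⟩, -⟩ hQ hn
  have hy : P.Good y := hy
  have hy' : P.Good y' := hy'
  refine ⟨(P.T^[k] y, P.T^[k] y'), ⟨(hy k).1, (hy' k).1⟩, fun j hj => ⟨rfl, rfl, fun i hi => ?_⟩⟩
  have hiI : i ≤ I := by
    have : (j : ℝ) ≤ I := ((le_div_iff₀ hδ).2 hj).trans hI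
    exact hi.trans (by exact_mod_cast this)
  refine ⟨?_, ?_⟩
  · have h5 : i ≤ P.tn k y := (by omega : i ≤ k).trans (hy.le_tn k)
    have h6 := P.g3 y hy.mem y' (P.tn k y) (P.iterate_T k y ▸ (hy k).1)
      (P.cl_of_names hy hy' (by omega) hn) (P.tn k y - i) (Nat.sub_le _ _)
    simp only [iterate_T, ← P.tn_eq hn, P.b_a_of_le h5]
    refine h6.trans ?_
    rw [Nat.cast_sub h5, sub_sub_cancel]
    have h7 := (P.cov _ (P.scale_Q n)).choose_spec.2.2 y hy.mem y' hy'.mem hQ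
    have h8 : (P.tn k y : ℝ) ≤ 2 * P.th * n :=
      le_trans (by exact_mod_cast P.tn_mono y hkn.le) ht
    have h9 : Real.exp (-P.kap' * i) ≤ Real.exp (-P.kap * i) :=
      Real.exp_le_exp.2 (mul_le_mul_of_nonneg_right (neg_le_neg P.kap_lt.le) (Nat.cast_nonneg _))
    have h10 : P.A * Real.exp (P.eps * P.tn k y) * dist y y' ≤ Real.exp (-P.kap * i) := by
      refine (mul_le_mul_of_nonneg_left h7 (by positivity)).trans ?_
      rw [← Real.exp_log hA, ← Real.exp_add, ← Real.exp_add]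
      refine Real.exp_le_exp.2 ?_
      have h11 : (i : ℝ) ≤ I := by exact_mod_cast hiI
      nlinarith [mul_le_mul_of_nonneg_left h8 P.eps_pos.le,
        mul_le_mul_of_nonneg_left h11 P.kap_pos.le]
    nlinarith [mul_le_mul_of_nonneg_left h9 (sub_nonneg.2 P.one_le_A)]
  · simp only [F]
    rw [hy.inv_iter (by omega), hy'.inv_iter (by omega)]
    exact hn _ (by omega)

theorem near_S : Near P.ν P.T P.d (pr2 P.F P.π) (fun δ z z' => ∃ v ∈ (univ : Set Unit),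
    ∀ k : ℕ, k * δ ≤ 1 → ((z, z'), v) ∈ {p : ((_ × B) × (_ × B)) × Unit |
      p.1.1.1 = p.1.2.1 ∧ k * dist p.1.1.2 p.1.2.2 ≤ 1})
    (fun n => pr2 P.F (P.sig (P.N1 n))) fun _ => univ := by
  intro δ hδ η hη
  obtain ⟨j, hj⟩ := P.c1 δ hδ
  have hth : 0 < P.th := one_pos.trans_le P.one_le_th
  have he := mul_pos (half_pos P.eps_pos) hth
  have h1 := (P.tendsto_tn (c := (1 + P.eps / 2) * P.th) (by linarith)).eventually
    (gt_mem_nhds hη)
  have h2 : ∀ᶠ n : ℕ in atTop, (j : ℝ) ≤ n * (P.eps / 2 * P.th) :=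
    (tendsto_natCast_atTop_atTop.atTop_mul_const he).eventually_ge_atTop _
  obtain ⟨t, ht, htm, ht0⟩ := exists_measurable_superset_of_null (mem_ae_iff.1 P.aeW)
  have hW : ∀ x, x ∉ t → x ∈ P.W := fun x hx => by
    by_contra h
    exact hx (ht h)
  refine ⟨0, ?_⟩
  filter_upwards [h1, h2] with n h3 h4 k _ hkn
  refine ⟨({y | P.Good y} ∩ tᶜ) ∩ {y | (P.tn n y : ℝ) ≤ (1 + P.eps / 2) * P.th * n},
    (P.meas_Good.inter htm.compl).inter
    (measurableSet_le (measurable_from_nat.comp (P.meas_tn n)) measurable_const),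
    P.real_diff_le h3.le ?_, ?_⟩
  · filter_upwards [P.ae_Good, measure_eq_zero_iff_ae_notMem.1 ht0] with x hx h6 h5
    exact ⟨⟨hx, h6⟩, not_lt.1 h5⟩
  rintro y ⟨⟨⟨hy, hw⟩, h5⟩, -⟩ y' ⟨⟨⟨hy', hw'⟩, -⟩, -⟩ hg hn
  have hy : P.Good y := hy
  have hy' : P.Good y' := hy'
  obtain ⟨h6, h7⟩ := Prod.ext_iff.1 hg
  refine ⟨(), trivial, fun i hi => ⟨P.F_iter hy hy' h6 hn, ?_⟩⟩
  refine le_trans (mul_le_mul_of_nonneg_left ?_ (Nat.cast_nonneg _)) hi
  simp only [iterate_T, ← P.tn_eq hn]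
  refine hj (P.N1 n) _ ?_ y (hW y hw) y' (hW y' hw') (congrArg Prod.fst h6) h7
    (P.iterate_T k y ▸ (hy k).1)
  have h8 : (P.tn k y : ℝ) ≤ (1 + P.eps / 2) * P.th * n :=
    le_trans (by exact_mod_cast P.tn_mono y hkn.le) h5
  have h9 : (1 + P.eps) * P.th * n ≤ P.N1 n := Nat.le_ceil _
  have h10 : (P.tn k y : ℝ) + j ≤ P.N1 n := by nlinarith
  exact_mod_cast h10

/-- Sets that meet few transversal cells are null for the conditional measures on the plaques. -/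
theorem plaque [PolishSpace X] [Nonempty X] [PolishSpace B] [BorelSpace B] {c : ℝ}
    (hc : (1 + P.eps) * c < P.hU - 3 * P.eps * P.dm) :
    ∀ᵐ x ∂P.ν, ∀ A : Set X, MeasurableSet A →
      (∃ C : ℝ, ∀ N : ℕ, ∃ s : Finset ℕ, (s.card : ℝ) ≤ C * Real.exp (N * c) ∧
        ∀ y ∈ A, P.lab y = P.lab x → P.sig N y ∈ s) → cp P.ν P.lab x A = 0 := by
  have hth : 0 < P.th := one_pos.trans_le P.one_le_th
  have h1 := gap P.erg_T P.meas_d P.finEnt_d P.meas_F P.meas_π P.incr_S P.lusin_F (Q := P.Q)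
    (fun n => (P.cov _ (P.scale_Q n)).choose_spec.1) (c1 := 3 * P.eps * P.th * P.dm) (C := P.C)
    (fun n x => ((P.cov _ (P.scale_Q n)).choose_spec.2.1 x).trans_eq (by congr 1; ring))
    P.near_F P.bowen
  have h2 : (1 + P.eps) * P.th * c < Hc P.ν P.d P.F - Hc P.ν P.d (pr2 P.F P.π) := by
    nlinarith [mul_lt_mul_of_pos_left hc hth]
  obtain ⟨c', h3, h4⟩ := exists_between h2
  have h5 := digit_lower P.erg_T P.meas_d P.finEnt_d P.meas_F (P.meas_F.prodMk P.meas_π)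
    P.incr_F P.incr_S (Det.fst _ _) lusin_S (sig := fun n => P.sig (P.N1 n))
    (fun n => P.meas_sig _) (fun n => ⟨P.W, P.aeW, fun y hy y' hy' h =>
      P.c0 y hy y' hy' (congrArg (fun z => z.1.1) h) (congrArg Prod.snd h) _⟩)
    P.near_S (sub_pos.2 h4)
  rw [sub_sub_cancel] at h5
  filter_upwards [thin P.meas_F P.meas_lab (Det.of_forall fun x y h => congrArg Prod.fst h)
    (fun n => P.meas_sig (P.N1 n)) h3 h5] with x hx A hA ⟨C, hC⟩
  refine hx A hA ⟨|C| * Real.exp |c|, fun n => ?_⟩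
  obtain ⟨s, h6, h7⟩ := hC (P.N1 n)
  refine ⟨s, h6.trans ?_, h7⟩
  rw [mul_assoc, ← Real.exp_add]
  refine mul_le_mul (le_abs_self C) (Real.exp_le_exp.2 ?_) (Real.exp_pos _).le (abs_nonneg C)
  have h8 : (1 + P.eps) * P.th * n ≤ P.N1 n := Nat.le_ceil _
  have h9 : (P.N1 n : ℝ) < (1 + P.eps) * P.th * n + 1 :=
    Nat.ceil_lt_add_one (by have := P.eps_pos; positivity)
  rcases le_total 0 c with h0 | h0
  · rw [abs_of_nonneg h0]
    nlinarith [mul_le_mul_of_nonneg_right h9.le h0]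
  · rw [abs_of_nonpos h0]
    nlinarith [mul_le_mul_of_nonpos_right h8 h0]

end Plq

end Pool.Agent.P.MP_d483fb_an.Z.HP
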