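import Pool.Agent.P.MP_d483fb_an.Z.HP.Glue0
import Pool.Agent.P.MP_d483fb_an.Z.HP.Plq2
import Pool.Agent.P.MP_d483fb_an.Z.HP.BowA
import Pool.Agent.P.MP_d483fb_an.Z.HP.Final
import Pool.Agent.P.MP_d483fb_an.Z.Geo.ToLS

/-!
The leafwise measures of a measure that projects on an invariant measure of the base vanish on
the proper algebraic subsets of the horospherical group.
-/

open scoped Matrix Matrix.Norms.Operator Topology ENNReal
open MeasureTheory ProbabilityTheory NormedSpace Filter Set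

set_option linter.unusedSectionVars false

noncomputable section

namespace Pool.Agent.P.MP_d483fb_an.Z

open Pool.Agent.P.MP_d483fb_an.Z.NE

variable {G : Type} [Group G] [TopologicalSpace G] [IsTopologicalGroup G] {n k : ℕ}
  {B : Type} [MetricSpace B] [ProperSpace B] [MeasurableSpace B] [BorelSpace B]
  [MulAction G B] [ContinuousSMul G B] {X : Type} [MetricSpace X] [ProperSpace X]
  [MeasurableSpace X] [BorelSpace X] [MulAction G X]
  {D : Std G n k} {μ : Measure X} [IsProbabilityMeasure μ] {κ : Type} [Fintype κ] [DecidableEq κ]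

/-- Closeness at the scale of the last visit implies closeness at the tempered scale. -/
theorem GeoPre.close_of_cl (S : GeoPre D B X μ κ) {ε q0 : ℝ} {q : X → ℝ}
    (hq : S.toPre.Temp ε q) {K : Set X} (hK : ∀ y ∈ K, y ∈ S.X0 ∧ q y ≤ q0) {t : ℕ} {y y' : X}
    (h : HP.Cl S.toPre.aE K q0⁻¹ ε t y y') :
    ∀ i ≤ t, dist (S.toPre.a i y) (S.toPre.a i y') ≤ 1 / q (S.toPre.a i y) := by
  intro i hi
  obtain ⟨s, hs, h1, h2⟩ := h i hi
  obtain ⟨m, rfl⟩ := Nat.exists_eq_add_of_le' hs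
  simp only [Pre.aE_iterate] at h1 h2
  refine h2.trans ?_
  have h3 := (Geo.slow_nat hq (hK _ h1).1 m).1
  rw [← Pre.a_add, ← Nat.cast_add] at h3
  have h4 : 0 < q (S.toPre.a (m + s : ℕ) y) := one_pos.trans_le (hq.one_le _)
  have h5 := h3.trans (mul_le_mul_of_nonneg_right (hK _ h1).2 (Real.exp_pos _).le)
  rw [Nat.cast_add, add_sub_cancel_right, neg_mul, Real.exp_neg, ← mul_inv, one_div]
  exact inv_anti₀ h4 h5

theorem GeoLS.plaque [Nonempty X] (S : GeoLS D B X μ κ) (d : ℕ) :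
    ∃ (K : Set X) (lab : X → ℕ → ℝ), MeasurableSet K ∧ μ K ≠ 0 ∧ Measurable lab ∧
      (∀ y ∈ K, ∀ y' ∈ K, lab y = lab y' → S.R y y' ∧ S.toPre.N y y' ≤ 1) ∧
      (∀ y ∈ K, ∀ y' ∈ K, S.R y y' → S.toPre.N y y' ≤ 1 → lab y = lab y') ∧
      ∀ᵐ x ∂μ[|K], ∀ F : MvPolynomial (Fin n × Fin n) ℝ, F.totalDegree ≤ d →
        (∃ Y ∈ D.np S.Ha, MvPolynomial.eval (fun p => exp Y p.1 p.2) F ≠ 0) →
        condDistrib id lab μ[|K] (lab x) {y | y ∈ K ∧ lab y = lab x ∧
          MvPolynomial.eval (fun p => (S.T x y).toBlocks₁₁ p.1 p.2) F = 0} = 0 := by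
  have hs := D.nilSub_np S.Ha
  let _ : MeasurableSpace (D.np S.Ha) := borel _
  have : BorelSpace (D.np S.Ha) := ⟨rfl⟩
  obtain ⟨cell, hcm, hc1, hc2⟩ := hs.exists_cell one_pos
  obtain ⟨kd, hkd, hcount⟩ := hs.cell_count cell (hc2 _ (by
    simpa [Metric.closedBall] using Metric.isBounded_closedBall (x := (0 : D.np S.Ha)) (r := 1))) d
  obtain ⟨K1, -, hK1, hK1'⟩ := MeasurableSet.univ.exists_lt_isCompact_of_ne_top (μ := μ)
    (measure_ne_top _ _) (r := 0) (by simp)
  obtain ⟨Cc, hCc⟩ := S.cover K1 hK1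
  obtain ⟨ε, hε, hε'⟩ : ∃ ε : ℝ, 0 < ε ∧ (1 + ε) * (hs.ent - kd) < hs.ent - 3 * ε * |Cc| := by
    have h1 : Continuous fun ε : ℝ => (1 + ε) * (hs.ent - kd) + 3 * ε * |Cc| := by fun_prop
    have h2 : ∀ᶠ ε in 𝓝 (0 : ℝ), (1 + ε) * (hs.ent - kd) + 3 * ε * |Cc| < hs.ent :=
      h1.continuousAt.eventually (gt_mem_nhds (by simpa using hkd))
    obtain ⟨ε, h3, h4⟩ := ((h2.filter_mono nhdsWithin_le_nhds).and
      (self_mem_nhdsWithin (s := Ioi 0))).exists
    exact ⟨ε, h4, by linarith⟩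
  obtain ⟨q, hq, hE, hBd, -, hbox⟩ := S.good hε
  obtain ⟨q0, hq0⟩ : ∃ q0 : ℕ, μ (K1 ∩ {x | q x ≤ q0}) ≠ 0 := by
    by_contra h
    push Not at h
    refine hK1'.ne' (measure_mono_null (fun x hx => ?_) (measure_iUnion_null h))
    obtain ⟨m, hm⟩ := exists_nat_ge (q x)
    exact mem_iUnion.2 ⟨m, hx, hm⟩
  obtain ⟨A, K0, lab, hA, hK0, hK0s, hK0p, hl, hK0q, hK0b⟩ := hbox q0 _
    (hK1.isClosed.measurableSet.inter (measurableSet_le hq.meas measurable_const))
    inter_subset_right hq0 1 one_pos 1 (q0 + 1) 1 one_pos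
  obtain ⟨K, hKs, hK, hKp, hKc⟩ :=
    HP.exists_compact_continuousOn μ hl hK0.isClosed.measurableSet hK0p
  have hKm := hK.isClosed.measurableSet
  have hKq : ∀ y ∈ K, y ∈ S.X0 ∧ q y ≤ q0 := fun y hy => hK0q y (hKs hy)
  have hR : ∀ y ∈ K, ∀ y' ∈ K, lab y = lab y' → S.R y y' ∧ S.toPre.N y y' ≤ 1 :=
    fun y hy y' hy' e => ((hK0b y (hKs hy) y' (hKs hy')).2.2.1 e).imp_right And.left
  refine ⟨K, lab, hKm, hKp, hl, hR, fun y hy y' hy' => (hK0b y (hKs hy) y' (hKs hy')).2.2.2, ?_⟩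
  have hq1 : (1 : ℝ) ≤ q0 := by
    obtain ⟨y, hy⟩ := nonempty_of_measure_ne_zero hKp
    exact (hq.one_le y).trans (hKq y hy).2
  have := cond_isProbabilityMeasure (μ := μ) hKp
  obtain ⟨z, hz, hz'⟩ := exists_sel μ[|K] hl hKm (X' := univ) (Eventually.of_forall fun _ => trivial)
  have hπQ : IsCompact (S.π '' K) := hK.image S.π_cont
  obtain ⟨Wg, hWg, hfree⟩ := S.inj _ hπQ
  obtain ⟨C7, hC7⟩ := hE.G7
  have hπm : Measurable S.π := S.π_cont.measurable
  obtain ⟨Cb, hCb, hbow⟩ := D.bow_base_all S.Ha (μ.map S.π) S.base hWg hfree |C7|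
  obtain ⟨kc, hkc, hcon⟩ := hs.norm_dlu_le
  have hUm : Measurable fun y => S.toGeoPre.U (z (lab y)) y :=
    S.toGeoPre.continuous_lb.measurable.comp (S.measT.comp ((hz.comp hl).prodMk measurable_id))
  have hzR : ∀ x, lab (z (lab x)) = lab x ∧ z (lab x) ∈ K → ∀ y ∈ K, lab y = lab x →
      S.R (z (lab x)) y ∧ S.toPre.N (z (lab x)) y ≤ 1 :=
    fun x hx y hy e => hR _ hx.2 y hy (hx.1.trans e.symm)
  let P : HP.Plq X B μ :=
    { a := S.toPre.aE
      b := S.toPre.aE.symm
      K := K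
      lab := lab
      π := S.π
      sig := fun N y => cell (hs.dlu N (S.toGeoPre.U (z (lab y)) y))
      W := {y | y ∈ K ∧ lab (z (lab y)) = lab y ∧ z (lab y) ∈ K}
      kap := S.kap
      kap' := S.kap'
      Lp := |S.Lp|
      eps := ε
      A := A
      eta := (q0 : ℝ)⁻¹
      hU := hs.ent
      C := max (Real.log Cb) (Real.log (|Cc| * 2 ^ |Cc| + 1))
      dm := |Cc|
      erg := S.toPre.ergodic_aE
      meas_b := S.toPre.aE.symm.measurable
      linv := S.toPre.aE.symm_apply_apply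
      cpt := hK
      pos := hKp
      meas_lab := hl
      cont_lab := hKc
      meas_π := hπm
      meas_sig := fun N => hcm.comp ((hs.dlu N).continuous.measurable.comp hUm)
      kap_pos := S.kap_pos
      kap_lt := S.kap_lt
      Lp_nonneg := abs_nonneg _
      eps_pos := hε
      eta_pos := by positivity
      eta_le := inv_le_one_of_one_le₀ hq1
      one_le_A := by linarith
      dm_nonneg := abs_nonneg _
      lip_a := fun x y => by
        simpa [Pre.aE_apply] using Geo.lip' S.toGeoPre 1 (m := 1) (by simp) x y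
      lip_b := fun x y => by
        simpa [Pre.aE_symm_apply] using Geo.lip' S.toGeoPre (-1) (m := 1) (by simp) x y
      sh1 := fun y hy y' hy' e i => by
        simp only [Pre.aE_symm_iterate]
        exact (((hK0b y (hKs hy) y' (hKs hy')).2.2.1 e).2.2 i).trans
          (mul_le_mul_of_nonneg_right (by linarith) (Real.exp_pos _).le)
      sh2 := fun y hy y' hy' h => by
        simp only [Pre.aE_symm_iterate] at h
        exact (hK0b y (hKs hy) y' (hKs hy')).2.1.2 h
      g3 := fun y hy y' t ht h i hi => by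
        have h1 := hE.G3 y (hKq y hy).1 y' t (S.toGeoPre.close_of_cl hq hKq h) i hi
        simp only [Pre.aE_iterate] at ht ⊢
        refine h1.trans (add_le_add
          (mul_le_mul_of_nonneg_right (by linarith [(hKq _ ht).2]) (Real.exp_pos _).le)
          (mul_le_mul_of_nonneg_right (mul_le_mul_of_nonneg_right (by linarith [(hKq _ hy).2])
            (Real.exp_pos _).le) dist_nonneg))
      bow := fun y hy t => by
        refine le_trans (measure_mono ?_) ((hbow t _ ⟨y, hy, rfl⟩).trans ?_)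
        · rintro _ ⟨y', h, rfl⟩
          have h1 := S.toGeoPre.close_of_cl hq hKq h
          obtain ⟨Y, h2, h3, h4⟩ := hC7 y (hKq y hy).1 y' t h1
          have h5 : ∀ i ≤ t, ‖D.Ad (D.a S.Ha ^ i) Y‖ ≤ |C7| := fun i hi => by
            refine (h4 i hi).trans ((mul_le_mul_of_nonneg_right (le_abs_self _) dist_nonneg).trans
              (mul_le_of_le_one_right (abs_nonneg _) ((h1 i hi).trans ?_)))
            rw [one_div]
            exact inv_le_one_of_one_le₀ (hq.one_le _)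
          exact ⟨Y, h2, h3, by simpa [D.Ad_one] using h5 0 (Nat.zero_le _), h5 t le_rfl⟩
        · refine ENNReal.ofReal_le_ofReal ?_
          rw [sub_eq_add_neg, Real.exp_add]
          refine mul_le_mul_of_nonneg_right ?_ (Real.exp_pos _).le
          rw [← Real.log_le_iff_le_exp hCb]
          exact le_max_left _ _
      cov := fun s hs0 => by
        obtain ⟨c, h1, h2, h3⟩ := HP.exists_cells hCc s hs0
        exact ⟨c, h1, fun x => (h2 x).trans
          (Real.exp_le_exp.2 (add_le_add (le_max_right _ _) le_rfl)),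
          fun y hy y' hy' => h3 y (hK0s (hKs hy)).1 y' (hK0s (hKs hy')).1⟩
      π_a := fun y y' => by
        have h1 := S.toGeoPre.π_a 1
        simp only [Nat.cast_one] at h1
        rw [Pre.aE_apply, Pre.aE_apply, h1, h1, smul_left_cancel_iff]
      aeW := by
        filter_upwards [hz', ae_cond_mem hKm] with x h1 h2
        exact ⟨h2, (h1 h2).1, (h1 h2).2.1⟩
      c0 := fun y hy y' hy' e e' N => by
        have h1 := (hR y hy.1 y' hy'.1 e).1
        rw [← e, GeoPre.U_trans (hzR y hy.2 y hy.1 rfl).1 h1, GeoPre.U_eq_zero h1 e', hs.star_zero]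
      c1 := fun δ hδ => by
        obtain ⟨r, hr, h1⟩ := D.exists_small hπQ hδ
        obtain ⟨j, hj⟩ := Geo.exists_nat_exp hkc 1 hr
        refine ⟨j, fun N t hN y hy y' hy' e e' ht => ?_⟩
        have h2 := (hR y hy.1 y' hy'.1 e).1
        have h3 := hc1 _ _ e'
        rw [← e, GeoPre.U_trans (hzR y hy.2 y hy.1 rfl).1 h2, hs.dlu_star, hs.neg_star_star] at h3
        simp only [Pre.aE_iterate] at ht ⊢
        rw [GeoPre.π_a_eq h2]
        refine h1 _ (neg_mem (hs.dlu t _).2.1) ?_ _ ⟨_, ht, rfl⟩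
        have h4 := hcon ((N - t : ℕ) : ℝ) (Nat.cast_nonneg _) (hs.dlu N (S.toGeoPre.U y y'))
        rw [← hs.dlu_add, Nat.cast_sub (by omega), neg_sub, sub_add_cancel] at h4
        have h5 := hj (N - t) (by omega)
        rw [Nat.cast_sub (by omega), one_mul] at h5
        rw [norm_neg]
        exact h4.trans ((mul_le_of_le_one_right (Real.exp_pos _).le h3).trans h5) }
  have hW : IsCompact (S.toGeoPre.lb '' {M | ‖M‖ ≤ q0 * q0}) :=
    (isCompact_norm_le _).image S.toGeoPre.continuous_lb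
  filter_upwards [P.plaque hε', P.aeW] with x hx hw F hF ⟨Y, hY, hY'⟩
  have hzx := (hzR x hw.2 x hw.1 rfl).1
  have hxz := S.R_symm _ _ hzx
  obtain ⟨F2, hd2, hF2⟩ := exists_translate F (S.T x (z (lab x))).toBlocks₁₁ 1
  obtain ⟨C, -, hC⟩ := hcount F2 (hd2.trans hF)
    ⟨hs.star (-S.toGeoPre.U x (z (lab x))) ⟨Y, hY⟩, by
      rwa [hF2, mul_one, ← (GeoPre.U_spec hxz).1, ← hs.exp_star, hs.star_neg_star]⟩ _ hW.isBounded
  refine hx _ (hKm.inter (MeasurableSet.inter (hl (measurableSet_singleton _)) ?_)) ⟨C, fun N => ?_⟩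
  · have h1 : Continuous fun M : Matrix (Fin n ⊕ κ) (Fin n ⊕ κ) ℝ =>
        MvPolynomial.eval (fun p => M.toBlocks₁₁ p.1 p.2) F :=
      (contDiff_eval (n := 0) F).continuous.comp (f := Matrix.toBlocks₁₁)
        (continuous_matrix fun i j => continuous_apply_apply _ _)
    exact measurableSet_eq_fun
      (h1.measurable.comp (S.measT.comp (measurable_const.prodMk measurable_id))) measurable_const
  · obtain ⟨T, h1, h2⟩ := hC N (Nat.cast_nonneg _)
    refine ⟨T, h1, fun y hy e => ?_⟩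
    obtain ⟨h3, h4⟩ := hzR x hw.2 y hy.1 e
    have e : lab y = lab x := e
    change cell (hs.dlu N (S.toGeoPre.U (z (lab y)) y)) ∈ T
    rw [e]
    refine h2 _ ⟨_, (hBd _ _ h3 h4).1.trans (mul_le_mul (hKq _ hw.2.2).2 (hKq _ hy.1).2
      (zero_le_one.trans (hq.one_le _)) (by positivity)), rfl⟩ ?_
    rw [hF2, mul_one, (GeoPre.U_spec h3).1, ← GeoPre.blk_trans hxz h3]
    exact hy.2.2

theorem GeoLS.hasHP {X : Type} [MetricSpace X] [ProperSpace X] [MeasurableSpace X] [BorelSpace X]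
    [MulAction G X] [ContinuousSMul G X] {D : Std G n k} {μ : Measure X} [IsProbabilityMeasure μ]
    {κ : Type} [Fintype κ] [DecidableEq κ] (S : GeoLS D B X μ κ) : S.toGeoPre.HasHP := by
  have : Nonempty X := nonempty_of_isProbabilityMeasure μ
  exact S.toGeoPre.hasHP_of_plaque S.plaque

end Pool.Agent.P.MP_d483fb_an.Z
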