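import Pool.Agent.P.MP_d483fb_an.Z.HP.NilExp

/-!
Lebesgue measure in exponential coordinates is a two sided Haar measure of a unipotent group that
is stable under a contracting dilation.
-/

open scoped Matrix Matrix.Norms.Operator Topology ENNReal
open NormedSpace Filter Set MeasureTheory

set_option linter.unusedSectionVars false

noncomputable section

namespace Pool.Agent.P.MP_d483fb_an.Z.NE

section Abs

variable {V : Type} [NormedAddCommGroup V] [NormedSpace ℝ V] [FiniteDimensional ℝ V]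

theorem abs_det_fderiv (st : V → V → V) (hst : ContDiff ℝ 1 fun p : V × V => st p.1 p.2)
    (δ : ℝ → V →ₗ[ℝ] V) (hδ0 : ∀ t, LinearMap.det (δ t) ≠ 0)
    (hδ : ∀ t X Y, δ t (st X Y) = st (δ t X) (δ t Y))
    (hlim : ∀ X, Tendsto (fun t => δ t X) atBot (𝓝 0)) (h0 : ∀ X, st 0 X = X) (Y X : V) :
    (fderiv ℝ (st Y) X).det = 1 := by
  have hd : ∀ Y, Differentiable ℝ (st Y) := fun Y =>
    (hst.comp (contDiff_const.prodMk contDiff_id)).differentiable one_ne_zero
  set J : V × V → ℝ := fun p => (fderiv ℝ (st p.1) p.2).det with hJ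
  have hc : Continuous J := by
    refine ContinuousLinearMap.continuous_det.comp ?_
    refine (ContDiff.fderiv (n := 0) (m := 1) (f := fun p : V × V => st p.1) ?_ contDiff_snd
      (by norm_num)).continuous
    exact hst.comp (contDiff_fst.fst.prodMk contDiff_snd)
  have hinv : ∀ t, J (δ t Y, δ t X) = J (Y, X) := by
    intro t
    set L := LinearMap.toContinuousLinearMap (δ t) with hL
    have h1 : st (δ t Y) ∘ L = L ∘ st Y := funext fun Z => (hδ t Y Z).symm
    have h2 := (hd (δ t Y) (L X)).hasFDerivAt.comp X L.hasFDerivAt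
    have h3 := L.hasFDerivAt.comp X (hd Y X).hasFDerivAt
    rw [h1] at h2
    have h4 := congrArg ContinuousLinearMap.det (h2.unique h3)
    have hcomp : ∀ A B : V →L[ℝ] V, (A.comp B).det = A.det * B.det := fun A B =>
      LinearMap.det_comp (A : V →ₗ[ℝ] V) (B : V →ₗ[ℝ] V)
    rw [hcomp, hcomp, mul_comm] at h4
    exact mul_left_cancel₀ (hδ0 t) h4
  have h00 : J (0, 0) = 1 := by
    have : st 0 = id := funext h0
    simp only [hJ, this, fderiv_id, ContinuousLinearMap.det, ContinuousLinearMap.coe_id,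
      LinearMap.det_id]
  have h5 := (hc.tendsto (0, 0)).comp ((hlim Y).prodMk_nhds (hlim X))
  have h6 : (J ∘ fun t => (δ t Y, δ t X)) = fun _ => J (Y, X) := funext hinv
  rw [h6, h00] at h5
  exact tendsto_nhds_unique tendsto_const_nhds h5

variable [MeasurableSpace V] [BorelSpace V] (μ : Measure V) [μ.IsAddHaarMeasure]

theorem abs_measure_image (st : V → V → V) (hst : ContDiff ℝ 1 fun p : V × V => st p.1 p.2)
    (δ : ℝ → V →ₗ[ℝ] V) (hδ0 : ∀ t, LinearMap.det (δ t) ≠ 0)
    (hδ : ∀ t X Y, δ t (st X Y) = st (δ t X) (δ t Y))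
    (hlim : ∀ X, Tendsto (fun t => δ t X) atBot (𝓝 0)) (h0 : ∀ X, st 0 X = X)
    (hinj : ∀ Y, Function.Injective (st Y)) (Y : V) (s : Set V) (hs : MeasurableSet s) :
    μ (st Y '' s) = μ s := by
  have hd : Differentiable ℝ (st Y) :=
    (hst.comp (contDiff_const.prodMk contDiff_id)).differentiable one_ne_zero
  rw [← lintegral_abs_det_fderiv_eq_addHaar_image μ hs
    (fun X _ => (hd X).hasFDerivAt.hasFDerivWithinAt) (hinj Y).injOn]
  simp [abs_det_fderiv st hst δ hδ0 hδ hlim h0]

theorem abs_neg : μ.IsNegInvariant := inferInstance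

end Abs

variable {ι : Type} [Fintype ι] [DecidableEq ι] {w : ι → ℝ}

/-- `exp u` is a group of unipotent matrices that is stable under the dilations. -/
structure NilSub (w : ι → ℝ) (u : Submodule ℝ (Matrix ι ι ℝ)) : Prop where
  le : u ≤ Fil w 1
  dl_mem : ∀ t, ∀ X ∈ u, dl w t X ∈ u
  mul_mem : ∀ X ∈ u, ∀ Y ∈ u, nlog (exp X * exp Y) ∈ u

theorem exp_injOn : ∃ U ∈ 𝓝 (0 : Matrix ι ι ℝ), InjOn exp U := by
  have h := hasStrictFDerivAt_exp_zero (𝕂 := ℝ) (𝔸 := Matrix ι ι ℝ)
  have h' : HasStrictFDerivAt (exp : Matrix ι ι ℝ → Matrix ι ι ℝ)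
      (ContinuousLinearEquiv.refl ℝ (Matrix ι ι ℝ) : Matrix ι ι ℝ →L[ℝ] Matrix ι ι ℝ) 0 := h
  exact ⟨_, h'.eventually_left_inverse, fun X hX Y hY he => by
    have h1 : h'.localInverse _ _ _ (exp X) = X := hX
    have h2 : h'.localInverse _ _ _ (exp Y) = Y := hY
    rw [← h1, ← h2, he]⟩

/-- The logarithm of a unipotent element of a dilation stable set `S` lies in its tangent space. -/
theorem nlog_mem_of_nhds {S : Set (Matrix ι ι ℝ)} {h : Submodule ℝ (Matrix ι ι ℝ)}
    (hS : ∀ t, ∀ g ∈ S, dl w t g ∈ S) (hh : ∀ t, ∀ X ∈ h, dl w t X ∈ h)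
    (hn : 𝓝[S] 1 ≤ Filter.map exp (𝓝[h] 0)) {g : Matrix ι ι ℝ} (hg : g ∈ S)
    (hg1 : 1 - g ∈ Fil w 1) : nlog g ∈ h := by
  obtain ⟨U, hU, hinj⟩ := exp_injOn (ι := ι)
  have h1 : Tendsto (fun t => dl w t (nlog g)) atBot (𝓝 0) := tendsto_dl (nlog_mem hg1)
  have h2 : Tendsto (fun t => dl w t g) atBot (𝓝[S] 1) := by
    refine tendsto_nhdsWithin_iff.2 ⟨?_, Eventually.of_forall fun t => hS t g hg⟩
    have h3 := (tendsto_dl hg1).const_sub 1
    simpa only [map_sub, map_one, sub_sub_cancel, sub_zero] using h3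
  have h4 : exp '' (U ∩ h) ∈ Filter.map exp (𝓝[h] (0 : Matrix ι ι ℝ)) :=
    image_mem_map (inter_mem (mem_nhdsWithin_of_mem_nhds hU) self_mem_nhdsWithin)
  obtain ⟨t, ⟨Z, hZ, hZe⟩, ht⟩ := ((h2.eventually (hn h4)).and (h1.eventually hU)).exists
  have h5 : Z = dl w t (nlog g) := hinj hZ.1 ht (by rw [hZe, ← dl_exp, exp_nlog hg1])
  have h6 := hh (-t) Z hZ.2
  rwa [h5, ← dl_add, neg_add_cancel, dl_zero] at h6

theorem nilSub_of_nhds {S : Submonoid (Matrix ι ι ℝ)} {h u : Submodule ℝ (Matrix ι ι ℝ)}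
    (hS : ∀ t, ∀ g ∈ S, dl w t g ∈ S) (hh : ∀ t, ∀ X ∈ h, dl w t X ∈ h)
    (hn : 𝓝[S] (1 : Matrix ι ι ℝ) ≤ Filter.map exp (𝓝[h] 0)) (he : ∀ X ∈ h, exp X ∈ S) (hu : u = h ⊓ Fil w 1) :
    NilSub w u := by
  subst hu
  refine ⟨inf_le_right, fun t X hX => ⟨hh t X hX.1, dl_mem_Fil t hX.2⟩, fun X hX Y hY => ?_⟩
  have h1 := one_sub_mul_mem (one_sub_exp_mem hX.2) (one_sub_exp_mem hY.2)
  exact ⟨nlog_mem_of_nhds hS hh hn (S.mul_mem (he X hX.1) (he Y hY.1)) h1, nlog_mem h1⟩

theorem nilSub_Fil : NilSub w (Fil w 1) :=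
  ⟨le_rfl, fun t _ hX => dl_mem_Fil t hX, fun _ hX _ hY =>
    nlog_mem (one_sub_mul_mem (one_sub_exp_mem hX) (one_sub_exp_mem hY))⟩

namespace NilSub

variable {u : Submodule ℝ (Matrix ι ι ℝ)} (h : NilSub w u)

/-- The group law in exponential coordinates. -/
def star (X Y : u) : u := ⟨nlog (exp X.1 * exp Y.1), h.mul_mem _ X.2 _ Y.2⟩

theorem exp_star (X Y : u) : exp (h.star X Y).1 = exp X.1 * exp Y.1 :=
  exp_nlog (one_sub_mul_mem (one_sub_exp_mem (h.le X.2)) (one_sub_exp_mem (h.le Y.2)))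

include h in
theorem exp_inj {X Y : u} (he : exp X.1 = exp Y.1) : X = Y :=
  Subtype.ext (by rw [← nlog_exp (h.le X.2), he, nlog_exp (h.le Y.2)])

theorem exp_neg_mul (X : Matrix ι ι ℝ) : exp (-X) * exp X = 1 := by
  rw [← Matrix.exp_add_of_commute _ _ (Commute.refl X).neg_left, neg_add_cancel, exp_zero]

theorem exp_mul_neg (X : Matrix ι ι ℝ) : exp X * exp (-X) = 1 := by
  simpa using exp_neg_mul (-X)

theorem star_assoc (X Y Z : u) : h.star (h.star X Y) Z = h.star X (h.star Y Z) :=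
  h.exp_inj (by simp only [exp_star, mul_assoc])

theorem zero_star (X : u) : h.star 0 X = X := h.exp_inj (by simp [exp_star])

theorem star_zero (X : u) : h.star X 0 = X := h.exp_inj (by simp [exp_star])

theorem neg_star_self (X : u) : h.star (-X) X = 0 :=
  h.exp_inj (by simp [exp_star, exp_neg_mul])

theorem star_neg_self (X : u) : h.star X (-X) = 0 :=
  h.exp_inj (by simp [exp_star, exp_mul_neg])

theorem neg_star_star (Y X : u) : h.star (-Y) (h.star Y X) = X := by
  rw [← star_assoc, neg_star_self, zero_star]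

theorem star_neg_star (Y X : u) : h.star Y (h.star (-Y) X) = X := by
  rw [← star_assoc, star_neg_self, zero_star]

theorem neg_star (X Y : u) : -h.star X Y = h.star (-Y) (-X) := by
  have h1 : h.star (h.star (-Y) (-X)) (h.star X Y) = 0 := by
    rw [star_assoc, neg_star_star, neg_star_self]
  calc -h.star X Y = h.star (h.star (h.star (-Y) (-X)) (h.star X Y)) (-h.star X Y) := by
        rw [h1, zero_star]
    _ = _ := by rw [star_assoc, star_neg_self, star_zero]

theorem contDiff_star {n : WithTop ℕ∞} : ContDiff ℝ n fun p : u × u => h.star p.1 p.2 := by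
  obtain ⟨P, hP⟩ := u.subtype.exists_leftInverse_of_injective u.ker_subtype
  have h1 : (fun p : u × u => h.star p.1 p.2) =
      fun p : u × u => LinearMap.toContinuousLinearMap P (nlog (exp p.1.1 * exp p.2.1)) := by
    funext p
    exact (LinearMap.congr_fun hP (h.star p.1 p.2)).symm
  rw [h1]
  refine (LinearMap.toContinuousLinearMap P).contDiff.comp (contDiff_nlog.comp ?_)
  exact (contDiff_exp.comp (u.subtypeL.contDiff.comp contDiff_fst)).mul
    (contDiff_exp.comp (u.subtypeL.contDiff.comp contDiff_snd))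

theorem continuous_star : Continuous fun p : u × u => h.star p.1 p.2 :=
  (h.contDiff_star (n := 0)).continuous

/-- The dilation of `u`. -/
def dlu (t : ℝ) : u →L[ℝ] u :=
  LinearMap.toContinuousLinearMap ((dl w t).toLinearMap.restrict (h.dl_mem t))

theorem dlu_val (t : ℝ) (X : u) : (h.dlu t X).1 = dl w t X.1 := rfl

theorem dlu_zero (X : u) : h.dlu 0 X = X := Subtype.ext (dl_zero _)

theorem dlu_add (s t : ℝ) (X : u) : h.dlu (s + t) X = h.dlu s (h.dlu t X) :=
  Subtype.ext (dl_add _ _ _)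

theorem dlu_star (t : ℝ) (X Y : u) : h.dlu t (h.star X Y) = h.star (h.dlu t X) (h.dlu t Y) :=
  h.exp_inj (by simp only [exp_star, dlu_val, ← dl_exp, map_mul])

theorem continuous_dlu : Continuous h.dlu :=
  continuous_clm_apply.2 fun X => continuous_induced_rng.2
    (continuous_dl.comp (Continuous.prodMk_left X.1))

theorem tendsto_dlu (X : u) : Tendsto (fun t => h.dlu t X) atBot (𝓝 0) :=
  tendsto_subtype_rng.2 (tendsto_dl (h.le X.2))

theorem det_dlu_add (s t : ℝ) : (h.dlu (s + t)).det = (h.dlu s).det * (h.dlu t).det := by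
  have : (h.dlu (s + t) : u →ₗ[ℝ] u) = (h.dlu s : u →ₗ[ℝ] u) ∘ₗ (h.dlu t : u →ₗ[ℝ] u) :=
    LinearMap.ext (h.dlu_add s t)
  rw [ContinuousLinearMap.det, this, LinearMap.det_comp]

theorem det_dlu_zero : (h.dlu 0).det = 1 := by
  have : (h.dlu 0 : u →ₗ[ℝ] u) = LinearMap.id := LinearMap.ext h.dlu_zero
  rw [ContinuousLinearMap.det, this, LinearMap.det_id]

theorem det_dlu_pos (t : ℝ) : 0 < (h.dlu t).det := by
  have h1 := h.det_dlu_add (t / 2) (t / 2)
  have h2 := h.det_dlu_add (t / 2) (-(t / 2))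
  rw [add_halves] at h1
  rw [add_neg_cancel, det_dlu_zero] at h2
  rw [h1]
  exact mul_self_pos.2 (left_ne_zero_of_mul (h2 ▸ one_ne_zero))

/-- The volume growth rate of the dilation. -/
def ent : ℝ := Real.log (h.dlu 1).det

theorem det_dlu (t : ℝ) : (h.dlu t).det = Real.exp (t * h.ent) := by
  let φ : ℝ →+ ℝ := AddMonoidHom.mk' (fun t => Real.log (h.dlu t).det) fun s t => by
    rw [det_dlu_add, Real.log_mul (h.det_dlu_pos s).ne' (h.det_dlu_pos t).ne']
  have hc : Continuous φ :=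
    (ContinuousLinearMap.continuous_det.comp h.continuous_dlu).log fun t => (h.det_dlu_pos t).ne'
  have h1 : φ (t • (1 : ℝ)) = t • φ 1 := map_real_smul φ hc t 1
  rw [smul_eq_mul, mul_one, smul_eq_mul] at h1
  rw [← Real.exp_log (h.det_dlu_pos t)]
  exact congrArg Real.exp h1

theorem continuous_star_left (Y : u) : Continuous (h.star Y) :=
  Continuous.comp (g := fun p : u × u => h.star p.1 p.2) (f := fun X => (Y, X))
    h.continuous_star (Continuous.prodMk_right Y)

theorem continuous_star_right (Y : u) : Continuous fun X => h.star X Y :=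
  Continuous.comp (g := fun p : u × u => h.star p.1 p.2) (f := fun X => (X, Y))
    h.continuous_star (Continuous.prodMk_left Y)

/-- Left translation as a homeomorphism. -/
def starL (Y : u) : u ≃ₜ u where
  toFun := h.star Y
  invFun := h.star (-Y)
  left_inv := h.neg_star_star Y
  right_inv := h.star_neg_star Y
  continuous_toFun := h.continuous_star_left Y
  continuous_invFun := h.continuous_star_left (-Y)

variable [MeasurableSpace u] [BorelSpace u] (μ : Measure u) [μ.IsAddHaarMeasure]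

theorem measurable_star (Y : u) : Measurable (h.star Y) :=
  (h.continuous_star_left Y).measurable

theorem map_star (Y : u) : μ.map (h.star Y) = μ := by
  ext s hs
  rw [Measure.map_apply (h.measurable_star Y) hs]
  have h1 : h.star Y ⁻¹' s = h.star (-Y) '' s := ((h.starL Y).image_symm_eq_preimage s).symm
  rw [h1]
  exact @abs_measure_image u _ _ _ _ ‹_› μ ‹_› h.star h.contDiff_star (fun t => h.dlu t)
    (fun t => (h.det_dlu_pos t).ne') h.dlu_star h.tendsto_dlu h.zero_star
    (fun Y => (h.starL Y).injective) _ s hs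

theorem measurePreserving_star (Y : u) : MeasurePreserving (h.star Y) μ μ :=
  ⟨h.measurable_star Y, h.map_star μ Y⟩

theorem measurePreserving_star_right (Y : u) : MeasurePreserving (fun X => h.star X Y) μ μ := by
  have h1 : (fun X => h.star X Y) = Neg.neg ∘ h.star (-Y) ∘ Neg.neg := by
    funext X
    simp only [Function.comp, neg_star, neg_neg]
  rw [h1]
  have : μ.IsNegInvariant := @abs_neg u _ _ _ _ ‹_› μ ‹_›
  exact (Measure.measurePreserving_neg μ).comp
    ((h.measurePreserving_star μ (-Y)).comp (Measure.measurePreserving_neg μ))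

theorem measure_preimage_star (Y : u) (s : Set u) : μ (h.star Y ⁻¹' s) = μ s :=
  (h.measurePreserving_star μ Y).measure_preimage_emb (h.starL Y).measurableEmbedding s

theorem measure_image_star (Y : u) (s : Set u) : μ (h.star Y '' s) = μ s := by
  have h1 : h.star Y '' s = h.star (-Y) ⁻¹' s := (h.starL Y).image_eq_preimage_symm s
  rw [h1, measure_preimage_star]

theorem measure_image_dlu (t : ℝ) (s : Set u) :
    μ (h.dlu t '' s) = ENNReal.ofReal (Real.exp (t * h.ent)) * μ s := by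
  have h1 := @Measure.addHaar_image_linearMap u _ _ _ ‹_› _ μ ‹_› (h.dlu t : u →ₗ[ℝ] u) s
  have h2 : LinearMap.det (h.dlu t : u →ₗ[ℝ] u) = Real.exp (t * h.ent) := h.det_dlu t
  rw [h2, abs_of_pos (Real.exp_pos _)] at h1
  exact h1

theorem measure_preimage_dlu (t : ℝ) (s : Set u) :
    μ (h.dlu t ⁻¹' s) = ENNReal.ofReal (Real.exp (-(t * h.ent))) * μ s := by
  have h1 : h.dlu t ⁻¹' s = h.dlu (-t) '' s := by
    ext X
    constructor
    · intro hX
      exact ⟨_, hX, by rw [← dlu_add, neg_add_cancel, dlu_zero]⟩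
    · rintro ⟨Z, hZ, rfl⟩
      rwa [mem_preimage, ← dlu_add, add_neg_cancel, dlu_zero]
  rw [h1, measure_image_dlu, neg_mul]

end NilSub

end Pool.Agent.P.MP_d483fb_an.Z.NE
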