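import Pool.Agent.P.MP_d483fb_an.Z.HP.Count
import Pool.Agent.P.MP_d483fb_an.Z.HP.Bow
import Pool.Agent.P.MP_d483fb_an.Z.LS.Basic
import Pool.Agent.P.MP_d483fb_an.Z.Lie.Ex1

/-!
The horospherical coordinate of a point of a leaf, and three general lemmas.
-/

open scoped Matrix Matrix.Norms.Operator Topology ENNReal
open MeasureTheory ProbabilityTheory NormedSpace Filter Set

set_option linter.unusedSectionVars false

noncomputable section

namespace Pool.Agent.P.MP_d483fb_an.Z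

open Pool.Agent.P.MP_d483fb_an.Z.NE

namespace HP

/-- A measurable map is continuous on a compact set of positive measure. -/
theorem exists_compact_continuousOn {X Y : Type} [TopologicalSpace X] [PolishSpace X]
    [MeasurableSpace X] [BorelSpace X] [TopologicalSpace Y] [PolishSpace Y] [MeasurableSpace Y]
    [BorelSpace Y] (μ : Measure X) [IsFiniteMeasure μ] {f : X → Y} (hf : Measurable f)
    {A : Set X} (hA : MeasurableSet A) (h0 : μ A ≠ 0) :
    ∃ K ⊆ A, IsCompact K ∧ μ K ≠ 0 ∧ ContinuousOn f K := by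
  have hg : Measurable fun x => (x, f x) := measurable_id.prodMk hf
  have hm : MeasurableSet {p : X × Y | p.1 ∈ A ∧ f p.1 = p.2} :=
    (measurable_fst hA).inter (measurableSet_eq_fun (hf.comp measurable_fst) measurable_snd)
  have h1 : 0 < μ.map (fun x => (x, f x)) {p : X × Y | p.1 ∈ A ∧ f p.1 = p.2} := by
    rw [Measure.map_apply hg hm]
    refine lt_of_lt_of_le (pos_iff_ne_zero.2 h0) (measure_mono fun x hx => ⟨hx, rfl⟩)
  obtain ⟨Q, hQ, hc, h2⟩ := hm.exists_lt_isCompact_of_ne_top (measure_ne_top _ _) h1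
  refine ⟨Prod.fst '' Q, ?_, hc.image continuous_fst, ?_, ?_⟩
  · rintro _ ⟨p, hp, rfl⟩
    exact (hQ hp).1
  · rw [Measure.map_apply hg hc.isClosed.measurableSet] at h2
    refine (h2.trans_le (measure_mono fun x hx => ?_)).ne'
    exact ⟨_, hx, rfl⟩
  · refine continuousOn_iff_isClosed.2 fun C hC => ⟨Prod.fst '' (Q ∩ Prod.snd ⁻¹' C),
      ((hc.inter_right (hC.preimage continuous_snd)).image continuous_fst).isClosed, ?_⟩
    ext x
    constructor
    · rintro ⟨h3, p, hp, rfl⟩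
      exact ⟨⟨p, ⟨hp, by rwa [mem_preimage, ← (hQ hp).2]⟩, rfl⟩, p, hp, rfl⟩
    · rintro ⟨⟨p, hp, rfl⟩, h3⟩
      exact ⟨by rw [mem_preimage, (hQ hp.1).2]; exact hp.2, h3⟩

/-- Measurable cells from finite covers. -/
theorem exists_cells {X : Type} [MetricSpace X] [MeasurableSpace X] [BorelSpace X] {K : Set X}
    {C : ℝ} (h : ∀ r : ℝ, 0 < r → r ≤ 1 →
      ∃ F : Finset X, (F.card : ℝ) ≤ C * r⁻¹ ^ C ∧ K ⊆ ⋃ z ∈ F, Metric.ball z r)
    (s : ℝ) (hs : 0 ≤ s) : ∃ c : X → ℕ, Measurable c ∧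
      (∀ x, (c x : ℝ) + 1 ≤ Real.exp (Real.log (|C| * 2 ^ |C| + 1) + |C| * s)) ∧
      ∀ y ∈ K, ∀ y' ∈ K, c y = c y' → dist y y' ≤ Real.exp (-s) := by
  classical
  have h1 : Real.exp (-s) ≤ 1 := Real.exp_le_one_iff.2 (neg_nonpos.2 hs)
  obtain ⟨F, hF, hK⟩ := h (Real.exp (-s) / 2) (by positivity) (by linarith)
  set p : X → ℕ → Prop := fun x i => i = F.card ∨
    ∃ hi : i < F.card, x ∈ Metric.ball (F.equivFin.symm ⟨i, hi⟩).1 (Real.exp (-s) / 2) with hp
  have hex : ∀ x, ∃ i, p x i := fun x => ⟨F.card, Or.inl rfl⟩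
  have hlt : ∀ y ∈ K, Nat.find (hex y) < F.card := fun y hy => by
    obtain ⟨z, hz, h2⟩ := mem_iUnion₂.1 (hK hy)
    exact lt_of_le_of_lt (Nat.find_le (Or.inr ⟨(F.equivFin ⟨z, hz⟩).2, by simpa using h2⟩))
      (F.equivFin ⟨z, hz⟩).2
  refine ⟨fun x => Nat.find (hex x), measurable_find hex fun i => ?_, fun x => ?_,
    fun y hy y' hy' e => ?_⟩
  · simp only [hp, ofPred_or, ofPred_exists]
    exact (MeasurableSet.const _).union (MeasurableSet.iUnion fun _ => measurableSet_ball)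
  · have h2 : (Nat.find (hex x) : ℝ) ≤ F.card := by exact_mod_cast Nat.find_le (Or.inl rfl)
    have h3 : (1 : ℝ) ≤ (Real.exp (-s) / 2)⁻¹ := (one_le_inv₀ (by positivity)).2 (by linarith)
    have h4 : (Real.exp (-s) / 2)⁻¹ ^ C ≤ 2 ^ |C| * Real.exp (|C| * s) := by
      refine (Real.rpow_le_rpow_of_exponent_le h3 (le_abs_self C)).trans_eq ?_
      rw [inv_div, Real.exp_neg, div_inv_eq_mul, Real.mul_rpow (by norm_num) (Real.exp_pos _).le,
        ← Real.exp_mul, mul_comm s]
    have h5 : 1 ≤ Real.exp (|C| * s) := Real.one_le_exp (by positivity)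
    have h6 := mul_le_mul (le_abs_self C) h4 (by positivity) (abs_nonneg C)
    rw [Real.exp_add, Real.exp_log (by positivity)]
    nlinarith
  · have e : Nat.find (hex y) = Nat.find (hex y') := e
    obtain ⟨h2, h3⟩ := (Nat.find_spec (hex y)).resolve_left (hlt y hy).ne
    obtain ⟨h4, h5⟩ := (Nat.find_spec (hex y')).resolve_left (hlt y' hy').ne
    simp only [e] at h3
    have := dist_triangle_right y y' (F.equivFin.symm ⟨_, h4⟩).1
    rw [Metric.mem_ball] at h3 h5
    linarith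

end HP

variable {G : Type} [Group G] [TopologicalSpace G] [IsTopologicalGroup G] {n k : ℕ}
  {D : Std G n k}

/-- Small elements move the points of a compact set by a small amount. -/
theorem Std.exists_small (D : Std G n k) {B : Type} [MetricSpace B] [MulAction G B]
    [ContinuousSMul G B] {Q : Set B} (hQ : IsCompact Q) {δ : ℝ} (hδ : 0 < δ) :
    ∃ r : ℝ, 0 < r ∧ ∀ Y ∈ D.g, ‖Y‖ ≤ r → ∀ b ∈ Q, dist b (D.ex Y • b) ≤ δ := by
  have h1 : ∀ᶠ g in 𝓝 (1 : G), ∀ b ∈ Q, dist b (g • b) ≤ δ := by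
    refine hQ.eventually_forall_of_forall_eventually fun b _ => ?_
    have h2 : Continuous fun z : G × B => dist z.2 (z.1 • z.2) := by fun_prop
    exact h2.continuousAt.eventually (ge_mem_nhds (by simpa using hδ))
  rw [← D.ex_nhds, eventually_map, eventually_nhdsWithin_iff] at h1
  obtain ⟨r, hr, h2⟩ := Metric.eventually_nhds_iff.1 h1
  exact ⟨r / 2, half_pos hr, fun Y hY h3 => h2 (by rw [dist_zero_right]; linarith) hY⟩

/-- A linear projection on the horospherical algebra. -/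
def Std.prN (D : Std G n k) (s : Euc k) : Mat n →ₗ[ℝ] D.np s :=
  ((D.np s).subtype.exists_leftInverse_of_injective (D.np s).ker_subtype).choose

theorem Std.prN_val (D : Std G n k) (s : Euc k) (X : D.np s) : D.prN s X.1 = X :=
  LinearMap.congr_fun
    ((D.np s).subtype.exists_leftInverse_of_injective (D.np s).ker_subtype).choose_spec X

namespace GeoPre

variable {B : Type} [TopologicalSpace B] [MeasurableSpace B] [MulAction G B] {X : Type}
  [MetricSpace X] [MeasurableSpace X] [MulAction G X] {μ : Measure X} {κ : Type} [Fintype κ]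
  [DecidableEq κ] (S : GeoPre D B X μ κ) {x y z : X}

/-- The logarithm of the group block. -/
def lb (M : Matrix (Fin n ⊕ κ) (Fin n ⊕ κ) ℝ) : D.np S.Ha := D.prN S.Ha (nlog M.toBlocks₁₁)

theorem continuous_lb : Continuous S.lb := by
  refine (D.prN S.Ha).continuous_of_finiteDimensional.comp
    ((contDiff_nlog (n := 0)).continuous.comp ?_)
  exact continuous_matrix fun i j => continuous_apply_apply _ _

/-- The horospherical coordinate of `y` in the chart at `x`. -/
def U (x y : X) : D.np S.Ha := S.lb (S.T x y)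

variable {S}

theorem U_spec (h : S.R x y) :
    exp (S.U x y).1 = (S.T x y).toBlocks₁₁ ∧ S.π y = D.ex (-(S.U x y).1) • S.π x := by
  obtain ⟨Y, hY, h1, h2⟩ := S.P0 x y h
  have h3 : S.U x y = -⟨Y, hY⟩ := by
    rw [U, lb, h1, nlog_exp (w := D.wOf S.Ha) ((D.nilSub_np S.Ha).le (neg_mem hY))]
    exact D.prN_val S.Ha (-⟨Y, hY⟩)
  rw [h3]
  exact ⟨h1.symm, by simpa using h2⟩

theorem blk_trans (h : S.R x y) (h' : S.R y z) :
    (S.T x z).toBlocks₁₁ = (S.T x y).toBlocks₁₁ * (S.T y z).toBlocks₁₁ := by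
  rw [← S.T_mul x y z h h']
  conv_lhs => rw [← Matrix.fromBlocks_toBlocks (S.T x y), ← Matrix.fromBlocks_toBlocks (S.T y z),
    Matrix.fromBlocks_multiply, Matrix.toBlocks_fromBlocks₁₁]
  rw [(S.Gen_blk _ (S.T_mem x y h)).1, Matrix.zero_mul, add_zero]

theorem U_trans (h : S.R x y) (h' : S.R y z) :
    S.U x z = (D.nilSub_np S.Ha).star (S.U x y) (S.U y z) := by
  refine (D.nilSub_np S.Ha).exp_inj ?_
  rw [NilSub.exp_star, (U_spec h).1, (U_spec h').1, (U_spec (S.R_trans x y z h h')).1,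
    blk_trans h h']

theorem U_eq_zero (h : S.R x y) (e : S.π x = S.π y) : S.U x y = 0 := by
  have h1 := S.free x (S.R_mem x y h) _ (neg_mem (S.U x y).2) ((U_spec h).2.symm.trans e.symm)
  exact Subtype.ext (neg_eq_zero.1 h1)

variable (S) in
theorem π_a (t : ℕ) (x : X) : S.π (S.toPre.a t x) = D.a S.Ha ^ t • S.π x := by
  rw [Pre.a, S.f_eq, S.π_smul]
  simp only [Int.cast_natCast, zero_smul, add_zero]
  rw [Std.a, map_smul, D.ex_nsmul (D.dg_mem _)]
  rfl

theorem π_a_eq (h : S.R x y) (t : ℕ) : S.π (S.toPre.a t y) =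
    D.ex (-((D.nilSub_np S.Ha).dlu t (S.U x y)).1) • S.π (S.toPre.a t x) := by
  have h1 : D.Ad (D.a S.Ha ^ t) (-(S.U x y).1) = -((D.nilSub_np S.Ha).dlu t (S.U x y)).1 := by
    rw [map_neg, NilSub.dlu_val, ← D.Ad_a_eq_dl, Std.a, Std.a, map_smul, D.ex_nsmul (D.dg_mem _)]
  rw [π_a, π_a, (U_spec h).2, ← h1, ← D.conj_ex _ (neg_mem (S.U x y).2.1), mul_smul, mul_smul,
    inv_smul_smul]

end GeoPre

end Pool.Agent.P.MP_d483fb_an.Z
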