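import Pool.Agent.P.MP_d483fb_an.Z.HP.PlqDefs

/-!
The label of the plaques is increasing; entropy of the digit; names and Bowen balls.
-/

open MeasureTheory ProbabilityTheory Set Filter Topology
open scoped ENNReal

set_option linter.unusedSectionVars false

noncomputable section

namespace Pool.Agent.P.MP_d483fb_an.Z.HP

open Pool.Agent.P.MP_d483fb_an.Z.Ent

namespace Plq

variable {X B : Type} [MetricSpace X] [MeasurableSpace X] [MetricSpace B] [MeasurableSpace B]
  {μ : Measure X} (P : Plq X B μ)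

theorem lab_of_T {y y' : X} (hy : P.Good y) (hy' : P.Good y') (hτ : P.τ y = P.τ y')
    (h : P.lab (P.T y) = P.lab (P.T y')) : P.lab y = P.lab y' := by
  refine P.sh2 y hy.mem y' hy'.mem fun i => ?_
  have h1 := P.sh1 _ hy.T.mem _ hy'.T.mem h (i + P.τ y)
  rw [T_apply, T_apply, ← hτ, b_a_add, b_a_add] at h1
  refine h1.trans (mul_le_mul_of_nonneg_left (Real.exp_le_exp.2 ?_) (by linarith [P.one_le_A]))
  have h2 := P.kap_pos
  have h3 := P.kap_lt
  have h4 : (0 : ℝ) ≤ i := Nat.cast_nonneg _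
  have h5 : (0 : ℝ) ≤ P.τ y := Nat.cast_nonneg _
  push_cast
  nlinarith

theorem lab_T {y y' : X} (hy : P.Good y) (hy' : P.Good y') (hd : P.d y = P.d y')
    (h : P.lab y = P.lab y') : P.lab (P.T y) = P.lab (P.T y') := by
  refine P.sh2 _ hy.T.mem _ hy'.T.mem fun i => ?_
  have h0 := P.dist_le hy.mem hy'.mem hd
  rw [T_apply, T_apply, ← P.τ_eq hd]
  generalize P.τ y = t at h0
  have h1 := P.kap_pos
  have h2 := sub_pos.2 P.kap_lt
  have h3 := P.Lp_nonneg
  have h4 := P.eps_pos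
  have h5 : P.eta ≤ P.A := P.eta_le.trans P.one_le_A
  have h6 : (0 : ℝ) ≤ t := Nat.cast_nonneg _
  set c := (P.Lp + P.kap) * P.kap / (P.kap' - P.kap) with hc
  have h7 : 0 ≤ c := by positivity
  have hL : P.L = P.Lp + P.eps + P.kap + c := rfl
  have key : ∀ e e' : ℝ, e + -P.L * t ≤ e' →
      Real.exp e * (P.eta * Real.exp (-P.L * t)) ≤ P.A * Real.exp e' := fun e e' he => by
    rw [mul_left_comm, ← Real.exp_add]
    exact mul_le_mul h5 (Real.exp_le_exp.2 he) (Real.exp_pos _).le (by linarith [P.eta_pos])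
  rcases le_total i t with hi | hi
  · rw [P.b_a_of_le hi, P.b_a_of_le hi]
    refine (P.lip_a_iter _ _ _).trans
      ((mul_le_mul_of_nonneg_left h0 (Real.exp_pos _).le).trans (key _ _ ?_))
    have h8 : (i : ℝ) ≤ t := by exact_mod_cast hi
    have h9 : (0 : ℝ) ≤ i := Nat.cast_nonneg _
    rw [Nat.cast_sub hi, hL]
    nlinarith [mul_nonneg h7 h6, mul_nonneg h4.le h6, mul_nonneg h3 h9]
  · obtain ⟨j, rfl⟩ := Nat.exists_eq_add_of_le' hi
    rw [b_a_add, b_a_add]
    have h9 : (0 : ℝ) ≤ j := Nat.cast_nonneg _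
    rcases le_total (P.kap * t) ((P.kap' - P.kap) * j) with hj | hj
    · refine (P.sh1 y hy.mem y' hy'.mem h j).trans
        (mul_le_mul_of_nonneg_left (Real.exp_le_exp.2 ?_) (by linarith [P.eta_pos]))
      push_cast
      nlinarith
    · refine (P.lip_b_iter _ _ _).trans
        ((mul_le_mul_of_nonneg_left h0 (Real.exp_pos _).le).trans (key _ _ ?_))
      have h10 : (P.Lp + P.kap) * j ≤ c * t := by
        rw [hc, div_mul_eq_mul_div, le_div_iff₀ h2]
        nlinarith [mul_le_mul_of_nonneg_left hj (add_nonneg h3 h1.le)]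
      rw [hL]
      push_cast
      nlinarith [mul_nonneg h4.le h6, mul_nonneg h3 h6]

theorem F_T_iff {y y' : X} (hy : P.Good y) (hy' : P.Good y') :
    P.F (P.T y) = P.F (P.T y') ↔ P.F y = P.F y' ∧ P.d y = P.d y' := by
  have e : ∀ {y : X}, P.Good y → ∀ j, (P.F (P.T y)).2 j = P.d (P.T'^[j] y) := fun hy j => by
    simp only [F, Function.iterate_succ_apply, hy.inv]
  constructor
  · intro h
    have h1 : ∀ j, P.d (P.T'^[j] y) = P.d (P.T'^[j] y') := fun j => by rw [← e hy, ← e hy', h]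
    exact ⟨Prod.ext (P.lab_of_T hy hy' (P.τ_eq (h1 0)) (congrArg Prod.fst h))
      (funext fun j => h1 (j + 1)), h1 0⟩
  · rintro ⟨h1, h2⟩
    refine Prod.ext (P.lab_T hy hy' h2 (congrArg Prod.fst h1)) (funext fun j => ?_)
    rw [e hy, e hy']
    cases j with
    | zero => exact h2
    | succ j => exact congrFun (congrArg Prod.snd h1) j

theorem F_iter {y y' : X} (hy : P.Good y) (hy' : P.Good y') (h : P.F y = P.F y') {k : ℕ}
    (hn : ∀ i < k, P.d (P.T^[i] y) = P.d (P.T^[i] y')) : P.F (P.T^[k] y) = P.F (P.T^[k] y') := by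
  induction k with
  | zero => exact h
  | succ k ih =>
    rw [Function.iterate_succ_apply', Function.iterate_succ_apply']
    exact (P.F_T_iff (hy.iter k) (hy'.iter k)).2 ⟨ih fun i hi => hn i (by omega), hn k (by omega)⟩

theorem π_T_iff {y y' : X} (h : P.d y = P.d y') : P.π (P.T y) = P.π (P.T y') ↔ P.π y = P.π y' := by
  rw [T_apply, T_apply, ← P.τ_eq h, π_a_iter]

variable [BorelSpace X] [IsProbabilityMeasure μ]

theorem incr_F : Incr P.ν P.T P.F P.d :=
  ⟨⟨{y | P.Good y}, P.ae_Good, fun _ hy _ hy' h => Prod.ext_iff.2 ((P.F_T_iff hy hy').1 h)⟩,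
    ⟨{y | P.Good y}, P.ae_Good, fun _ hy _ hy' h => (P.F_T_iff hy hy').2 (Prod.ext_iff.1 h)⟩⟩

theorem incr_S : Incr P.ν P.T (pr2 P.F P.π) P.d := by
  refine ⟨⟨{y | P.Good y}, P.ae_Good, fun y hy y' hy' h => ?_⟩,
    ⟨{y | P.Good y}, P.ae_Good, fun y hy y' hy' h => ?_⟩⟩
  · obtain ⟨h1, h2⟩ := (P.F_T_iff hy hy').1 (congrArg Prod.fst h)
    exact Prod.ext (Prod.ext h1 ((P.π_T_iff h2).1 (congrArg Prod.snd h))) h2
  · obtain ⟨h1, h2⟩ := Prod.ext_iff.1 h
    obtain ⟨h3, h4⟩ := Prod.ext_iff.1 h1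
    exact Prod.ext ((P.F_T_iff hy hy').2 ⟨h3, h2⟩) ((P.π_T_iff h2).2 h4)

theorem finEnt_d [StandardBorelSpace X] [Nonempty X] : FinEnt P.ν P.d := by
  refine finEnt_of_count P.meas_d P.int_τ.1
    (fun k => {k} ×ˢ Finset.range ⌊Real.exp (P.C + P.dm * (P.L * k - Real.log P.eta))⌋₊)
    (C := |P.C - P.dm * Real.log P.eta| + P.dm * P.L) (fun k => ?_)
    (Eventually.of_forall fun x => ?_)
  · rw [Finset.card_product, Finset.card_singleton, Finset.card_range, one_mul]
    refine (Nat.floor_le (Real.exp_pos _).le).trans (Real.exp_le_exp.2 ?_)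
    have h1 := le_abs_self (P.C - P.dm * Real.log P.eta)
    have h2 := mul_nonneg (abs_nonneg (P.C - P.dm * Real.log P.eta)) (Nat.cast_nonneg (α := ℝ) k)
    have h3 := mul_nonneg P.dm_nonneg P.L_nonneg
    nlinarith
  · refine Finset.mem_product.2 ⟨Finset.mem_singleton_self _, ?_⟩
    rw [Finset.mem_range, ← Nat.succ_le_iff]
    refine Nat.le_floor ?_
    exact_mod_cast (P.cov _ (P.scale_nonneg (P.τ x))).choose_spec.2.1 x

/-- The name of a point confines its projection to a Bowen ball. -/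
theorem bowen (n : ℕ) (hn : 0 < n) :
    ∃ (E : (Fin n → ℕ × ℕ) → Set B) (u : (Fin n → ℕ × ℕ) → ℝ),
      (∀ᵐ x ∂P.ν, P.π x ∈ E (names P.T P.d n x)) ∧ (∀ i, 0 < u i) ∧
      (∀ i, P.ν.map P.π (E i) ≤ ENNReal.ofReal (u i)) ∧
      Integrable (fun x => Real.log (u (names P.T P.d n x))) P.ν ∧
      ∫ x, Real.log (u (names P.T P.d n x)) ∂P.ν ≤
        (P.C + Real.log P.th) - n * (P.th * P.hU) := by
  classical
  have hth : 0 < P.th := one_pos.trans_le P.one_le_th
  have e : ∀ x, ∑ j, (names P.T P.d n x j).1 = P.tn n x := fun x =>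
    (Finset.sum_range fun j => P.τ (P.T^[j] x)).symm
  have e2 : ∀ x, Real.log (P.th * Real.exp (P.C - (∑ j, (names P.T P.d n x j).1 : ℕ) * P.hU)) =
      P.C + Real.log P.th - P.tn n x * P.hU := fun x => by
    rw [Real.log_mul hth.ne' (Real.exp_pos _).ne', Real.log_exp, e]
    ring
  refine ⟨fun w => if h : ∃ y, P.Good y ∧ names P.T P.d n y = w then
      P.π '' {y' | Cl P.a P.K P.eta P.eps (P.tn n h.choose) h.choose y'} else ∅,
    fun w => P.th * Real.exp (P.C - (∑ j, (w j).1 : ℕ) * P.hU), ?_, fun w => by positivity,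
    fun w => ?_, ?_, ?_⟩
  · filter_upwards [P.ae_Good] with x hx
    have h : ∃ y, P.Good y ∧ names P.T P.d n y = names P.T P.d n x := ⟨x, hx, rfl⟩
    rw [dif_pos h]
    exact ⟨x, P.cl_of_names h.choose_spec.1 hx hn (names_eq_iff.1 h.choose_spec.2), rfl⟩
  · beta_reduce
    split_ifs with h
    · have h1 := P.bow _ h.choose_spec.1.mem (P.tn n h.choose)
      have h2 : P.ν.map P.π ≤ ENNReal.ofReal P.th • μ.map P.π := by
        rw [← Measure.map_smul]
        refine Measure.map_mono ?_ P.meas_π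
        have h3 : ENNReal.ofReal P.th = (μ P.K)⁻¹ := by
          rw [th, Measure.real, ← ENNReal.toReal_inv,
            ENNReal.ofReal_toReal (ENNReal.inv_ne_top.2 P.pos)]
        rw [h3]
        intro s
        exact mul_le_mul_right (Measure.restrict_le_self s) _
      refine (h2 _).trans ?_
      rw [Measure.smul_apply, smul_eq_mul, ENNReal.ofReal_mul hth.le]
      refine mul_le_mul_right (h1.trans_eq ?_) _
      rw [← e, h.choose_spec.2]
    · simp
  · simp only [e2]
    exact (integrable_const _).sub ((P.int_tn n).1.mul_const _)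
  · simp only [e2]
    rw [integral_sub (integrable_const _) ((P.int_tn n).1.mul_const _), integral_mul_const,
      (P.int_tn n).2]
    simp [mul_assoc]

end Plq

end Pool.Agent.P.MP_d483fb_an.Z.HP
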