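import Pool.Agent.P.MP_d483fb_an.Z.Ent.E6
import Pool.Agent.P.MP_d483fb_an.Z.Erg.Return

/-!
Plaques of an expanding foliation inside a compact set: the abstract data, the digit of Mane
and the increasing label.
-/

open MeasureTheory ProbabilityTheory Set Filter Topology
open scoped ENNReal

set_option linter.unusedSectionVars false

noncomputable section

namespace Pool.Agent.P.MP_d483fb_an.Z.HP

open Pool.Agent.P.MP_d483fb_an.Z.Ent

/-- The orbits of `y` and `y'` are close up to time `t`, at a scale that decreases slowly with the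
time elapsed since a visit to `K`. -/
def Cl {X : Type} [MetricSpace X] (a : X → X) (K : Set X) (η ε : ℝ) (t : ℕ) (y y' : X) : Prop :=
  ∀ i ≤ t, ∃ s ≤ i, a^[s] y ∈ K ∧
    dist (a^[i] y) (a^[i] y') ≤ η * Real.exp (-ε * ((i : ℝ) - s))

/-- The data of a family of plaques (the fibres of `lab` in `K`) over a base with expansion
rate `hU`. -/
structure Plq (X B : Type) [MetricSpace X] [MeasurableSpace X] [MetricSpace B]
    [MeasurableSpace B] (μ : Measure X) where
  a : X → X
  b : X → X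
  K : Set X
  lab : X → ℕ → ℝ
  π : X → B
  sig : ℕ → X → ℕ
  W : Set X
  kap : ℝ
  kap' : ℝ
  Lp : ℝ
  eps : ℝ
  A : ℝ
  eta : ℝ
  hU : ℝ
  C : ℝ
  dm : ℝ
  erg : Ergodic a μ
  meas_b : Measurable b
  linv : Function.LeftInverse b a
  cpt : IsCompact K
  pos : μ K ≠ 0
  meas_lab : Measurable lab
  cont_lab : ContinuousOn lab K
  meas_π : Measurable π
  meas_sig : ∀ N, Measurable (sig N)
  kap_pos : 0 < kap
  kap_lt : kap < kap'
  Lp_nonneg : 0 ≤ Lp
  eps_pos : 0 < eps
  eta_pos : 0 < eta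
  eta_le : eta ≤ 1
  one_le_A : 1 ≤ A
  dm_nonneg : 0 ≤ dm
  lip_a : ∀ x y, dist (a x) (a y) ≤ Real.exp Lp * dist x y
  lip_b : ∀ x y, dist (b x) (b y) ≤ Real.exp Lp * dist x y
  sh1 : ∀ y ∈ K, ∀ y' ∈ K, lab y = lab y' →
    ∀ i : ℕ, dist (b^[i] y) (b^[i] y') ≤ A * Real.exp (-kap' * i)
  sh2 : ∀ y ∈ K, ∀ y' ∈ K,
    (∀ i : ℕ, dist (b^[i] y) (b^[i] y') ≤ A * Real.exp (-kap * i)) → lab y = lab y'
  g3 : ∀ y ∈ K, ∀ y' t, a^[t] y ∈ K → Cl a K eta eps t y y' → ∀ i ≤ t,
    dist (a^[i] y) (a^[i] y') ≤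
      (A - 1) * Real.exp (-kap' * ((t : ℝ) - i)) + A * Real.exp (eps * t) * dist y y'
  bow : ∀ y ∈ K, ∀ t : ℕ,
    μ.map π (π '' {y' | Cl a K eta eps t y y'}) ≤ ENNReal.ofReal (Real.exp (C - t * hU))
  cov : ∀ s : ℝ, 0 ≤ s → ∃ c : X → ℕ, Measurable c ∧ (∀ x, (c x : ℝ) + 1 ≤ Real.exp (C + dm * s)) ∧
    ∀ y ∈ K, ∀ y' ∈ K, c y = c y' → dist y y' ≤ Real.exp (-s)
  π_a : ∀ y y', π (a y) = π (a y') ↔ π y = π y'
  aeW : ∀ᵐ x ∂μ[|K], x ∈ W
  c0 : ∀ y ∈ W, ∀ y' ∈ W, lab y = lab y' → π y = π y' → ∀ N, sig N y = sig N y'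
  c1 : ∀ δ : ℝ, 0 < δ → ∃ j : ℕ, ∀ N t : ℕ, t + j ≤ N → ∀ y ∈ W, ∀ y' ∈ W, lab y = lab y' →
    sig N y = sig N y' → a^[t] y ∈ K → dist (π (a^[t] y)) (π (a^[t] y')) ≤ δ

namespace Plq

variable {X B : Type} [MetricSpace X] [MeasurableSpace X] [MetricSpace B] [MeasurableSpace B]
  {μ : Measure X} (P : Plq X B μ)

/-- The first return map. -/
def T : X → X := firstRet P.a P.K

/-- The inverse of the first return map. -/
def T' : X → X := firstRet P.b P.K

/-- The first return time. -/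
def τ : X → ℕ := retTime P.a P.K

/-- The time of the `n`-th return. -/
def tn (n : ℕ) (x : X) : ℕ := birkhoffSum P.T P.τ n x

/-- The normalised restriction of the measure. -/
def ν : Measure X := μ[|P.K]

/-- The mean return time. -/
def th : ℝ := (μ.real P.K)⁻¹

/-- The rate of decay of the size of the cells. -/
def L : ℝ := P.Lp + P.eps + P.kap + (P.Lp + P.kap) * P.kap / (P.kap' - P.kap)

theorem L_nonneg : 0 ≤ P.L := by
  have h1 := P.kap_pos
  have h2 := P.Lp_nonneg
  have h3 := P.eps_pos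
  have h4 := sub_pos.2 P.kap_lt
  unfold L
  positivity

theorem scale_nonneg (t : ℕ) : 0 ≤ P.L * t - Real.log P.eta := by
  have h1 := Real.log_nonpos P.eta_pos.le P.eta_le
  have h2 := mul_nonneg P.L_nonneg (Nat.cast_nonneg (α := ℝ) t)
  linarith

/-- The cells at the scale attached to the return time `t`. -/
def cell (t : ℕ) : X → ℕ := (P.cov _ (P.scale_nonneg t)).choose

/-- The digit. -/
def d (x : X) : ℕ × ℕ := (P.τ x, P.cell (P.τ x) x)

/-- The increasing label: the plaque and the past digits. -/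
def F (x : X) : (ℕ → ℝ) × (ℕ → ℕ × ℕ) := (P.lab x, fun j => P.d (P.T'^[j + 1] x))

/-- The points that return infinitely often. -/
def Good (y : X) : Prop := ∀ j, P.T^[j] y ∈ P.K ∧ 0 < P.τ (P.T^[j] y)

/-- The depth of the transversal digit. -/
def N1 (n : ℕ) : ℕ := ⌈(1 + P.eps) * P.th * n⌉₊

theorem T_apply (x : X) : P.T x = P.a^[P.τ x] x := rfl

theorem iterate_T (n : ℕ) (x : X) : P.T^[n] x = P.a^[P.tn n x] x := iterate_firstRet n x

theorem tn_zero (x : X) : P.tn 0 x = 0 := rfl

theorem tn_succ (n : ℕ) (x : X) : P.tn (n + 1) x = P.tn n x + P.τ (P.T^[n] x) :=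
  birkhoffSum_succ _ _ _ _

theorem tn_mono (x : X) : Monotone fun n => P.tn n x :=
  monotone_nat_of_le_succ fun n => by simp [tn_succ]

theorem τ_eq {y y' : X} (h : P.d y = P.d y') : P.τ y = P.τ y' := congrArg Prod.fst h

theorem dist_le {y y' : X} (hy : y ∈ P.K) (hy' : y' ∈ P.K) (h : P.d y = P.d y') :
    dist y y' ≤ P.eta * Real.exp (-P.L * P.τ y) := by
  have h1 : P.cell (P.τ y) y = P.cell (P.τ y') y' := congrArg Prod.snd h
  rw [← P.τ_eq h] at h1
  refine ((P.cov _ (P.scale_nonneg (P.τ y))).choose_spec.2.2 y hy y' hy' h1).trans_eq ?_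
  rw [neg_sub, sub_eq_add_neg, Real.exp_add, Real.exp_log P.eta_pos, neg_mul]

theorem Good.mem {P : Plq X B μ} {y : X} (h : P.Good y) : y ∈ P.K := (h 0).1

theorem Good.pos {P : Plq X B μ} {y : X} (h : P.Good y) : 0 < P.τ y := (h 0).2

theorem Good.T {P : Plq X B μ} {y : X} (h : P.Good y) : P.Good (P.T y) := fun j => h (j + 1)

theorem Good.iter {P : Plq X B μ} {y : X} (h : P.Good y) (n : ℕ) : P.Good (P.T^[n] y) :=
  fun j => by
    rw [← Function.iterate_add_apply]
    exact h _

theorem Good.inv {P : Plq X B μ} {y : X} (h : P.Good y) : P.T' (P.T y) = y :=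
  firstRet_inv P.linv h.mem h.pos

theorem Good.le_tn {P : Plq X B μ} {y : X} (h : P.Good y) (n : ℕ) : n ≤ P.tn n y := by
  induction n with
  | zero => exact Nat.zero_le _
  | succ n ih =>
    have := (h n).2
    rw [tn_succ]
    omega

/-- The past digits of `T^[k] y`. -/
theorem Good.inv_iter {P : Plq X B μ} {y : X} (h : P.Good y) {j k : ℕ} (hj : j ≤ k) :
    P.T'^[j] (P.T^[k] y) = P.T^[k - j] y := by
  induction j with
  | zero => rfl
  | succ j ih =>
    rw [Function.iterate_succ_apply', ih (by omega),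
      show k - j = (k - (j + 1)) + 1 by omega, Function.iterate_succ_apply', (h.iter _).inv]

theorem lip_a_iter (i : ℕ) (x y : X) :
    dist (P.a^[i] x) (P.a^[i] y) ≤ Real.exp (P.Lp * i) * dist x y := by
  induction i with
  | zero => simp
  | succ i ih =>
    rw [Function.iterate_succ_apply', Function.iterate_succ_apply']
    refine (P.lip_a _ _).trans ((mul_le_mul_of_nonneg_left ih (Real.exp_pos _).le).trans_eq ?_)
    rw [← mul_assoc, ← Real.exp_add]
    congr 2
    push_cast
    ring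

theorem lip_b_iter (i : ℕ) (x y : X) :
    dist (P.b^[i] x) (P.b^[i] y) ≤ Real.exp (P.Lp * i) * dist x y := by
  induction i with
  | zero => simp
  | succ i ih =>
    rw [Function.iterate_succ_apply', Function.iterate_succ_apply']
    refine (P.lip_b _ _).trans ((mul_le_mul_of_nonneg_left ih (Real.exp_pos _).le).trans_eq ?_)
    rw [← mul_assoc, ← Real.exp_add]
    congr 2
    push_cast
    ring

theorem b_a_of_le {i t : ℕ} (h : i ≤ t) (x : X) : P.b^[i] (P.a^[t] x) = P.a^[t - i] x := by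
  conv_lhs => rw [← Nat.add_sub_cancel' h, Function.iterate_add_apply]
  exact P.linv.iterate i _

theorem b_a_add (i t : ℕ) (x : X) : P.b^[i + t] (P.a^[t] x) = P.b^[i] x := by
  rw [Function.iterate_add_apply, P.linv.iterate t]

theorem π_a_iter (t : ℕ) (y y' : X) : P.π (P.a^[t] y) = P.π (P.a^[t] y') ↔ P.π y = P.π y' := by
  induction t with
  | zero => rfl
  | succ t ih => rw [Function.iterate_succ_apply', Function.iterate_succ_apply', P.π_a, ih]

/-- Equal names give equal return times. -/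
theorem tn_eq {y y' : X} {k : ℕ} (h : ∀ i < k, P.d (P.T^[i] y) = P.d (P.T^[i] y')) :
    P.tn k y = P.tn k y' := by
  induction k with
  | zero => rfl
  | succ k ih =>
    rw [tn_succ, tn_succ, ih fun i hi => h i (by omega), P.τ_eq (h k (by omega))]

/-- Equal names give close orbits. -/
theorem cl_of_names {y y' : X} (hy : P.Good y) (hy' : P.Good y') {k : ℕ} (hk : 0 < k)
    (h : ∀ i < k, P.d (P.T^[i] y) = P.d (P.T^[i] y')) :
    Cl P.a P.K P.eta P.eps (P.tn k y) y y' := by
  intro i hi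
  obtain ⟨j, hj, h1, h2⟩ : ∃ j < k, P.tn j y ≤ i ∧ i ≤ P.tn (j + 1) y := by
    clear h
    induction k with
    | zero => omega
    | succ k ih =>
      by_cases h3 : P.tn k y ≤ i
      · exact ⟨k, by omega, h3, hi⟩
      · have h4 : 0 < k := Nat.pos_of_ne_zero fun h0 => h3 (by simp [h0, tn_zero])
        obtain ⟨j, hj, h5⟩ := ih h4 (by omega)
        exact ⟨j, by omega, h5⟩
  have e1 := P.iterate_T j y
  have e2 := P.iterate_T j y'
  rw [← P.tn_eq fun i hi => h i (hi.trans hj)] at e2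
  refine ⟨P.tn j y, h1, e1 ▸ (hy j).1, ?_⟩
  obtain ⟨m, rfl⟩ := Nat.exists_eq_add_of_le' h1
  rw [Function.iterate_add_apply, Function.iterate_add_apply, ← e1, ← e2]
  refine (P.lip_a_iter m _ _).trans ?_
  refine (mul_le_mul_of_nonneg_left (P.dist_le (hy j).1 (hy' j).1 (h j hj))
    (Real.exp_pos _).le).trans ?_
  rw [mul_left_comm, ← Real.exp_add]
  refine mul_le_mul_of_nonneg_left (Real.exp_le_exp.2 ?_) P.eta_pos.le
  have h3 : (m : ℝ) ≤ P.τ (P.T^[j] y) := by
    rw [tn_succ] at h2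
    exact_mod_cast (by omega : m ≤ P.τ (P.T^[j] y))
  have h4 : P.Lp + P.eps ≤ P.L := by
    have := P.kap_pos
    have := P.Lp_nonneg
    have := sub_pos.2 P.kap_lt
    have : 0 ≤ (P.Lp + P.kap) * P.kap / (P.kap' - P.kap) := by positivity
    unfold L
    linarith
  have h5 := mul_le_mul h4 h3 (Nat.cast_nonneg m) P.L_nonneg
  push_cast
  linarith

section meas
variable [BorelSpace X]

theorem measK : MeasurableSet P.K := P.cpt.isClosed.measurableSet

theorem meas_a : Measurable P.a := P.erg.toMeasurePreserving.measurable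

theorem meas_T : Measurable P.T := measurable_firstRet P.meas_a P.measK

theorem meas_T' : Measurable P.T' := measurable_firstRet P.meas_b P.measK

theorem meas_τ : Measurable P.τ := measurable_retTime P.meas_a P.measK

theorem meas_tn (n : ℕ) : Measurable (P.tn n) :=
  Finset.measurable_sum (f := fun i x => P.τ (P.T^[i] x)) (Finset.range n)
    fun i _ => P.meas_τ.comp (P.meas_T.iterate i)

theorem meas_d : Measurable P.d :=
  P.meas_τ.prodMk (measurable_comp_retTime P.meas_a P.measK (g := P.cell)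
    fun t => (P.cov _ (P.scale_nonneg t)).choose_spec.1)

theorem meas_F : Measurable P.F :=
  P.meas_lab.prodMk (measurable_pi_lambda _ fun j => P.meas_d.comp (P.meas_T'.iterate (j + 1)))

theorem meas_Good : MeasurableSet {y | P.Good y} := by
  simp only [Good, ofPred_forall]
  exact MeasurableSet.iInter fun j => (P.meas_T.iterate j P.measK).inter
    (measurableSet_lt measurable_const (P.meas_τ.comp (P.meas_T.iterate j)))

variable [IsProbabilityMeasure μ]

instance : IsProbabilityMeasure P.ν := cond_isProbabilityMeasure P.pos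

theorem erg_T : Ergodic P.T P.ν := ergodic_firstRet_cond P.erg P.measK

theorem mp_T : MeasurePreserving P.T P.ν P.ν := P.erg_T.toMeasurePreserving

theorem ae_Good : ∀ᵐ y ∂P.ν, P.Good y := by
  refine ae_all_iff.2 fun j => ?_
  refine (P.mp_T.iterate j).quasiMeasurePreserving.ae
    (p := fun y => y ∈ P.K ∧ 0 < P.τ y) ?_
  filter_upwards [ae_cond_retTime P.erg.toMeasurePreserving P.measK] with y hy
  exact ⟨hy.1, hy.2.1⟩

theorem one_le_th : 1 ≤ P.th := by
  have h0 : 0 < μ.real P.K := ENNReal.toReal_pos P.pos (measure_ne_top _ _)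
  exact (one_le_inv₀ h0).2 measureReal_le_one

theorem int_τ : Integrable (fun x => (P.τ x : ℝ)) P.ν ∧ ∫ x, (P.τ x : ℝ) ∂P.ν = P.th :=
  integral_retTime_cond P.erg P.measK P.pos

theorem int_tn (n : ℕ) :
    Integrable (fun x => (P.tn n x : ℝ)) P.ν ∧ ∫ x, (P.tn n x : ℝ) ∂P.ν = n * P.th := by
  have e : (fun x => (P.tn n x : ℝ)) = birkhoffSum P.T (fun x => (P.τ x : ℝ)) n := by
    funext x
    simp [tn, birkhoffSum]
  rw [e]
  exact ⟨integrable_birkhoffSum P.mp_T P.int_τ.1 n, by
    rw [integral_birkhoffSum P.mp_T P.int_τ.1, P.int_τ.2]⟩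

/-- The return times are close to their mean off a small set. -/
theorem tendsto_tn {c : ℝ} (hc : P.th < c) :
    Tendsto (fun n : ℕ => P.ν.real {x | c * n < P.tn n x}) atTop (𝓝 0) := by
  have h1 : ∀ᵐ x ∂P.ν, Tendsto (fun n : ℕ => (P.tn n x : ℝ) / n) atTop (𝓝 P.th) :=
    tendsto_retTime_sum P.erg P.measK P.pos
  have hm : ∀ n : ℕ, MeasurableSet {x | c * n < P.tn n x} := fun n =>
    measurableSet_lt measurable_const (measurable_from_nat.comp (P.meas_tn n))
  have h2 : Tendsto (fun n : ℕ => P.ν {x | c * n < P.tn n x}) atTop (𝓝 (P.ν ∅)) := by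
    refine tendsto_measure_of_ae_tendsto_indicator_of_isFiniteMeasure atTop MeasurableSet.empty
      hm ?_
    filter_upwards [h1] with x hx
    filter_upwards [hx.eventually (gt_mem_nhds hc), eventually_gt_atTop 0] with n h3 h4
    rw [div_lt_iff₀ (by exact_mod_cast h4)] at h3
    simpa using h3.le
  have h3 := (ENNReal.tendsto_toReal (measure_ne_top _ _)).comp h2
  rwa [measure_empty, ENNReal.toReal_zero] at h3

end meas

end Plq

end Pool.Agent.P.MP_d483fb_an.Z.HP
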